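import Mathlib

/-! Oscillatory integrals against products of step functions. -/

set_option autoImplicit false
set_option maxHeartbeats 1000000

namespace Pool.Agent.W2helper62.CD

open Finset MeasureTheory Filter Topology
open scoped ENNReal

/-- `e(x) = exp(2πix)` -/
noncomputable def e (x : ℝ) : ℂ := Complex.exp (2 * Real.pi * x * Complex.I)

lemma norm_e (x : ℝ) : ‖e x‖ = 1 := by
  unfold e
  have : (2 * Real.pi * x * Complex.I : ℂ) = ((2 * Real.pi * x : ℝ) : ℂ) * Complex.I := by push_cast; ring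
  rw [this, Complex.norm_exp_ofReal_mul_I]

lemma e_add (x y : ℝ) : e (x + y) = e x * e y := by
  unfold e
  rw [← Complex.exp_add]
  congr 1
  push_cast
  ring

lemma e_neg (x : ℝ) : e (-x) = (starRingEnd ℂ) (e x) := by
  unfold e
  rw [← Complex.exp_conj]
  congr 1
  simp only [map_mul, Complex.conj_I, Complex.conj_ofReal, map_ofNat]
  push_cast
  ring

lemma e_cont : Continuous e := by
  unfold e
  fun_prop

lemma int_Ioc (l : ℝ) (hl : l ≠ 0) (a b : ℝ) (hab : a ≤ b) :
    ‖∫ x in Set.Ioc a b, e (l * x)‖ ≤ 1 / (Real.pi * |l|) := by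
  rw [← intervalIntegral.integral_of_le hab]
  have hc : (2 * Real.pi * l * Complex.I : ℂ) ≠ 0 := by
    have := Real.pi_ne_zero
    simp [hl, this]
  have h1 : ∀ x : ℝ, e (l * x) = Complex.exp (2 * Real.pi * l * Complex.I * x) := by
    intro x
    unfold e
    congr 1
    push_cast
    ring
  simp only [h1]
  rw [integral_exp_mul_complex hc, norm_div]
  have h2 : ∀ x : ℝ, ‖Complex.exp (2 * Real.pi * l * Complex.I * x)‖ = 1 := fun x => by rw [← h1, norm_e]
  have h3 : ‖Complex.exp (2 * Real.pi * l * Complex.I * b) - Complex.exp (2 * Real.pi * l * Complex.I * a)‖ ≤ 2 := by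
    refine (norm_sub_le _ _).trans ?_
    rw [h2, h2]
    norm_num
  have h4 : ‖(2 * Real.pi * l * Complex.I : ℂ)‖ = 2 * (Real.pi * |l|) := by
    simp only [norm_mul, Complex.norm_I, Complex.norm_real, Real.norm_eq_abs, Complex.norm_ofNat, mul_one,
      abs_of_pos Real.pi_pos]
    ring
  rw [h4]
  have h5 : 0 < Real.pi * |l| := mul_pos Real.pi_pos (abs_pos.mpr hl)
  rw [div_le_div_iff₀ (by positivity) h5]
  nlinarith

/-- an order-connected bounded set is almost a half-open interval -/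
lemma ord_ae {s : Set ℝ} (hs : s.OrdConnected) (hb : BddBelow s) (ha : BddAbove s) (hne : s.Nonempty) :
    s =ᵐ[volume] Set.Ioc (sInf s) (sSup s) := by
  have h1 : Set.Ioo (sInf s) (sSup s) ⊆ s := by
    intro x hx
    obtain ⟨y, hy, hyx⟩ := exists_lt_of_csInf_lt hne hx.1
    obtain ⟨z, hz, hxz⟩ := exists_lt_of_lt_csSup hne hx.2
    exact hs.out hy hz ⟨hyx.le, hxz.le⟩
  have h2 : s ⊆ Set.Icc (sInf s) (sSup s) := fun x hx => ⟨csInf_le hb hx, le_csSup ha hx⟩
  have h3 : Set.Ioo (sInf s) (sSup s) =ᵐ[volume] Set.Ioc (sInf s) (sSup s) := Ioo_ae_eq_Ioc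
  have h4 : Set.Ioc (sInf s) (sSup s) =ᵐ[volume] Set.Icc (sInf s) (sSup s) := Ioc_ae_eq_Icc
  have h5 : Set.Icc (sInf s) (sSup s) ≤ᵐ[volume] Set.Ioo (sInf s) (sSup s) := (h3.trans h4).symm.le
  refine Filter.EventuallyEq.trans ?_ h3
  exact (h2.eventuallyLE.trans h5).antisymm h1.eventuallyLE

lemma int_ord (l : ℝ) (hl : l ≠ 0) {s : Set ℝ} (hs : s.OrdConnected) (hb : BddBelow s) (ha : BddAbove s) :
    ‖∫ x in s, e (l * x)‖ ≤ 1 / (Real.pi * |l|) := by
  rcases s.eq_empty_or_nonempty with h | hne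
  · rw [h]
    simp only [Measure.restrict_empty, integral_zero_measure, norm_zero]
    have h5 : 0 < Real.pi * |l| := mul_pos Real.pi_pos (abs_pos.mpr hl)
    positivity
  · rw [setIntegral_congr_set (ord_ae hs hb ha hne)]
    refine int_Ioc l hl _ _ ?_
    obtain ⟨x, hx⟩ := hne
    exact (csInf_le hb hx).trans (le_csSup ha hx)

/-- **Second moment, off the diagonal.** -/
lemma osc (x y A l : ℝ) (hx : 0 ≤ x) (hy : 0 ≤ y) (hA : 0 ≤ A) (hl : l ≠ 0) (φ ψ : ℤ → ℂ)
    (hφ : ∀ m, ‖φ m‖ ≤ 1) (hψ : ∀ m, ‖ψ m‖ ≤ 1) :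
    ‖∫ t in Set.Ioc 0 A, φ ⌊t * x⌋ * ψ ⌊t * y⌋ * e (l * t)‖ ≤ (A * x + A * y + 1) / (Real.pi * |l|) := by
  set M : ℕ := (⌊A * x⌋ + ⌊A * y⌋).toNat with hM
  set L : ℕ → Set ℝ := fun n => {t | t ∈ Set.Ioc 0 A ∧ ⌊t * x⌋ + ⌊t * y⌋ = n} with hL
  have hmono : ∀ {t t' : ℝ}, t ≤ t' → ⌊t * x⌋ ≤ ⌊t' * x⌋ ∧ ⌊t * y⌋ ≤ ⌊t' * y⌋ := by
    intro t t' h
    exact ⟨Int.floor_le_floor (mul_le_mul_of_nonneg_right h hx), Int.floor_le_floor (mul_le_mul_of_nonneg_right h hy)⟩
  have hcov : Set.Ioc 0 A = ⋃ n ∈ range (M + 1), L n := by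
    ext t
    simp only [Set.mem_iUnion, hL, Set.mem_ofPred_eq, mem_range, exists_prop]
    constructor
    · intro ht
      have h1 : 0 ≤ ⌊t * x⌋ := Int.floor_nonneg.mpr (mul_nonneg ht.1.le hx)
      have h2 : 0 ≤ ⌊t * y⌋ := Int.floor_nonneg.mpr (mul_nonneg ht.1.le hy)
      have h3 := hmono ht.2
      refine ⟨(⌊t * x⌋ + ⌊t * y⌋).toNat, ?_, ht, ?_⟩
      · omega
      · omega
    · rintro ⟨n, _, ht, _⟩
      exact ht
  have hmeas : ∀ n, MeasurableSet (L n) := by
    intro n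
    have h1 : MeasurableSet {t : ℝ | ⌊t * x⌋ + ⌊t * y⌋ = (n : ℤ)} := by
      have : Measurable fun t : ℝ => ⌊t * x⌋ + ⌊t * y⌋ := by
        exact (Int.measurable_floor.comp (measurable_id.mul_const x)).add (Int.measurable_floor.comp (measurable_id.mul_const y))
      exact this (measurableSet_singleton _)
    exact measurableSet_Ioc.inter h1
  have hg : Measurable fun t : ℝ => φ ⌊t * x⌋ * ψ ⌊t * y⌋ * e (l * t) := by
    have h1 : Measurable fun t : ℝ => φ ⌊t * x⌋ :=
      (measurable_of_countable φ).comp (Int.measurable_floor.comp (measurable_id.mul_const x))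
    have h2 : Measurable fun t : ℝ => ψ ⌊t * y⌋ :=
      (measurable_of_countable ψ).comp (Int.measurable_floor.comp (measurable_id.mul_const y))
    exact (h1.mul h2).mul (e_cont.measurable.comp (measurable_id.const_mul l))
  have hint : ∀ s : Set ℝ, s ⊆ Set.Ioc 0 A → IntegrableOn (fun t : ℝ => φ ⌊t * x⌋ * ψ ⌊t * y⌋ * e (l * t)) s volume := by
    intro s hs
    refine IntegrableOn.mono_set ?_ hs
    refine Measure.integrableOn_of_bounded (M := 1) (by simp) hg.aestronglyMeasurable ?_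
    refine Filter.Eventually.of_forall fun t => ?_
    rw [norm_mul, norm_mul, norm_e, mul_one]
    exact mul_le_one₀ (hφ _) (norm_nonneg _) (hψ _)
  rw [hcov, integral_biUnion_finset _ (fun n _ => hmeas n) ?_ (fun n _ => hint _ fun t ht => ht.1)]
  · refine (norm_sum_le _ _).trans ?_
    have h1 : ∀ n ∈ range (M + 1), ‖∫ t in L n, φ ⌊t * x⌋ * ψ ⌊t * y⌋ * e (l * t)‖ ≤ 1 / (Real.pi * |l|) := by
      intro n _
      have h5 : 0 < Real.pi * |l| := mul_pos Real.pi_pos (abs_pos.mpr hl)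
      rcases (L n).eq_empty_or_nonempty with h | ⟨t0, ht0⟩
      · rw [h]
        simp only [Measure.restrict_empty, integral_zero_measure, norm_zero]
        positivity
      · have hc : ∀ t ∈ L n, ⌊t * x⌋ = ⌊t0 * x⌋ ∧ ⌊t * y⌋ = ⌊t0 * y⌋ := by
          intro t ht
          have e1 := ht.2
          have e2 := ht0.2
          rcases le_total t t0 with h | h
          · have := hmono h
            omega
          · have := hmono h
            omega
        have h2 : ∫ t in L n, φ ⌊t * x⌋ * ψ ⌊t * y⌋ * e (l * t) =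
            φ ⌊t0 * x⌋ * ψ ⌊t0 * y⌋ * ∫ t in L n, e (l * t) := by
          rw [← integral_const_mul]
          refine setIntegral_congr_fun (hmeas n) fun t ht => ?_
          simp only [(hc t ht).1, (hc t ht).2]
        rw [h2, norm_mul, norm_mul]
        have h3 : ‖∫ t in L n, e (l * t)‖ ≤ 1 / (Real.pi * |l|) := by
          refine int_ord l hl ?_ ?_ ?_
          · constructor
            intro a ha b hb t ht
            refine ⟨⟨ha.1.1.trans_le ht.1, ht.2.trans hb.1.2⟩, ?_⟩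
            have e1 := hmono ht.1
            have e2 := hmono ht.2
            have e3 := ha.2
            have e4 := hb.2
            omega
          · exact ⟨0, fun t ht => ht.1.1.le⟩
          · exact ⟨A, fun t ht => ht.1.2⟩
        calc ‖φ ⌊t0 * x⌋‖ * ‖ψ ⌊t0 * y⌋‖ * ‖∫ t in L n, e (l * t)‖ ≤ 1 * 1 * (1 / (Real.pi * |l|)) := by
              gcongr
              · exact hφ _
              · exact hψ _
          _ = _ := by ring
    refine (Finset.sum_le_sum h1).trans ?_
    rw [Finset.sum_const, card_range, nsmul_eq_mul, mul_one_div]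
    have h5 : 0 < Real.pi * |l| := mul_pos Real.pi_pos (abs_pos.mpr hl)
    refine div_le_div_of_nonneg_right ?_ h5.le
    have h6 : ((M : ℕ) : ℝ) ≤ A * x + A * y := by
      have e1 : (0:ℤ) ≤ ⌊A * x⌋ + ⌊A * y⌋ :=
        add_nonneg (Int.floor_nonneg.mpr (mul_nonneg hA hx)) (Int.floor_nonneg.mpr (mul_nonneg hA hy))
      have e2 : ((M : ℕ) : ℤ) = ⌊A * x⌋ + ⌊A * y⌋ := by rw [hM]; omega
      have e3 : ((M : ℕ) : ℝ) = (⌊A * x⌋ : ℝ) + ⌊A * y⌋ := by exact_mod_cast e2
      rw [e3]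
      exact add_le_add (Int.floor_le _) (Int.floor_le _)
    push_cast
    linarith
  · intro n _ m _ hnm
    rw [Function.onFun, Set.disjoint_left]
    rintro t ⟨_, h1⟩ ⟨_, h2⟩
    apply hnm
    have : (n : ℤ) = m := h1.symm.trans h2
    exact_mod_cast this

end Pool.Agent.W2helper62.CD
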