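import Pool.Agent.W2helper62.CD1

/-! Exponential sums over the `k` with prescribed values of a step function: second moment and a.e. bound. -/

set_option autoImplicit false
set_option maxHeartbeats 1000000

namespace Pool.Agent.W2helper62.CD

open Finset MeasureTheory Filter Topology
open scoped ENNReal

lemma harm (N : ℕ) : ∑ i ∈ Icc 1 N, (1 : ℝ) / i ≤ 1 + Real.log N := by
  have h := harmonic_le_one_add_log N
  rw [harmonic_eq_sum_Icc] at h
  push_cast at h
  simpa [one_div] using h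

lemma row (N k : ℕ) (hk : k ∈ Icc 1 N) :
    ∑ k' ∈ (Icc 1 N).filter (fun k' => k' ≠ k), (1 : ℝ) / |(k : ℝ) - k'| ≤ 2 * (1 + Real.log N) := by
  have h0 : (Icc 1 N).filter (fun k' => k' ≠ k) = (Icc 1 N).filter (fun k' => k' < k) ∪ (Icc 1 N).filter (fun k' => k < k') := by
    ext i
    simp only [mem_filter, mem_union]
    constructor
    · rintro ⟨h1, h2⟩
      rcases lt_or_gt_of_ne h2 with h | h
      · exact Or.inl ⟨h1, h⟩
      · exact Or.inr ⟨h1, h⟩
    · rintro (⟨h1, h2⟩ | ⟨h1, h2⟩)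
      · exact ⟨h1, h2.ne⟩
      · exact ⟨h1, h2.ne'⟩
  have hd : Disjoint ((Icc 1 N).filter (fun k' => k' < k)) ((Icc 1 N).filter (fun k' => k < k')) := by
    rw [Finset.disjoint_left]
    intro i hi hj
    have := (mem_filter.1 hi).2
    have := (mem_filter.1 hj).2
    omega
  rw [h0, sum_union hd]
  have hk' := mem_Icc.1 hk
  have a1 : ∑ k' ∈ (Icc 1 N).filter (fun k' => k' < k), (1 : ℝ) / |(k : ℝ) - k'| ≤ ∑ i ∈ Icc 1 N, (1 : ℝ) / i := by
    have e1 : ∑ k' ∈ (Icc 1 N).filter (fun k' => k' < k), (1 : ℝ) / |(k : ℝ) - k'| =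
        ∑ i ∈ ((Icc 1 N).filter (fun k' => k' < k)).image (fun k' => k - k'), (1 : ℝ) / i := by
      rw [sum_image]
      · refine sum_congr rfl fun i hi => ?_
        have := (mem_filter.1 hi).2
        rw [Nat.cast_sub this.le, abs_of_nonneg]
        have : (i : ℝ) ≤ k := by exact_mod_cast this.le
        linarith
      · intro i hi j hj hij
        have h1 := (mem_filter.1 (mem_coe.1 hi)).2
        have h2 := (mem_filter.1 (mem_coe.1 hj)).2
        simp only at hij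
        omega
    rw [e1]
    refine sum_le_sum_of_subset_of_nonneg ?_ fun i _ _ => by positivity
    intro i hi
    obtain ⟨j, hj, rfl⟩ := mem_image.1 hi
    obtain ⟨h1, h2⟩ := mem_filter.1 hj
    rw [mem_Icc] at h1 ⊢
    omega
  have a2 : ∑ k' ∈ (Icc 1 N).filter (fun k' => k < k'), (1 : ℝ) / |(k : ℝ) - k'| ≤ ∑ i ∈ Icc 1 N, (1 : ℝ) / i := by
    have e1 : ∑ k' ∈ (Icc 1 N).filter (fun k' => k < k'), (1 : ℝ) / |(k : ℝ) - k'| =
        ∑ i ∈ ((Icc 1 N).filter (fun k' => k < k')).image (fun k' => k' - k), (1 : ℝ) / i := by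
      rw [sum_image]
      · refine sum_congr rfl fun i hi => ?_
        have := (mem_filter.1 hi).2
        rw [Nat.cast_sub this.le, abs_sub_comm, abs_of_nonneg]
        have : (k : ℝ) ≤ i := by exact_mod_cast this.le
        linarith
      · intro i hi j hj hij
        have h1 := (mem_filter.1 (mem_coe.1 hi)).2
        have h2 := (mem_filter.1 (mem_coe.1 hj)).2
        simp only at hij
        omega
    rw [e1]
    refine sum_le_sum_of_subset_of_nonneg ?_ fun i _ _ => by positivity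
    intro i hi
    obtain ⟨j, hj, rfl⟩ := mem_image.1 hi
    obtain ⟨h1, h2⟩ := mem_filter.1 hj
    rw [mem_Icc] at h1 ⊢
    omega
  have := harm N
  linarith

/-- the exponential sum -/
noncomputable def V (c : ℕ → ℂ) (φ : ℤ → ℂ) (f v : ℕ → ℝ) (j : ℝ) (N : ℕ) (t : ℝ) : ℂ :=
  ∑ k ∈ Icc 1 N, c k * (φ ⌊t * f k⌋ * e (j * v k * t))

/-- the data: `f` is of the size of the spacing of `v` -/
structure Dat (C : ℝ) (f v w : ℕ → ℝ) : Prop where
  f0 : ∀ k, 0 ≤ f k
  w1 : ∀ k, 1 ≤ k → 1 ≤ w k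
  fw : ∀ k k', 1 ≤ k → k ≤ k' → f k ≤ C * w k'
  vw : ∀ k k' : ℕ, 1 ≤ k → k < k' → ((k' : ℝ) - k) * w k' ≤ v k' - v k

lemma V_meas (c : ℕ → ℂ) (φ : ℤ → ℂ) (f v : ℕ → ℝ) (j : ℝ) (N : ℕ) : Measurable (V c φ f v j N) := by
  unfold V
  refine Finset.measurable_fun_sum _ fun k _ => ?_
  refine Measurable.const_mul ?_ _
  refine Measurable.mul ?_ ?_
  · exact (measurable_of_countable φ).comp (Int.measurable_floor.comp (measurable_id.mul_const _))
  · exact e_cont.measurable.comp (measurable_id.const_mul _)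

lemma V_step (c : ℕ → ℂ) (hc : ∀ k, ‖c k‖ ≤ 1) (φ : ℤ → ℂ) (hφ : ∀ m, ‖φ m‖ ≤ 1) (f v : ℕ → ℝ) (j : ℝ) (t : ℝ)
    {M N : ℕ} (h : M ≤ N) : ‖V c φ f v j N t‖ ≤ ‖V c φ f v j M t‖ + (N - M) := by
  have h1 : V c φ f v j N t = V c φ f v j M t + ∑ k ∈ Icc (M + 1) N, c k * (φ ⌊t * f k⌋ * e (j * v k * t)) := by
    unfold V
    rw [← Finset.sum_union]
    · congr 1
      ext i
      simp only [mem_union, mem_Icc]
      omega
    · rw [Finset.disjoint_left]
      intro i hi hi'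
      rw [mem_Icc] at hi hi'
      omega
  rw [h1]
  refine (norm_add_le _ _).trans ?_
  gcongr
  refine (norm_sum_le _ _).trans ?_
  have h2 : ∀ k ∈ Icc (M + 1) N, ‖c k * (φ ⌊t * f k⌋ * e (j * v k * t))‖ ≤ 1 := by
    intro k _
    rw [norm_mul, norm_mul, norm_e, mul_one]
    exact mul_le_one₀ (hc _) (norm_nonneg _) (hφ _)
  refine (Finset.sum_le_sum h2).trans ?_
  rw [Finset.sum_const, Nat.card_Icc, nsmul_eq_mul, mul_one]
  have : N + 1 - (M + 1) = N - M := by omega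
  rw [this, Nat.cast_sub h]

lemma ms {C : ℝ} {f v w : ℕ → ℝ} (hd : Dat C f v w) (hC : 0 ≤ C) (c : ℕ → ℂ) (hc : ∀ k, ‖c k‖ ≤ 1) (φ : ℤ → ℂ)
    (hφ : ∀ m, ‖φ m‖ ≤ 1) (j : ℝ) (hj : 1 ≤ |j|) (A : ℝ) (hA : 0 ≤ A) (N : ℕ) (hN : 1 ≤ N) :
    ∫ t in Set.Ioc 0 A, ‖V c φ f v j N t‖ ^ 2 ≤ (A + 2 * (2 * A * C + 1)) * (N * (1 + Real.log N)) := by
  classical
  have hlog : 0 ≤ Real.log N := Real.log_nonneg (by exact_mod_cast hN)
  set T : ℕ → ℕ → ℝ → ℂ := fun k k' t =>
    (c k * (starRingEnd ℂ) (c k')) * (φ ⌊t * f k⌋ * (starRingEnd ℂ) (φ ⌊t * f k'⌋) * e ((j * (v k - v k')) * t)) with hT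
  have hexp : ∀ t, ((‖V c φ f v j N t‖ ^ 2 : ℝ) : ℂ) = ∑ k ∈ Icc 1 N, ∑ k' ∈ Icc 1 N, T k k' t := by
    intro t
    have h1 : ((‖V c φ f v j N t‖ ^ 2 : ℝ) : ℂ) = V c φ f v j N t * (starRingEnd ℂ) (V c φ f v j N t) := by
      rw [Complex.mul_conj, Complex.normSq_eq_norm_sq]
    rw [h1]
    unfold V
    rw [map_sum, Finset.sum_mul_sum]
    refine Finset.sum_congr rfl fun k _ => Finset.sum_congr rfl fun k' _ => ?_
    simp only [hT, map_mul]
    rw [← e_neg]
    have h2 : (j * (v k - v k')) * t = j * v k * t + -(j * v k' * t) := by ring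
    rw [h2, e_add]
    ring
  have hTm : ∀ k k', Measurable (T k k') := by
    intro k k'
    simp only [hT]
    refine Measurable.const_mul ?_ _
    refine Measurable.mul (Measurable.mul ?_ ?_) ?_
    · exact (measurable_of_countable φ).comp (Int.measurable_floor.comp (measurable_id.mul_const _))
    · exact (measurable_of_countable (fun m => (starRingEnd ℂ) (φ m))).comp (Int.measurable_floor.comp (measurable_id.mul_const _))
    · exact e_cont.measurable.comp (measurable_id.const_mul _)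
  have hTb : ∀ k k' t, ‖T k k' t‖ ≤ 1 := by
    intro k k' t
    simp only [hT]
    rw [norm_mul, norm_mul, norm_mul, norm_mul, norm_e, mul_one, RCLike.norm_conj, RCLike.norm_conj]
    have a1 := mul_le_one₀ (hc k) (norm_nonneg _) (hc k')
    have a2 := mul_le_one₀ (hφ ⌊t * f k⌋) (norm_nonneg _) (hφ ⌊t * f k'⌋)
    exact mul_le_one₀ a1 (by positivity) a2
  have hTi : ∀ k k', IntegrableOn (T k k') (Set.Ioc 0 A) volume := by
    intro k k'
    refine Measure.integrableOn_of_bounded (M := 1) (by simp) (hTm k k').aestronglyMeasurable ?_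
    exact Filter.Eventually.of_forall fun t => hTb k k' t
  have h1 : ((∫ t in Set.Ioc 0 A, ‖V c φ f v j N t‖ ^ 2 : ℝ) : ℂ) =
      ∑ k ∈ Icc 1 N, ∑ k' ∈ Icc 1 N, ∫ t in Set.Ioc 0 A, T k k' t := by
    rw [← integral_complex_ofReal]
    simp only [hexp]
    rw [integral_finsetSum _ fun k _ => integrable_finsetSum _ fun k' _ => hTi k k']
    refine Finset.sum_congr rfl fun k _ => ?_
    rw [integral_finsetSum _ fun k' _ => hTi k k']
  have h0 : 0 ≤ ∫ t in Set.Ioc 0 A, ‖V c φ f v j N t‖ ^ 2 := integral_nonneg fun t => by positivity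
  have h2 : ∫ t in Set.Ioc 0 A, ‖V c φ f v j N t‖ ^ 2 ≤
      ∑ k ∈ Icc 1 N, ∑ k' ∈ Icc 1 N, ‖∫ t in Set.Ioc 0 A, T k k' t‖ := by
    calc ∫ t in Set.Ioc 0 A, ‖V c φ f v j N t‖ ^ 2 = ‖((∫ t in Set.Ioc 0 A, ‖V c φ f v j N t‖ ^ 2 : ℝ) : ℂ)‖ := by
          rw [Complex.norm_real, Real.norm_eq_abs, abs_of_nonneg h0]
      _ ≤ _ := by
          rw [h1]
          refine (norm_sum_le _ _).trans (Finset.sum_le_sum fun k _ => norm_sum_le _ _)
  refine h2.trans ?_
  have hdiag : ∀ k, ‖∫ t in Set.Ioc 0 A, T k k t‖ ≤ A := by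
    intro k
    refine (norm_setIntegral_le_of_norm_le_const (C := 1) (by simp) fun t _ => hTb k k t).trans ?_
    simp [hA]
  have hoff : ∀ k ∈ Icc 1 N, ∀ k' ∈ Icc 1 N, k' ≠ k → ‖∫ t in Set.Ioc 0 A, T k k' t‖ ≤ (2 * A * C + 1) * (1 / |(k : ℝ) - k'|) := by
    intro k hk k' hk' hne
    have hk1 := (mem_Icc.1 hk).1
    have hk1' := (mem_Icc.1 hk').1
    -- the larger of the two
    have key : ∃ W : ℝ, 1 ≤ W ∧ f k ≤ C * W ∧ f k' ≤ C * W ∧ |(k : ℝ) - k'| * W ≤ |v k - v k'| := by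
      rcases lt_or_gt_of_ne hne with h | h
      · refine ⟨w k, hd.w1 k hk1, hd.fw k k hk1 le_rfl, hd.fw k' k hk1' h.le, ?_⟩
        have a1 := hd.vw k' k hk1' h
        have a2 : (k' : ℝ) ≤ k := by exact_mod_cast h.le
        rw [abs_of_nonneg (by linarith)]
        exact a1.trans (le_abs_self _)
      · refine ⟨w k', hd.w1 k' hk1', hd.fw k k' hk1 h.le, hd.fw k' k' hk1' le_rfl, ?_⟩
        have a1 := hd.vw k k' hk1 h
        have a2 : (k : ℝ) ≤ k' := by exact_mod_cast h.le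
        rw [abs_sub_comm, abs_of_nonneg (by linarith), abs_sub_comm]
        exact a1.trans (le_abs_self _)
    obtain ⟨W, hW, f1, f2, hv⟩ := key
    have hdk : 1 ≤ |(k : ℝ) - k'| := by
      have : (1 : ℤ) ≤ |(k : ℤ) - k'| := Int.one_le_abs (by omega)
      have h3 : ((1 : ℤ) : ℝ) ≤ ((|(k : ℤ) - k'| : ℤ) : ℝ) := by exact_mod_cast this
      push_cast at h3
      exact h3
    have hvpos : 0 < |v k - v k'| := by nlinarith
    have hl : j * (v k - v k') ≠ 0 := by
      refine mul_ne_zero ?_ (abs_pos.mp hvpos)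
      intro h
      rw [h, abs_zero] at hj
      linarith
    have h3 : ∫ t in Set.Ioc 0 A, T k k' t = (c k * (starRingEnd ℂ) (c k')) *
        ∫ t in Set.Ioc 0 A, φ ⌊t * f k⌋ * (starRingEnd ℂ) (φ ⌊t * f k'⌋) * e ((j * (v k - v k')) * t) := by
      rw [← integral_const_mul]
    rw [h3, norm_mul]
    have h4 := osc (f k) (f k') A (j * (v k - v k')) (hd.f0 _) (hd.f0 _) hA hl φ (fun m => (starRingEnd ℂ) (φ m)) hφ
      (fun m => by rw [RCLike.norm_conj]; exact hφ m)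
    have h5 : ‖c k * (starRingEnd ℂ) (c k')‖ ≤ 1 := by
      rw [norm_mul, RCLike.norm_conj]
      exact mul_le_one₀ (hc k) (norm_nonneg _) (hc k')
    refine (mul_le_of_le_one_left (norm_nonneg _) h5).trans (h4.trans ?_)
    rw [abs_mul, mul_one_div]
    have h6 : |(k : ℝ) - k'| * W ≤ Real.pi * (|j| * |v k - v k'|) := by
      have a1 : |v k - v k'| ≤ |j| * |v k - v k'| := le_mul_of_one_le_left (abs_nonneg _) hj
      have a2 : |j| * |v k - v k'| ≤ Real.pi * (|j| * |v k - v k'|) :=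
        le_mul_of_one_le_left (by positivity) (by linarith [Real.pi_gt_three])
      linarith
    rw [div_le_div_iff₀ (by positivity) (by positivity)]
    have h7 : A * f k + A * f k' + 1 ≤ (2 * A * C + 1) * W := by
      have a1 : A * f k ≤ A * (C * W) := mul_le_mul_of_nonneg_left f1 hA
      have a2 : A * f k' ≤ A * (C * W) := mul_le_mul_of_nonneg_left f2 hA
      nlinarith
    have h8 : 0 ≤ 2 * A * C + 1 := by positivity
    calc (A * f k + A * f k' + 1) * |(k : ℝ) - k'| ≤ (2 * A * C + 1) * W * |(k : ℝ) - k'| := by gcongr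
      _ = (2 * A * C + 1) * (|(k : ℝ) - k'| * W) := by ring
      _ ≤ _ := by gcongr
  have hrow : ∀ k ∈ Icc 1 N, ∑ k' ∈ Icc 1 N, ‖∫ t in Set.Ioc 0 A, T k k' t‖ ≤
      (A + 2 * (2 * A * C + 1)) * (1 + Real.log N) := by
    intro k hk
    have h3 : ∑ k' ∈ Icc 1 N, ‖∫ t in Set.Ioc 0 A, T k k' t‖ =
        ∑ k' ∈ (Icc 1 N).filter (fun k' => k' ≠ k), ‖∫ t in Set.Ioc 0 A, T k k' t‖ +
        ∑ k' ∈ (Icc 1 N).filter (fun k' => ¬ k' ≠ k), ‖∫ t in Set.Ioc 0 A, T k k' t‖ :=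
      (sum_filter_add_sum_filter_not _ _ _).symm
    have h4 : (Icc 1 N).filter (fun k' => ¬ k' ≠ k) = {k} := by
      ext i
      simp only [mem_filter, not_not, mem_singleton]
      exact ⟨fun h => h.2, fun h => ⟨h ▸ hk, h⟩⟩
    rw [h3, h4, sum_singleton]
    have h5 : ∑ k' ∈ (Icc 1 N).filter (fun k' => k' ≠ k), ‖∫ t in Set.Ioc 0 A, T k k' t‖ ≤
        (2 * A * C + 1) * (2 * (1 + Real.log N)) := by
      calc _ ≤ ∑ k' ∈ (Icc 1 N).filter (fun k' => k' ≠ k), (2 * A * C + 1) * (1 / |(k : ℝ) - k'|) :=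
            sum_le_sum fun k' hk' => hoff k hk k' (mem_filter.1 hk').1 (mem_filter.1 hk').2
        _ = (2 * A * C + 1) * ∑ k' ∈ (Icc 1 N).filter (fun k' => k' ≠ k), (1 / |(k : ℝ) - k'|) := by rw [mul_sum]
        _ ≤ _ := by
            refine mul_le_mul_of_nonneg_left (row N k hk) (by positivity)
    have h6 := hdiag k
    nlinarith
  refine (Finset.sum_le_sum hrow).trans (le_of_eq ?_)
  rw [Finset.sum_const, Nat.card_Icc, nsmul_eq_mul]
  simp only [Nat.add_sub_cancel]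
  ring

end Pool.Agent.W2helper62.CD
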