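import Pool.Agent.W2helper62.CD2

/-! The a.e. bound for the exponential sums. -/

set_option autoImplicit false
set_option maxHeartbeats 1000000

namespace Pool.Agent.W2helper62.CD

open Finset MeasureTheory Filter Topology
open scoped ENNReal

lemma log_pow_rpow (m : ℕ) {s : ℝ} (hs : 0 < s) : Tendsto (fun N : ℕ => (Real.log N) ^ m / (N : ℝ) ^ s) atTop (𝓝 0) := by
  have h := (isLittleO_log_rpow_rpow_atTop (m : ℝ) hs).tendsto_div_nhds_zero
  have h2 := h.comp tendsto_natCast_atTop_atTop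
  refine h2.congr fun N => ?_
  simp [Real.rpow_natCast]

lemma cnt_sq {C : ℝ} {f v w : ℕ → ℝ} (hd : Dat C f v w) (hC : 0 ≤ C) (c : ℕ → ℂ) (hc : ∀ k, ‖c k‖ ≤ 1) (φ : ℤ → ℂ)
    (hφ : ∀ m, ‖φ m‖ ≤ 1) (j : ℝ) (hj : 1 ≤ |j|) (A : ℝ) (hA : 0 ≤ A) :
    ∀ᵐ t ∂(volume.restrict (Set.Ioc 0 A)), ∀ᶠ i : ℕ in atTop, ‖V c φ f v j ((i + 1) ^ 4) t‖ ^ 2 ≤ ((i : ℝ) + 1) ^ 7 := by
  set K : ℝ := A + 2 * (2 * A * C + 1) with hK
  have hK0 : 0 ≤ K := by positivity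
  set a : ℕ → ℝ → ℝ := fun i t => ‖V c φ f v j ((i + 1) ^ 4) t‖ ^ 2 / ((i : ℝ) + 1) ^ 7 with ha
  have ham : ∀ i, Measurable (a i) := fun i => ((V_meas c φ f v j _).norm.pow_const 2).div_const _
  have ha0 : ∀ i t, 0 ≤ a i t := fun i t => by simp only [ha]; positivity
  have hVb : ∀ N t, ‖V c φ f v j N t‖ ≤ N := by
    intro N t
    have := V_step c hc φ hφ f v j t (Nat.zero_le N)
    simpa [V] using this
  have hai : ∀ i, Integrable (a i) (volume.restrict (Set.Ioc 0 A)) := by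
    intro i
    refine Measure.integrableOn_of_bounded (M := ((((i + 1) ^ 4 : ℕ) : ℝ)) ^ 2) (by simp) (ham i).aestronglyMeasurable ?_
    refine Filter.Eventually.of_forall fun t => ?_
    rw [Real.norm_eq_abs, abs_of_nonneg (ha0 i t)]
    have h1 : (1 : ℝ) ≤ ((i : ℝ) + 1) ^ 7 := one_le_pow₀ (by linarith [Nat.cast_nonneg (α := ℝ) i])
    refine (div_le_self (by positivity) h1).trans ?_
    exact pow_le_pow_left₀ (norm_nonneg _) (hVb _ _) 2
  have hI : ∀ i : ℕ, ∫⁻ t in Set.Ioc 0 A, ENNReal.ofReal (a i t) ≤ ENNReal.ofReal (4 * K * (1 / ((i : ℝ) + 1) ^ 2)) := by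
    intro i
    rw [← ofReal_integral_eq_lintegral_ofReal (hai i) (Filter.Eventually.of_forall (ha0 i))]
    refine ENNReal.ofReal_le_ofReal ?_
    simp only [ha]
    rw [integral_div]
    have h1 := ms hd hC c hc φ hφ j hj A hA ((i + 1) ^ 4) (Nat.one_le_pow _ _ (by omega))
    have hi1 : (1 : ℝ) ≤ (i : ℝ) + 1 := by linarith [Nat.cast_nonneg (α := ℝ) i]
    have hlog : Real.log ((i : ℝ) + 1) ≤ (i : ℝ) := by
      have := Real.log_le_sub_one_of_pos (show (0:ℝ) < (i : ℝ) + 1 by linarith)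
      linarith
    have h2 : ((((i + 1) ^ 4 : ℕ) : ℝ)) = ((i : ℝ) + 1) ^ 4 := by push_cast; ring
    rw [h2, Real.log_pow] at h1
    push_cast at h1
    rw [div_le_iff₀ (by positivity)]
    refine h1.trans ?_
    have h3 : 1 + 4 * Real.log ((i : ℝ) + 1) ≤ 4 * ((i : ℝ) + 1) := by linarith
    have h4 : ((i : ℝ) + 1) ^ 4 * (1 + 4 * Real.log ((i : ℝ) + 1)) ≤ ((i : ℝ) + 1) ^ 4 * (4 * ((i : ℝ) + 1)) :=
      mul_le_mul_of_nonneg_left h3 (by positivity)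
    calc K * (((i : ℝ) + 1) ^ 4 * (1 + 4 * Real.log ((i : ℝ) + 1))) ≤ K * (((i : ℝ) + 1) ^ 4 * (4 * ((i : ℝ) + 1))) :=
          mul_le_mul_of_nonneg_left h4 hK0
      _ = 4 * K * (1 / ((i : ℝ) + 1) ^ 2) * ((i : ℝ) + 1) ^ 7 := by
          field_simp
  have hsum : Summable fun i : ℕ => 4 * K * (1 / ((i : ℝ) + 1) ^ 2) := by
    refine Summable.mul_left _ ?_
    have h1 : Summable fun n : ℕ => 1 / ((n : ℝ)) ^ 2 := Real.summable_one_div_nat_pow.mpr (by norm_num)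
    have h2 := (summable_nat_add_iff 1).mpr h1
    simpa using h2
  have htot : ∫⁻ t in Set.Ioc 0 A, ∑' i, ENNReal.ofReal (a i t) ≠ ∞ := by
    rw [lintegral_tsum fun i => (ham i).ennreal_ofReal.aemeasurable]
    refine ne_top_of_le_ne_top ?_ (ENNReal.tsum_le_tsum hI)
    exact hsum.tsum_ofReal_ne_top
  have hae := ae_lt_top (Measurable.tsum fun i => (ham i).ennreal_ofReal) htot
  filter_upwards [hae] with t ht
  have h1 := ENNReal.tendsto_atTop_zero_of_tsum_ne_top ht.ne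
  have h2 : ∀ᶠ i in atTop, ENNReal.ofReal (a i t) < 1 := h1.eventually (gt_mem_nhds one_pos)
  filter_upwards [h2] with i hi
  have h3 : a i t < 1 := by
    rwa [← ENNReal.ofReal_one, ENNReal.ofReal_lt_ofReal_iff one_pos] at hi
  simp only [ha] at h3
  rw [div_lt_one (by positivity)] at h3
  exact h3.le

lemma ae_V {C : ℝ} {f v w : ℕ → ℝ} (hd : Dat C f v w) (hC : 0 ≤ C) (c : ℕ → ℂ) (hc : ∀ k, ‖c k‖ ≤ 1) (φ : ℤ → ℂ)
    (hφ : ∀ m, ‖φ m‖ ≤ 1) (j : ℝ) (hj : 1 ≤ |j|) :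
    ∀ᵐ t : ℝ, 0 < t → ∀ m : ℕ, Tendsto (fun N : ℕ => (Real.log N) ^ m / N * ‖V c φ f v j N t‖) atTop (𝓝 0) := by
  have h0 : ∀ A : ℕ, ∀ᵐ t ∂(volume.restrict (Set.Ioc (0:ℝ) A)), ∀ m : ℕ,
      Tendsto (fun N : ℕ => (Real.log N) ^ m / N * ‖V c φ f v j N t‖) atTop (𝓝 0) := by
    intro A
    filter_upwards [cnt_sq hd hC c hc φ hφ j hj A (Nat.cast_nonneg A)] with t ht m
    obtain ⟨i0, hi0⟩ := eventually_atTop.mp ht
    -- the square of the quantity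
    have hsq : Tendsto (fun N : ℕ => ((Real.log N) ^ m / N * ‖V c φ f v j N t‖) ^ 2) atTop (𝓝 0) := by
      have h1 := (log_pow_rpow (2 * m) (show (0:ℝ) < 1 / 4 by norm_num)).const_mul 904
      rw [mul_zero] at h1
      refine squeeze_zero' (Filter.Eventually.of_forall fun N => by positivity) ?_ h1
      filter_upwards [eventually_ge_atTop ((i0 + 2) ^ 4)] with N hN
      set r : ℕ := Nat.sqrt (Nat.sqrt N) with hr
      have e1 : r * r ≤ Nat.sqrt N := Nat.sqrt_le _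
      have e2 : Nat.sqrt N < (r + 1) * (r + 1) := Nat.lt_succ_sqrt _
      have e3 : Nat.sqrt N * Nat.sqrt N ≤ N := Nat.sqrt_le _
      have e4 : N < (Nat.sqrt N + 1) * (Nat.sqrt N + 1) := Nat.lt_succ_sqrt _
      have f1 : r ^ 4 ≤ N := by
        calc r ^ 4 = (r * r) * (r * r) := by ring
          _ ≤ Nat.sqrt N * Nat.sqrt N := Nat.mul_le_mul e1 e1
          _ ≤ N := e3
      have f2 : N < (r + 1) ^ 4 := by
        calc N < (Nat.sqrt N + 1) * (Nat.sqrt N + 1) := e4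
          _ ≤ ((r + 1) * (r + 1)) * ((r + 1) * (r + 1)) := Nat.mul_le_mul e2 e2
          _ = (r + 1) ^ 4 := by ring
      have f3 : i0 + 2 ≤ r := by
        by_contra h
        push Not at h
        have : (r + 1) ^ 4 ≤ (i0 + 2) ^ 4 := Nat.pow_le_pow_left (by omega) 4
        omega
      have hV1 : ‖V c φ f v j (r ^ 4) t‖ ^ 2 ≤ (r : ℝ) ^ 7 := by
        have := hi0 (r - 1) (by omega)
        have h5 : r - 1 + 1 = r := by omega
        rw [h5] at this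
        have h6 : (((r - 1 : ℕ) : ℝ) + 1) = r := by
          rw [Nat.cast_sub (by omega)]
          push_cast
          ring
        rwa [h6] at this
      have hV2 := V_step c hc φ hφ f v j t f1
      have hr1 : (1 : ℝ) ≤ r := by exact_mod_cast (by omega : 1 ≤ r)
      have hgap : (N : ℝ) - ((r ^ 4 : ℕ) : ℝ) ≤ 15 * (r : ℝ) ^ 3 := by
        have h5 : (N : ℝ) ≤ ((r : ℝ) + 1) ^ 4 := by exact_mod_cast f2.le
        push_cast
        have h6 : ((r : ℝ) + 1) ^ 4 - (r : ℝ) ^ 4 ≤ 15 * (r : ℝ) ^ 3 := by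
          have h7 : (r : ℝ) ≤ (r : ℝ) ^ 3 := by nlinarith [sq_nonneg ((r : ℝ) - 1)]
          have h8 : (r : ℝ) ^ 2 ≤ (r : ℝ) ^ 3 := by nlinarith [sq_nonneg ((r : ℝ) - 1)]
          have h9 : (1 : ℝ) ≤ (r : ℝ) ^ 3 := one_le_pow₀ hr1
          nlinarith
        linarith
      have hgap0 : 0 ≤ (N : ℝ) - ((r ^ 4 : ℕ) : ℝ) := by
        have : ((r ^ 4 : ℕ) : ℝ) ≤ N := by exact_mod_cast f1
        linarith
      have hV3 : ‖V c φ f v j N t‖ ^ 2 ≤ 452 * (r : ℝ) ^ 7 := by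
        have h5 : ‖V c φ f v j N t‖ ^ 2 ≤ (‖V c φ f v j (r ^ 4) t‖ + 15 * (r : ℝ) ^ 3) ^ 2 :=
          pow_le_pow_left₀ (norm_nonneg _) (by linarith) 2
        have h6 : (‖V c φ f v j (r ^ 4) t‖ + 15 * (r : ℝ) ^ 3) ^ 2 ≤ 2 * ‖V c φ f v j (r ^ 4) t‖ ^ 2 + 2 * (15 * (r : ℝ) ^ 3) ^ 2 := by
          nlinarith [sq_nonneg (‖V c φ f v j (r ^ 4) t‖ - 15 * (r : ℝ) ^ 3)]
        have h7 : (r : ℝ) ^ 6 ≤ (r : ℝ) ^ 7 := pow_le_pow_right₀ hr1 (by norm_num)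
        nlinarith
      have hNpos : (0 : ℝ) < N := by
        have : 0 < N := lt_of_lt_of_le (by positivity) hN
        exact_mod_cast this
      have hq : (N : ℝ) ^ ((1:ℝ) / 4) ≤ 2 * r := by
        have h5 : (N : ℝ) ≤ (2 * (r : ℝ)) ^ 4 := by
          have h6 : (N : ℝ) ≤ ((r : ℝ) + 1) ^ 4 := by exact_mod_cast f2.le
          refine h6.trans (pow_le_pow_left₀ (by positivity) (by linarith) 4)
        calc (N : ℝ) ^ ((1:ℝ) / 4) ≤ ((2 * (r : ℝ)) ^ 4) ^ ((1:ℝ) / 4) := Real.rpow_le_rpow hNpos.le h5 (by norm_num)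
          _ = 2 * r := by
              rw [← Real.rpow_natCast, ← Real.rpow_mul (by positivity)]
              norm_num
      have hN2 : (r : ℝ) ^ 8 ≤ (N : ℝ) ^ 2 := by
        have h5 : (r : ℝ) ^ 4 ≤ N := by exact_mod_cast f1
        calc (r : ℝ) ^ 8 = ((r : ℝ) ^ 4) ^ 2 := by ring
          _ ≤ _ := pow_le_pow_left₀ (by positivity) h5 2
      have hlog : 0 ≤ (Real.log N) ^ (2 * m) := by
        rw [pow_mul]
        positivity
      have hfin : ‖V c φ f v j N t‖ ^ 2 / (N : ℝ) ^ 2 ≤ 904 / (N : ℝ) ^ ((1:ℝ) / 4) := by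
        have hp : 0 < (N : ℝ) ^ ((1:ℝ) / 4) := Real.rpow_pos_of_pos hNpos _
        rw [div_le_div_iff₀ (by positivity) hp]
        calc ‖V c φ f v j N t‖ ^ 2 * (N : ℝ) ^ ((1:ℝ) / 4) ≤ (452 * (r : ℝ) ^ 7) * (2 * r) := by
              gcongr
          _ = 904 * (r : ℝ) ^ 8 := by ring
          _ ≤ 904 * (N : ℝ) ^ 2 := by gcongr
      calc ((Real.log N) ^ m / N * ‖V c φ f v j N t‖) ^ 2 = (Real.log N) ^ (2 * m) * (‖V c φ f v j N t‖ ^ 2 / (N : ℝ) ^ 2) := by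
            rw [mul_pow, div_pow, ← pow_mul, mul_comm m 2]
            ring
        _ ≤ (Real.log N) ^ (2 * m) * (904 / (N : ℝ) ^ ((1:ℝ) / 4)) := mul_le_mul_of_nonneg_left hfin hlog
        _ = _ := by ring
    have h2 := hsq.sqrt
    rw [Real.sqrt_zero] at h2
    refine h2.congr' ?_
    filter_upwards [eventually_ge_atTop 1] with N hN
    rw [Real.sqrt_sq]
    have : 0 ≤ Real.log N := Real.log_nonneg (by exact_mod_cast hN)
    positivity
  have h1 : ∀ᵐ t : ℝ, ∀ A : ℕ, t ∈ Set.Ioc (0:ℝ) A → ∀ m : ℕ,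
      Tendsto (fun N : ℕ => (Real.log N) ^ m / N * ‖V c φ f v j N t‖) atTop (𝓝 0) := by
    rw [ae_all_iff]
    intro A
    exact (ae_restrict_iff' measurableSet_Ioc).mp (h0 A)
  filter_upwards [h1] with t ht hpos
  obtain ⟨A, hA⟩ := exists_nat_ge t
  exact ht A ⟨hpos, hA⟩

end Pool.Agent.W2helper62.CD
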