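import Pool.Agent.W2helper62.CD1

/-! From exponential sums to fractional parts (weighted). -/

set_option autoImplicit false
set_option maxHeartbeats 1000000

namespace Pool.Agent.W2helper62.CD

open Finset Filter Topology

/-- the second periodic Bernoulli function -/
noncomputable def b2 (t : ℝ) : ℝ := Int.fract t ^ 2 - Int.fract t + 1 / 6

lemma b2_hasSum (t : ℝ) : HasSum (fun n : ℕ => 1 / Real.pi ^ 2 * (1 / (n : ℝ) ^ 2 * Real.cos (2 * Real.pi * n * t))) (b2 t) := by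
  have h := hasSum_one_div_nat_pow_mul_cos (k := 1) one_ne_zero (x := Int.fract t)
    ⟨Int.fract_nonneg t, (Int.fract_lt_one t).le⟩
  have hb : (Polynomial.map (algebraMap ℚ ℝ) (Polynomial.bernoulli (2 * 1))).eval (Int.fract t) = b2 t := by
    unfold b2
    rw [mul_one, Polynomial.bernoulli_def]
    simp only [Finset.sum_range_succ, Finset.sum_range_zero, Nat.sub_self, Polynomial.map_add, Polynomial.map_monomial,
      Polynomial.eval_add, Polynomial.eval_monomial, Nat.sub_zero, zero_add, bernoulli_zero, bernoulli_two,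
      Nat.choose_zero_right, Nat.choose_one_right, Nat.choose_self]
    norm_num
    ring
  rw [hb] at h
  have h2 := h.mul_left (1 / Real.pi ^ 2)
  have hpi : Real.pi ≠ 0 := Real.pi_ne_zero
  have e1 : 1 / Real.pi ^ 2 * ((-1 : ℝ) ^ (1 + 1) * (2 * Real.pi) ^ (2 * 1) / 2 / ((2 * 1).factorial : ℝ) * b2 t) = b2 t := by
    have : ((2 * 1).factorial : ℝ) = 2 := by norm_num [Nat.factorial]
    rw [this]
    field_simp
    ring
  rw [e1] at h2
  convert! h2 using 4 with n
  have h3 : 2 * Real.pi * n * t = 2 * Real.pi * n * Int.fract t + ((n : ℤ) * ⌊t⌋ : ℤ) * (2 * Real.pi) := by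
    have := Int.fract_add_floor t
    push_cast
    linear_combination (-(2 * Real.pi * n)) * this
  rw [h3, Real.cos_add_int_mul_two_pi]

lemma b2_up (t δ : ℝ) (h0 : 0 < δ) (h1 : δ < 1) : b2 (t + δ) - b2 t ≤ 2 * δ * (Int.fract t - 1 / 2) + δ ^ 2 := by
  unfold b2
  have a1 := Int.fract_nonneg t
  have a2 := Int.fract_lt_one t
  rcases lt_or_ge (Int.fract t + δ) 1 with h | h
  · have e : Int.fract (t + δ) = Int.fract t + δ := by
      rw [Int.fract_eq_iff]
      refine ⟨by linarith, h, ⌊t⌋, ?_⟩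
      have := Int.fract_add_floor t
      linarith
    rw [e]
    nlinarith
  · have e : Int.fract (t + δ) = Int.fract t + δ - 1 := by
      rw [Int.fract_eq_iff]
      refine ⟨by linarith, by linarith, ⌊t⌋ + 1, ?_⟩
      have := Int.fract_add_floor t
      push_cast
      linarith
    rw [e]
    nlinarith

lemma b2_down (t δ : ℝ) (h0 : 0 < δ) (h1 : δ < 1) : 2 * δ * (Int.fract t - 1 / 2) - δ ^ 2 ≤ b2 t - b2 (t - δ) := by
  unfold b2
  have a1 := Int.fract_nonneg t
  have a2 := Int.fract_lt_one t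
  rcases le_or_gt δ (Int.fract t) with h | h
  · have e : Int.fract (t - δ) = Int.fract t - δ := by
      rw [Int.fract_eq_iff]
      refine ⟨by linarith, by linarith, ⌊t⌋, ?_⟩
      have := Int.fract_add_floor t
      linarith
    rw [e]
    nlinarith
  · have e : Int.fract (t - δ) = Int.fract t - δ + 1 := by
      rw [Int.fract_eq_iff]
      refine ⟨by linarith, by linarith, ⌊t⌋ - 1, ?_⟩
      have := Int.fract_add_floor t
      push_cast
      linarith
    rw [e]
    nlinarith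

/-- the averages of `b2` tend to zero -/
lemma phi (ρ : ℕ → ℝ) (hρ : ∀ N, 0 ≤ ρ N) (g x : ℕ → ℝ) (hg : ∀ k, 0 ≤ g k) (M : ℝ)
    (hM : ∀ᶠ N : ℕ in atTop, ρ N * ∑ k ∈ Icc 1 N, g k ≤ M)
    (hV : ∀ j : ℕ, 1 ≤ j → Tendsto (fun N => ρ N * ‖∑ k ∈ Icc 1 N, (g k : ℂ) * e (j * x k)‖) atTop (𝓝 0)) (s : ℝ) :
    Tendsto (fun N => ρ N * ∑ k ∈ Icc 1 N, g k * b2 (x k + s)) atTop (𝓝 0) := by
  set F : ℕ → ℕ → ℝ := fun N n => 1 / Real.pi ^ 2 * (1 / (n : ℝ) ^ 2) *
    (ρ N * ∑ k ∈ Icc 1 N, g k * Real.cos (2 * Real.pi * n * (x k + s))) with hF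
  have hsum : ∀ N, ρ N * ∑ k ∈ Icc 1 N, g k * b2 (x k + s) = ∑' n, F N n := by
    intro N
    have h1 : HasSum (fun n : ℕ => ∑ k ∈ Icc 1 N, g k * (1 / Real.pi ^ 2 * (1 / (n : ℝ) ^ 2 * Real.cos (2 * Real.pi * n * (x k + s)))))
        (∑ k ∈ Icc 1 N, g k * b2 (x k + s)) := hasSum_sum fun k _ => (b2_hasSum (x k + s)).mul_left (g k)
    have h2 := (h1.mul_left (ρ N)).tsum_eq
    rw [← h2]
    refine tsum_congr fun n => ?_
    simp only [hF]
    rw [mul_sum, mul_sum, mul_sum]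
    refine sum_congr rfl fun k _ => ?_
    ring
  have hz : Tendsto (fun N => ∑' n, F N n) atTop (𝓝 (∑' _ : ℕ, (0 : ℝ))) := by
    refine tendsto_tsum_of_dominated_convergence (bound := fun n : ℕ => 1 / Real.pi ^ 2 * (1 / (n : ℝ) ^ 2) * M) ?_ ?_ ?_
    · exact ((Real.summable_one_div_nat_pow.mpr (by norm_num)).mul_left _).mul_right _
    · intro n
      rcases Nat.eq_zero_or_pos n with h | h
      · simp only [hF, h]
        simp
      · have h1 := (hV n h).const_mul (1 / Real.pi ^ 2 * (1 / (n : ℝ) ^ 2))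
        rw [mul_zero] at h1
        refine squeeze_zero_norm (fun N => ?_) h1
        simp only [hF]
        rw [Real.norm_eq_abs, abs_mul, abs_of_nonneg (show 0 ≤ 1 / Real.pi ^ 2 * (1 / (n : ℝ) ^ 2) by positivity), abs_mul,
          abs_of_nonneg (hρ N)]
        refine mul_le_mul_of_nonneg_left (mul_le_mul_of_nonneg_left ?_ (hρ N)) (by positivity)
        have h2 : ∑ k ∈ Icc 1 N, g k * Real.cos (2 * Real.pi * n * (x k + s)) =
            (e (n * s) * ∑ k ∈ Icc 1 N, (g k : ℂ) * e (n * x k)).re := by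
          rw [mul_sum, Complex.re_sum]
          refine sum_congr rfl fun k _ => ?_
          have h3 : e (n * s) * ((g k : ℂ) * e (n * x k)) = (g k : ℂ) * e (n * (x k + s)) := by
            rw [mul_add, e_add]
            ring
          rw [h3, Complex.re_ofReal_mul]
          congr 1
          unfold e
          have h4 : (2 * Real.pi * ((n * (x k + s) : ℝ) : ℂ) * Complex.I : ℂ) = ((2 * Real.pi * n * (x k + s) : ℝ) : ℂ) * Complex.I := by
            push_cast
            ring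
          rw [h4, Complex.exp_ofReal_mul_I_re]
        rw [h2]
        refine (Complex.abs_re_le_norm _).trans ?_
        rw [norm_mul, norm_e, one_mul]
    · filter_upwards [hM] with N hN n
      simp only [hF]
      rw [Real.norm_eq_abs, abs_mul, abs_of_nonneg (show 0 ≤ 1 / Real.pi ^ 2 * (1 / (n : ℝ) ^ 2) by positivity)]
      refine mul_le_mul_of_nonneg_left ?_ (by positivity)
      rw [abs_mul, abs_of_nonneg (hρ N)]
      refine le_trans (mul_le_mul_of_nonneg_left ?_ (hρ N)) hN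
      refine (abs_sum_le_sum_abs _ _).trans (sum_le_sum fun k _ => ?_)
      rw [abs_mul, abs_of_nonneg (hg k)]
      exact mul_le_of_le_one_right (hg k) (Real.abs_cos_le_one _)
  rw [tsum_zero] at hz
  exact hz.congr fun N => (hsum N).symm

/-- the averages of the fractional parts -/
lemma saw (ρ : ℕ → ℝ) (hρ : ∀ N, 0 ≤ ρ N) (g x : ℕ → ℝ) (hg : ∀ k, 0 ≤ g k) (M : ℝ)
    (hM : ∀ᶠ N : ℕ in atTop, ρ N * ∑ k ∈ Icc 1 N, g k ≤ M)
    (hV : ∀ j : ℕ, 1 ≤ j → Tendsto (fun N => ρ N * ‖∑ k ∈ Icc 1 N, (g k : ℂ) * e (j * x k)‖) atTop (𝓝 0)) (β : ℝ) :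
    Tendsto (fun N => ρ N * ∑ k ∈ Icc 1 N, g k * (Int.fract (x k + β) - 1 / 2)) atTop (𝓝 0) := by
  have hM0 : 0 ≤ M := by
    obtain ⟨N, hN⟩ := hM.exists
    exact (mul_nonneg (hρ N) (sum_nonneg fun k _ => hg k)).trans hN
  rw [Metric.tendsto_atTop]
  intro ε hε
  set δ : ℝ := min (1 / 2) (ε / (2 * (M + 1))) with hδ
  have hδ0 : 0 < δ := lt_min (by norm_num) (by positivity)
  have hδ1 : δ < 1 := (min_le_left _ _).trans_lt (by norm_num)
  have hδM : δ * M < ε / 2 := by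
    have h1 : δ ≤ ε / (2 * (M + 1)) := min_le_right _ _
    have h2 : δ * M ≤ ε / (2 * (M + 1)) * M := mul_le_mul_of_nonneg_right h1 hM0
    have h3 : ε / (2 * (M + 1)) * M < ε / 2 := by
      rw [div_mul_eq_mul_div, div_lt_div_iff₀ (by positivity) (by norm_num)]
      nlinarith
    linarith
  have p1 := phi ρ hρ g x hg M hM hV β
  have p2 := phi ρ hρ g x hg M hM hV (β + δ)
  have p3 := phi ρ hρ g x hg M hM hV (β - δ)
  have hη : 0 < δ * ε / 2 := by positivity
  have q1 := (Metric.tendsto_atTop.1 p1) _ hη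
  have q2 := (Metric.tendsto_atTop.1 p2) _ hη
  have q3 := (Metric.tendsto_atTop.1 p3) _ hη
  obtain ⟨N1, h1⟩ := q1
  obtain ⟨N2, h2⟩ := q2
  obtain ⟨N3, h3⟩ := q3
  obtain ⟨N4, h4⟩ := eventually_atTop.1 hM
  refine ⟨max (max N1 N2) (max N3 N4), fun N hN => ?_⟩
  have g1 := h1 N (le_trans (le_trans (le_max_left _ _) (le_max_left _ _)) hN)
  have g2 := h2 N (le_trans (le_trans (le_max_right _ _) (le_max_left _ _)) hN)
  have g3 := h3 N (le_trans (le_trans (le_max_left _ _) (le_max_right _ _)) hN)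
  have g4 := h4 N (le_trans (le_trans (le_max_right _ _) (le_max_right _ _)) hN)
  rw [Real.dist_eq, sub_zero] at g1 g2 g3 ⊢
  rw [abs_lt] at g1 g2 g3 ⊢
  have u1 : (∑ k ∈ Icc 1 N, g k * b2 (x k + (β + δ))) - (∑ k ∈ Icc 1 N, g k * b2 (x k + β)) ≤
      2 * δ * (∑ k ∈ Icc 1 N, g k * (Int.fract (x k + β) - 1 / 2)) + δ ^ 2 * ∑ k ∈ Icc 1 N, g k := by
    rw [← sum_sub_distrib, mul_sum, mul_sum, ← sum_add_distrib]
    refine sum_le_sum fun k _ => ?_
    have := b2_up (x k + β) δ hδ0 hδ1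
    have h5 := mul_le_mul_of_nonneg_left this (hg k)
    have h6 : x k + (β + δ) = x k + β + δ := by ring
    rw [h6]
    linarith
  have u2 : 2 * δ * (∑ k ∈ Icc 1 N, g k * (Int.fract (x k + β) - 1 / 2)) - δ ^ 2 * ∑ k ∈ Icc 1 N, g k ≤
      (∑ k ∈ Icc 1 N, g k * b2 (x k + β)) - (∑ k ∈ Icc 1 N, g k * b2 (x k + (β - δ))) := by
    rw [← sum_sub_distrib, mul_sum, mul_sum, ← sum_sub_distrib]
    refine sum_le_sum fun k _ => ?_
    have := b2_down (x k + β) δ hδ0 hδ1
    have h5 := mul_le_mul_of_nonneg_left this (hg k)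
    have h6 : x k + (β - δ) = x k + β - δ := by ring
    rw [h6]
    linarith
  have v1 := mul_le_mul_of_nonneg_left u1 (hρ N)
  have v2 := mul_le_mul_of_nonneg_left u2 (hρ N)
  set S1 := ρ N * ∑ k ∈ Icc 1 N, g k * b2 (x k + β)
  set S2 := ρ N * ∑ k ∈ Icc 1 N, g k * b2 (x k + (β + δ))
  set S3 := ρ N * ∑ k ∈ Icc 1 N, g k * b2 (x k + (β - δ))
  set S := ρ N * ∑ k ∈ Icc 1 N, g k * (Int.fract (x k + β) - 1 / 2) with hS
  set Q := ρ N * ∑ k ∈ Icc 1 N, g k
  have v1' : S2 - S1 ≤ 2 * δ * S + δ ^ 2 * Q := by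
    simp only [S1, S2, S, Q]
    linarith
  have v2' : 2 * δ * S - δ ^ 2 * Q ≤ S1 - S3 := by
    simp only [S1, S3, S, Q]
    linarith
  have hQ : δ ^ 2 * Q ≤ δ * (ε / 2) := by
    have : δ ^ 2 * Q ≤ δ ^ 2 * M := mul_le_mul_of_nonneg_left g4 (by positivity)
    nlinarith
  constructor
  · by_contra hc
    push Not at hc
    have : 2 * δ * S ≤ 2 * δ * (-ε) := mul_le_mul_of_nonneg_left hc (by positivity)
    nlinarith
  · by_contra hc
    push Not at hc
    have : 2 * δ * ε ≤ 2 * δ * S := mul_le_mul_of_nonneg_left hc (by positivity)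
    nlinarith

end Pool.Agent.W2helper62.CD
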