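import Pool.Agent.W2helper62.CD3
import Pool.Agent.W2helper62.CD4
import Pool.Agent.N798.S2.All
import Pool.Agent.N798.S.Fi

/-! The main term: averages over shifts. -/

set_option autoImplicit false
set_option maxHeartbeats 1000000

namespace Pool.Agent.W2helper62.CD

open Finset MeasureTheory Filter Topology Polynomial

/-- the indicator of the primes on the integers -/
noncomputable def P (m : ℤ) : ℝ := if m.toNat.Prime then 1 else 0

/-- the indicator of the arguments -/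
noncomputable def I (pr : Bool) (k : ℕ) : ℝ := if (pr = true → k.Prime) then 1 else 0

lemma P0 (m : ℤ) : 0 ≤ P m := by unfold P; split_ifs <;> norm_num
lemma P1 (m : ℤ) : P m ≤ 1 := by unfold P; split_ifs <;> norm_num
lemma I0 (pr : Bool) (k : ℕ) : 0 ≤ I pr k := by unfold I; split_ifs <;> norm_num
lemma I1 (pr : Bool) (k : ℕ) : I pr k ≤ 1 := by unfold I; split_ifs <;> norm_num

/-- the count -/
noncomputable def Xc (pr : Bool) (y : ℕ → ℝ) (b : ℤ) (N : ℕ) : ℝ := ∑ k ∈ Icc 1 N, I pr k * P (⌊y k⌋ + b)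

/-- the normalising factor -/
noncomputable def rho (pr : Bool) (N : ℕ) : ℝ := (Real.log N) ^ (1 + pr.toNat) / N

lemma rho0 (pr : Bool) (N : ℕ) : 0 ≤ rho pr N := by
  unfold rho
  rcases Nat.eq_zero_or_pos N with h | h
  · simp [h]
  · have : 0 ≤ Real.log N := Real.log_nonneg (by exact_mod_cast h)
    positivity

lemma X0 (pr : Bool) (y : ℕ → ℝ) (b : ℤ) (N : ℕ) : 0 ≤ Xc pr y b N :=
  sum_nonneg fun _ _ => mul_nonneg (I0 _ _) (P0 _)

lemma X_eq (pr : Bool) (y : ℕ → ℝ) (b : ℤ) (N : ℕ) :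
    Xc pr y b N = (#((Icc 1 N).filter fun k : ℕ => (pr = true → k.Prime) ∧ (⌊y k⌋ + b).toNat.Prime) : ℝ) := by
  unfold Xc I P
  rw [Finset.card_filter]
  push_cast
  refine sum_congr rfl fun k _ => ?_
  by_cases h1 : (pr = true → k.Prime)
  · by_cases h2 : (⌊y k⌋ + b).toNat.Prime
    · rw [if_pos h1, if_pos h2, if_pos (show _ ∧ _ from ⟨h1, h2⟩)]; norm_num
    · rw [if_neg h2, if_neg (show ¬ ((pr = true → k.Prime) ∧ (⌊y k⌋ + b).toNat.Prime) from fun h => h2 h.2)]; norm_num
  · rw [if_neg h1, if_neg (show ¬ ((pr = true → k.Prime) ∧ (⌊y k⌋ + b).toNat.Prime) from fun h => h1 h.1)]; norm_num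

/-- the differences of the values of `x^(d+1)` at distance `h` -/
noncomputable def f (d h : ℕ) (k : ℕ) : ℝ := ((k : ℝ) + h) ^ (d + 1) - (k : ℝ) ^ (d + 1)

/-- the polynomial with these values -/
noncomputable def Q (d h : ℕ) (c : ℝ) : ℝ[X] := (X + C (h : ℝ)) ^ (d + 1) - X ^ (d + 1) + C c

lemma Q_eval (d h : ℕ) (c : ℝ) (k : ℕ) : (Q d h c).eval (k : ℝ) = f d h k + c := by
  unfold Q f
  simp

lemma Q_coeff (d h : ℕ) (hd : 1 ≤ d) (c : ℝ) : (Q d h c).coeff d = (h : ℝ) * (d + 1) := by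
  unfold Q
  rw [coeff_add, coeff_sub, coeff_X_add_C_pow, coeff_X_pow, coeff_C]
  have h1 : d + 1 - d = 1 := by omega
  rw [h1, if_neg (by omega), if_neg (by omega), Nat.choose_succ_self_right]
  push_cast
  ring

lemma Q_deg (d h : ℕ) (hd : 1 ≤ d) (hh : 1 ≤ h) (c : ℝ) : (Q d h c).natDegree = d := by
  refine natDegree_eq_of_le_of_coeff_ne_zero ?_ ?_
  · rw [natDegree_le_iff_coeff_eq_zero]
    intro n hn
    unfold Q
    rw [coeff_add, coeff_sub, coeff_X_add_C_pow, coeff_X_pow, coeff_C, if_neg (show ¬ n = 0 by omega)]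
    rcases eq_or_ne n (d + 1) with h1 | h1
    · rw [h1]
      simp
    · rw [if_neg h1, Nat.choose_eq_zero_of_lt (by omega)]
      simp
  · rw [Q_coeff d h hd c]
    have : (0 : ℝ) < h := by exact_mod_cast hh
    positivity

lemma Q_lead (d h : ℕ) (hd : 1 ≤ d) (hh : 1 ≤ h) (c : ℝ) : 0 < (Q d h c).leadingCoeff := by
  rw [leadingCoeff, Q_deg d h hd hh, Q_coeff d h hd]
  have : (0 : ℝ) < h := by exact_mod_cast hh
  positivity

/-- the limit relation at the multiplier `α` for the values `y` -/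
def Lim (d : ℕ) (y : ℕ → ℝ) : Prop :=
  ∀ (b : ℤ) (pr : Bool), Tendsto (fun N => rho pr N * Xc pr y b N) atTop (𝓝 (1 / (d : ℝ)))

/-- the engine: fixed shifts inside -/
lemma one (d h : ℕ) (hd : 1 ≤ d) (hh : 1 ≤ h) (c : ℝ) :
    ∀ᵐ α : ℝ, 0 < α → Lim d (fun k => α * (f d h k + c)) := by
  have hD : ∀ i : Fin 1, 0 < ((fun _ => Q d h c) i : ℝ[X]).natDegree := fun _ => by
    simp only [Q_deg d h hd hh]
    omega
  have hP : ∀ i : Fin 1, 0 < ((fun _ => Q d h c) i : ℝ[X]).leadingCoeff := fun _ => Q_lead d h hd hh c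
  have hA := Pool.Agent.N798.S.main_poly (fun _ : Fin 1 => Q d h c) hP hD
  have hB := Pool.Agent.N798.S2.main_poly Pool.Agent.N798.S2.phpP Pool.Agent.N798.S2.pnP (fun _ : Fin 1 => Q d h c) hP hD
  have hmp := (volume_preserving_funUnique (Fin 1) ℝ).symm
  have hA' := hmp.quasiMeasurePreserving.ae hA
  have hB' := hmp.quasiMeasurePreserving.ae hB
  filter_upwards [hA', hB'] with α h1 h2 hpos b pr
  have e0 : ∀ i : Fin 1, ((MeasurableEquiv.funUnique (Fin 1) ℝ).symm α) i = α := by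
    intro i
    simp [MeasurableEquiv.funUnique]
  have g1 := (h1 (fun i => by rw [e0]; exact hpos) (fun _ => b)).1
  have g2 := (h2 (fun i => by rw [e0]; exact hpos) (fun _ => b)).1
  have hprod : (∏ _v : Fin 1, 1 / (((Q d h c).natDegree : ℕ) : ℝ)) = 1 / (d : ℝ) := by
    rw [Q_deg d h hd hh]
    simp
  cases pr with
  | false =>
    rw [hprod] at g1
    refine g1.congr fun N => ?_
    rw [X_eq]
    unfold rho Pool.Agent.N798.S.cnt
    have e1 : ((Icc 1 N).filter fun n : ℕ => ∀ v : Fin 1, (⌊((MeasurableEquiv.funUnique (Fin 1) ℝ).symm α) v *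
        ((Q d h c)).eval (n : ℝ)⌋ + b).toNat.Prime) =
        ((Icc 1 N).filter fun k : ℕ => (false = true → k.Prime) ∧ (⌊α * (f d h k + c)⌋ + b).toNat.Prime) := by
      refine filter_congr fun n _ => ?_
      constructor
      · intro hv
        refine ⟨fun hc => absurd hc (by decide), ?_⟩
        have := hv 0
        rwa [e0, Q_eval] at this
      · rintro ⟨_, hv⟩ i
        rwa [e0, Q_eval]
    rw [e1]
    simp only [Bool.toNat_false, add_zero]
    ring
  | true =>
    rw [hprod] at g2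
    refine g2.congr fun N => ?_
    rw [X_eq]
    unfold rho Pool.Agent.N798.S2.cnt
    have e1 : ((Icc 1 N).filter fun n : ℕ => n.Prime ∧ ∀ v : Fin 1, (⌊((MeasurableEquiv.funUnique (Fin 1) ℝ).symm α) v *
        ((Q d h c)).eval (n : ℝ)⌋ + b).toNat.Prime) =
        ((Icc 1 N).filter fun k : ℕ => (true = true → k.Prime) ∧ (⌊α * (f d h k + c)⌋ + b).toNat.Prime) := by
      refine filter_congr fun n _ => ?_
      constructor
      · rintro ⟨hn, hv⟩
        refine ⟨fun _ => hn, ?_⟩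
        have := hv 0
        rwa [e0, Q_eval] at this
      · rintro ⟨hn, hv⟩
        refine ⟨hn rfl, fun i => ?_⟩
        rwa [e0, Q_eval]
    rw [e1]
    simp only [Bool.toNat_true]
    ring

end Pool.Agent.W2helper62.CD
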