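import Pool.Agent.W2helper62.CD5

/-! The averages over the shifts. -/

set_option autoImplicit false
set_option maxHeartbeats 1000000

namespace Pool.Agent.W2helper62.CD

open Finset MeasureTheory Filter Topology

lemma P_meas : Measurable P := measurable_of_countable _

lemma Xc_meas (pr : Bool) (y : ℕ → ℝ × ℝ → ℝ) (hy : ∀ k, Measurable (y k)) (b : ℤ) (N : ℕ) :
    Measurable fun p : ℝ × ℝ => Xc pr (fun k => y k p) b N := by
  unfold Xc
  refine Finset.measurable_fun_sum _ fun k _ => ?_
  refine Measurable.const_mul ?_ _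
  exact (measurable_of_countable fun m : ℤ => P (m + b)).comp (Int.measurable_floor.comp (hy k))

lemma swap (d h : ℕ) (hd : 1 ≤ d) (hh : 1 ≤ h) :
    ∀ᵐ α : ℝ, ∀ᵐ c : ℝ, 0 < α → Lim d (fun k => α * (f d h k + c)) := by
  have hm : MeasurableSet {p : ℝ × ℝ | 0 < p.1 → Lim d (fun k => p.1 * (f d h k + p.2))} := by
    have e : {p : ℝ × ℝ | 0 < p.1 → Lim d (fun k => p.1 * (f d h k + p.2))} =
        {p : ℝ × ℝ | 0 < p.1}ᶜ ∪ ⋂ (b : ℤ), ⋂ (pr : Bool), {p : ℝ × ℝ | Tendsto (fun N => rho pr N *
          Xc pr (fun k => p.1 * (f d h k + p.2)) b N) atTop (𝓝 (1 / (d : ℝ)))} := by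
      ext p
      simp only [Set.mem_ofPred_eq, Set.mem_union, Set.mem_compl_iff, Set.mem_iInter, Lim]
      constructor
      · intro hp
        by_cases h0 : 0 < p.1
        · exact Or.inr fun b pr => hp h0 b pr
        · exact Or.inl h0
      · rintro (hp | hp) h0
        · exact absurd h0 hp
        · exact fun b pr => hp b pr
    rw [e]
    refine (measurableSet_lt measurable_const measurable_fst).compl.union ?_
    refine MeasurableSet.iInter fun b => MeasurableSet.iInter fun pr => ?_
    refine measurableSet_tendsto _ fun N => ?_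
    refine Measurable.const_mul ?_ _
    refine Xc_meas pr (fun k p => p.1 * (f d h k + p.2)) (fun k => ?_) b N
    exact measurable_fst.mul (measurable_const.add measurable_snd)
  rw [Measure.ae_ae_comm hm]
  exact Filter.Eventually.of_forall fun c => one d h hd hh c

lemma floor_shift (y s : ℝ) (h0 : 0 ≤ s) (h1 : s ≤ 1) : ⌊y + s⌋ = ⌊y⌋ ∨ ⌊y + s⌋ = ⌊y⌋ + 1 := by
  have a1 : ⌊y⌋ ≤ ⌊y + s⌋ := Int.floor_le_floor (by linarith)
  have a2 : ⌊y + s⌋ ≤ ⌊y⌋ + 1 := by
    have : ⌊y + s⌋ ≤ ⌊y + 1⌋ := Int.floor_le_floor (by linarith)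
    rwa [Int.floor_add_one] at this
  omega

lemma avgP (y : ℝ) (b : ℤ) : ∫ s in (0:ℝ)..1, P (⌊y + s⌋ + b) =
    P (⌊y⌋ + b) * (1 - Int.fract y) + P (⌊y⌋ + 1 + b) * Int.fract y := by
  have a1 := Int.fract_nonneg y
  have a2 := Int.fract_lt_one y
  have hfr := Int.fract_add_floor y
  have hm : Measurable fun s : ℝ => P (⌊y + s⌋ + b) :=
    (measurable_of_countable fun m : ℤ => P (m + b)).comp (Int.measurable_floor.comp (measurable_id.const_add y))
  have hi : ∀ u v : ℝ, IntervalIntegrable (fun s : ℝ => P (⌊y + s⌋ + b)) volume u v := by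
    intro u v
    rw [intervalIntegrable_iff]
    refine Measure.integrableOn_of_bounded (M := 1) ?_ hm.aestronglyMeasurable ?_
    · rw [Set.uIoc, Real.volume_Ioc]; exact ENNReal.ofReal_ne_top
    · refine Filter.Eventually.of_forall fun s => ?_
      rw [Real.norm_eq_abs, abs_of_nonneg (P0 _)]
      exact P1 _
  rw [← intervalIntegral.integral_add_adjacent_intervals (hi 0 (1 - Int.fract y)) (hi _ 1)]
  congr 1
  · have e1 : ∫ s in (0:ℝ)..(1 - Int.fract y), P (⌊y + s⌋ + b) = ∫ s in (0:ℝ)..(1 - Int.fract y), P (⌊y⌋ + b) := by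
      rw [intervalIntegral.integral_of_le (by linarith), intervalIntegral.integral_of_le (by linarith),
        integral_Ioc_eq_integral_Ioo, integral_Ioc_eq_integral_Ioo]
      refine setIntegral_congr_fun measurableSet_Ioo fun s hs => ?_
      have : ⌊y + s⌋ = ⌊y⌋ := by
        rw [Int.floor_eq_iff]
        constructor
        · linarith [hs.1]
        · linarith [hs.2]
      simp only [this]
    rw [e1, intervalIntegral.integral_const, smul_eq_mul]
    ring
  · have e1 : ∫ s in (1 - Int.fract y)..1, P (⌊y + s⌋ + b) = ∫ s in (1 - Int.fract y)..1, P (⌊y⌋ + 1 + b) := by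
      rw [intervalIntegral.integral_of_le (by linarith), intervalIntegral.integral_of_le (by linarith)]
      refine setIntegral_congr_fun measurableSet_Ioc fun s hs => ?_
      have : ⌊y + s⌋ = ⌊y⌋ + 1 := by
        rw [Int.floor_eq_iff]
        push_cast
        constructor
        · linarith [hs.1]
        · linarith [hs.2]
      simp only [this]
    rw [e1, intervalIntegral.integral_const, smul_eq_mul]
    ring

/-- the averaged count -/
noncomputable def Xb (pr : Bool) (y : ℕ → ℝ) (b : ℤ) (N : ℕ) : ℝ :=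
  ∑ k ∈ Icc 1 N, I pr k * (P (⌊y k⌋ + b) * (1 - Int.fract (y k)) + P (⌊y k⌋ + 1 + b) * Int.fract (y k))

lemma Xb_eq (pr : Bool) (y : ℕ → ℝ) (b : ℤ) (N : ℕ) (α : ℝ) (hα : 0 < α) :
    Xb pr (fun k => α * y k) b N = α * ∫ c in Set.Ioc 0 (1 / α), Xc pr (fun k => α * (y k + c)) b N := by
  have hm : ∀ k : ℕ, Measurable fun c : ℝ => P (⌊α * (y k + c)⌋ + b) := fun k =>
    (measurable_of_countable fun m : ℤ => P (m + b)).comp
      (Int.measurable_floor.comp ((measurable_id.const_add (y k)).const_mul α))
  have hi : ∀ k : ℕ, IntegrableOn (fun c : ℝ => P (⌊α * (y k + c)⌋ + b)) (Set.Ioc 0 (1 / α)) volume := by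
    intro k
    refine Measure.integrableOn_of_bounded (M := 1) (by simp) (hm k).aestronglyMeasurable ?_
    refine Filter.Eventually.of_forall fun s => ?_
    rw [Real.norm_eq_abs, abs_of_nonneg (P0 _)]
    exact P1 _
  unfold Xc Xb
  rw [integral_finsetSum _ fun k _ => (hi k).const_mul _, mul_sum]
  refine sum_congr rfl fun k _ => ?_
  have h1 := intervalIntegral.mul_integral_comp_mul_left (a := (0:ℝ)) (b := 1 / α) (f := fun s : ℝ => P (⌊α * y k + s⌋ + b)) α
  rw [mul_zero, mul_one_div_cancel hα.ne', intervalIntegral.integral_of_le (by positivity)] at h1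
  rw [integral_const_mul, ← avgP (α * y k) b, ← h1]
  simp only [mul_add]
  ring

/-- **The averages over the shifts have the expected limit.** -/
lemma avg (d h : ℕ) (hd : 1 ≤ d) (hh : 1 ≤ h) : ∀ᵐ α : ℝ, 0 < α → Lim d (fun k => α * f d h k) ∧
    ∀ (b : ℤ) (pr : Bool), Tendsto (fun N => rho pr N * Xb pr (fun k => α * f d h k) b N) atTop (𝓝 (1 / (d : ℝ))) := by
  filter_upwards [swap d h hd hh, one d h hd hh 0] with α h1 h2 hα
  have h2' : Lim d (fun k => α * f d h k) := by
    have := h2 hα
    simpa only [add_zero] using this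
  refine ⟨h2', fun b pr => ?_⟩
  have hdom : Tendsto (fun N => ∫ c in Set.Ioc 0 (1 / α), rho pr N * Xc pr (fun k => α * (f d h k + c)) b N) atTop
      (𝓝 (∫ _c in Set.Ioc 0 (1 / α), (1 / (d : ℝ)))) := by
    refine tendsto_integral_filter_of_dominated_convergence (fun _ => 2 * (1 / (d : ℝ) + 1)) ?_ ?_ ?_ ?_
    · refine Filter.Eventually.of_forall fun N => ?_
      refine Measurable.aestronglyMeasurable ?_
      refine Measurable.const_mul ?_ _
      unfold Xc
      refine Finset.measurable_fun_sum _ fun k _ => Measurable.const_mul ?_ _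
      exact (measurable_of_countable fun m : ℤ => P (m + b)).comp
        (Int.measurable_floor.comp ((measurable_id.const_add (f d h k)).const_mul α))
    · have g1 := (h2' b pr).eventually (gt_mem_nhds (show 1 / (d : ℝ) < 1 / (d : ℝ) + 1 by linarith))
      have g2 := (h2' (b + 1) pr).eventually (gt_mem_nhds (show 1 / (d : ℝ) < 1 / (d : ℝ) + 1 by linarith))
      filter_upwards [g1, g2] with N k1 k2
      refine (ae_restrict_iff' measurableSet_Ioc).mpr (Filter.Eventually.of_forall fun c hc => ?_)
      rw [Real.norm_eq_abs, abs_of_nonneg (mul_nonneg (rho0 _ _) (X0 _ _ _ _))]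
      have h3 : Xc pr (fun k => α * (f d h k + c)) b N ≤ Xc pr (fun k => α * f d h k) b N + Xc pr (fun k => α * f d h k) (b + 1) N := by
        unfold Xc
        rw [← sum_add_distrib]
        refine sum_le_sum fun k _ => ?_
        rw [← mul_add]
        refine mul_le_mul_of_nonneg_left ?_ (I0 _ _)
        have hc1 : 0 ≤ α * c := mul_nonneg hα.le hc.1.le
        have hc2 : α * c ≤ 1 := by
          have := mul_le_mul_of_nonneg_left hc.2 hα.le
          rwa [mul_one_div_cancel hα.ne'] at this
        simp only [mul_add]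
        rcases floor_shift (α * f d h k) (α * c) hc1 hc2 with e | e
        · rw [e]
          have := P0 (⌊α * f d h k⌋ + (b + 1))
          linarith
        · rw [e]
          have e2 : ⌊α * f d h k⌋ + 1 + b = ⌊α * f d h k⌋ + (b + 1) := by ring
          rw [e2]
          have := P0 (⌊α * f d h k⌋ + b)
          linarith
      have h4 := mul_le_mul_of_nonneg_left h3 (rho0 pr N)
      rw [mul_add] at h4
      linarith
    · exact integrable_const _
    · refine ae_restrict_of_ae ?_
      filter_upwards [h1] with c hc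
      exact hc hα b pr
  have h3 := hdom.const_mul α
  have e1 : α * ∫ _c in Set.Ioc 0 (1 / α), (1 / (d : ℝ)) = 1 / (d : ℝ) := by
    rw [setIntegral_const]
    simp only [measureReal_def, Real.volume_Ioc, sub_zero, smul_eq_mul]
    rw [ENNReal.toReal_ofReal (by positivity)]
    field_simp
  rw [e1] at h3
  refine h3.congr fun N => ?_
  rw [Xb_eq pr (f d h) b N α hα, integral_const_mul]
  ring

end Pool.Agent.W2helper62.CD
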