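import Pool.Agent.W2helper62.CD6

/-! Differences of the integer parts. -/

set_option autoImplicit false
set_option maxHeartbeats 1000000

namespace Pool.Agent.W2helper62.CD

open Finset MeasureTheory Filter Topology

lemma pow_diff (n : ℕ) (a b : ℝ) (hb : 0 ≤ b) (hab : b ≤ a) : a ^ (n + 1) - b ^ (n + 1) ≤ (n + 1) * a ^ n * (a - b) := by
  induction n with
  | zero => simp
  | succ n ih =>
    have ha : 0 ≤ a := hb.trans hab
    have h1 : b ^ (n + 1) ≤ a ^ (n + 1) := pow_le_pow_left₀ hb hab _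
    have h2 : a * (a ^ (n + 1) - b ^ (n + 1)) ≤ a * ((n + 1) * a ^ n * (a - b)) := mul_le_mul_of_nonneg_left ih ha
    have h3 : b ^ (n + 1) * (a - b) ≤ a ^ (n + 1) * (a - b) := mul_le_mul_of_nonneg_right h1 (by linarith)
    have e1 : a ^ (n + 1 + 1) - b ^ (n + 1 + 1) = a * (a ^ (n + 1) - b ^ (n + 1)) + b ^ (n + 1) * (a - b) := by ring
    have e2 : ((n + 1 : ℕ) + 1 : ℝ) * a ^ (n + 1) * (a - b) = a * ((n + 1) * a ^ n * (a - b)) + a ^ (n + 1) * (a - b) := by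
      push_cast
      ring
    rw [e1, e2]
    linarith

lemma pow_space (n : ℕ) (a b : ℝ) (ha : 0 ≤ a) (hab : a ≤ b) : (b - a) * b ^ n ≤ b ^ (n + 1) - a ^ (n + 1) := by
  have h1 : a ^ n ≤ b ^ n := pow_le_pow_left₀ ha hab _
  have h2 : a * a ^ n ≤ a * b ^ n := mul_le_mul_of_nonneg_left h1 ha
  have e1 : b ^ (n + 1) - a ^ (n + 1) = b * b ^ n - a * a ^ n := by ring
  rw [e1, sub_mul]
  linarith

lemma f_le (d h k k' : ℕ) (hk : 1 ≤ k) (hkk : k ≤ k') :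
    f d h k ≤ (h * ((d + 1) * (1 + (h : ℝ)) ^ d)) * (k' : ℝ) ^ d := by
  unfold f
  have hk0 : (1 : ℝ) ≤ k := by exact_mod_cast hk
  have hkk' : (k : ℝ) ≤ k' := by exact_mod_cast hkk
  have hh : (0 : ℝ) ≤ h := Nat.cast_nonneg h
  have h1 := pow_diff d ((k : ℝ) + h) k (by linarith) (by linarith)
  have h2 : (k : ℝ) + h ≤ (1 + h) * k' := by nlinarith
  have h3 : ((k : ℝ) + h) ^ d ≤ (1 + h) ^ d * (k' : ℝ) ^ d := by
    rw [← mul_pow]
    exact pow_le_pow_left₀ (by linarith) h2 d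
  refine h1.trans ?_
  have e1 : (k : ℝ) + h - k = h := by ring
  rw [e1]
  have h4 : ((d : ℝ) + 1) * ((k : ℝ) + h) ^ d * h ≤ ((d : ℝ) + 1) * ((1 + h) ^ d * (k' : ℝ) ^ d) * h := by gcongr
  refine h4.trans (le_of_eq ?_)
  ring

lemma dat1 (d h : ℕ) : Dat (h * ((d + 1) * (1 + (h : ℝ)) ^ d)) (f d h) (fun k => (k : ℝ) ^ (d + 1)) (fun k => (k : ℝ) ^ d) where
  f0 k := by
    unfold f
    have : (k : ℝ) ^ (d + 1) ≤ ((k : ℝ) + h) ^ (d + 1) :=
      pow_le_pow_left₀ (Nat.cast_nonneg k) (by linarith [Nat.cast_nonneg (α := ℝ) h]) _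
    linarith
  w1 k hk := one_le_pow₀ (by exact_mod_cast hk)
  fw k k' hk hkk := f_le d h k k' hk hkk
  vw k k' _ hkk := pow_space d k k' (Nat.cast_nonneg k) (by exact_mod_cast hkk.le)

lemma dat2 (d h : ℕ) : Dat (h * ((d + 1) * (1 + (h : ℝ)) ^ d)) (f d h) (fun k => ((k : ℝ) + h) ^ (d + 1))
    (fun k => ((k : ℝ) + h) ^ d) where
  f0 k := (dat1 d h).f0 k
  w1 k hk := by
    have : (1 : ℝ) ≤ k := by exact_mod_cast hk
    exact one_le_pow₀ (by linarith [Nat.cast_nonneg (α := ℝ) h])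
  fw k k' hk hkk := by
    refine (f_le d h k k' hk hkk).trans ?_
    refine mul_le_mul_of_nonneg_left ?_ (by positivity)
    exact pow_le_pow_left₀ (Nat.cast_nonneg k') (by linarith [Nat.cast_nonneg (α := ℝ) h]) _
  vw k k' _ hkk := by
    have h1 : (k : ℝ) ≤ k' := by exact_mod_cast hkk.le
    have h2 := pow_space d ((k : ℝ) + h) ((k' : ℝ) + h) (by positivity) (by linarith)
    have e1 : (k' : ℝ) + h - (k + h) = k' - k := by ring
    rwa [e1] at h2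

lemma carry (u w : ℝ) (b : ℤ) : P (⌊u + w⌋ - ⌊u⌋ + b) =
    (P (⌊w⌋ + b) * (1 - Int.fract w) + P (⌊w⌋ + 1 + b) * Int.fract w) +
      (P (⌊w⌋ + 1 + b) - P (⌊w⌋ + b)) * ((Int.fract u - 1 / 2) - (Int.fract (u + w) - 1 / 2)) := by
  have a1 := Int.fract_add_floor u
  have a2 := Int.fract_add_floor w
  have a3 := Int.fract_add_floor (u + w)
  have b1 := Int.fract_nonneg u
  have b2 := Int.fract_lt_one u
  have b3 := Int.fract_nonneg w
  have b4 := Int.fract_lt_one w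
  rcases lt_or_ge (Int.fract u + Int.fract w) 1 with hlt | hge
  · have e : ⌊u + w⌋ = ⌊u⌋ + ⌊w⌋ := by
      rw [Int.floor_eq_iff]
      push_cast
      constructor <;> linarith
    rw [e] at a3 ⊢
    push_cast at a3
    have e2 : ⌊u⌋ + ⌊w⌋ - ⌊u⌋ + b = ⌊w⌋ + b := by ring
    rw [e2]
    have e3 : Int.fract (u + w) = Int.fract u + Int.fract w := by linarith
    rw [e3]
    ring
  · have e : ⌊u + w⌋ = ⌊u⌋ + ⌊w⌋ + 1 := by
      rw [Int.floor_eq_iff]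
      push_cast
      constructor <;> linarith
    rw [e] at a3 ⊢
    push_cast at a3
    have e2 : ⌊u⌋ + ⌊w⌋ + 1 - ⌊u⌋ + b = ⌊w⌋ + 1 + b := by ring
    rw [e2]
    have e3 : Int.fract (u + w) = Int.fract u + Int.fract w - 1 := by linarith
    rw [e3]
    ring

/-- the Weyl sums tend to zero -/
lemma weyl (d h : ℕ) (v : ℕ → ℝ) (w : ℕ → ℝ) (hD : Dat (h * ((d + 1) * (1 + (h : ℝ)) ^ d)) (f d h) v w) :
    ∀ᵐ α : ℝ, 0 < α → ∀ (b : ℤ) (pr : Bool) (j : ℕ), 1 ≤ j →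
      Tendsto (fun N => rho pr N * ‖∑ k ∈ Icc 1 N, ((I pr k * P (⌊α * f d h k⌋ + b) : ℝ) : ℂ) * e (j * (α * v k))‖) atTop (𝓝 0) := by
  have h1 : ∀ (b : ℤ) (pr : Bool) (j : ℕ), 1 ≤ j → ∀ᵐ α : ℝ, 0 < α → ∀ m : ℕ,
      Tendsto (fun N : ℕ => (Real.log N) ^ m / N * ‖V (fun k => (I pr k : ℂ)) (fun m => (P (m + b) : ℂ)) (f d h) v j N α‖)
        atTop (𝓝 0) := by
    intro b pr j hj
    refine ae_V hD (by positivity) _ (fun k => ?_) _ (fun m => ?_) j ?_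
    · rw [Complex.norm_real, Real.norm_eq_abs, abs_of_nonneg (I0 _ _)]
      exact I1 _ _
    · rw [Complex.norm_real, Real.norm_eq_abs, abs_of_nonneg (P0 _)]
      exact P1 _
    · rw [abs_of_nonneg (Nat.cast_nonneg j)]
      exact_mod_cast hj
  have h2 : ∀ᵐ α : ℝ, ∀ (b : ℤ) (pr : Bool) (j : ℕ), 1 ≤ j → 0 < α → ∀ m : ℕ,
      Tendsto (fun N : ℕ => (Real.log N) ^ m / N * ‖V (fun k => (I pr k : ℂ)) (fun m => (P (m + b) : ℂ)) (f d h) v j N α‖)
        atTop (𝓝 0) := by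
    rw [ae_all_iff]
    intro b
    rw [ae_all_iff]
    intro pr
    rw [ae_all_iff]
    intro j
    rcases Nat.lt_or_ge j 1 with hj | hj
    · exact Filter.Eventually.of_forall fun α hc => absurd hc (by omega)
    · filter_upwards [h1 b pr j hj] with α hα _
      exact hα
  filter_upwards [h2] with α hα hpos b pr j hj
  refine (hα b pr j hj hpos (1 + pr.toNat)).congr fun N => ?_
  unfold rho V
  congr 2
  refine sum_congr rfl fun k _ => ?_
  have e1 : (j : ℝ) * v k * α = j * (α * v k) := by ring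
  rw [e1]
  push_cast
  ring

/-- **Differences of integer parts.** -/
theorem main (d : ℕ) (hd : 1 ≤ d) : ∀ᵐ α : ℝ, 0 < α → ∀ h : ℕ, 1 ≤ h → ∀ (β : ℝ) (b : ℤ) (pr : Bool),
    Tendsto (fun N : ℕ => rho pr N * ∑ k ∈ Icc 1 N, I pr k *
      P (⌊α * ((k : ℝ) + h) ^ (d + 1) + β⌋ - ⌊α * (k : ℝ) ^ (d + 1) + β⌋ + b)) atTop (𝓝 (1 / (d : ℝ))) := by
  have h0 : ∀ h : ℕ, 1 ≤ h → ∀ᵐ α : ℝ, 0 < α → ∀ (β : ℝ) (b : ℤ) (pr : Bool),
    Tendsto (fun N : ℕ => rho pr N * ∑ k ∈ Icc 1 N, I pr k *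
      P (⌊α * ((k : ℝ) + h) ^ (d + 1) + β⌋ - ⌊α * (k : ℝ) ^ (d + 1) + β⌋ + b)) atTop (𝓝 (1 / (d : ℝ))) := by
    intro h hh
    filter_upwards [avg d h hd hh, weyl d h _ _ (dat1 d h), weyl d h _ _ (dat2 d h)] with α h1 h2 h3 hpos β b pr
    obtain ⟨g1, g2⟩ := h1 hpos
    have g3 := h2 hpos
    have g4 := h3 hpos
    have hlim : ∀ b' : ℤ, ∀ᶠ N : ℕ in atTop, rho pr N * ∑ k ∈ Icc 1 N, (I pr k * P (⌊α * f d h k⌋ + b')) ≤ 1 / (d : ℝ) + 1 := by
      intro b'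
      have := (g1 b' pr).eventually (gt_mem_nhds (show 1 / (d : ℝ) < 1 / (d : ℝ) + 1 by linarith))
      filter_upwards [this] with N hN
      exact hN.le
    have hs : ∀ (v : ℕ → ℝ), (∀ (b : ℤ) (pr : Bool) (j : ℕ), 1 ≤ j →
        Tendsto (fun N => rho pr N * ‖∑ k ∈ Icc 1 N, ((I pr k * P (⌊α * f d h k⌋ + b) : ℝ) : ℂ) * e (j * (α * v k))‖)
          atTop (𝓝 0)) → ∀ b' : ℤ,
        Tendsto (fun N => rho pr N * ∑ k ∈ Icc 1 N, (I pr k * P (⌊α * f d h k⌋ + b')) * (Int.fract (α * v k + β) - 1 / 2))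
          atTop (𝓝 0) := by
      intro v hv b'
      exact saw (rho pr) (rho0 pr) _ (fun k => α * v k) (fun k => mul_nonneg (I0 _ _) (P0 _)) _ (hlim b')
        (fun j hj => hv b' pr j hj) β
    have s1 := hs _ g3 b
    have s2 := hs _ g3 (1 + b)
    have s3 := hs _ g4 b
    have s4 := hs _ g4 (1 + b)
    have hall := (g2 b pr).add ((s2.sub s1).sub (s4.sub s3))
    simp only [sub_zero, add_zero] at hall
    refine hall.congr fun N => ?_
    unfold Xb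
    rw [← mul_sub, ← mul_sub, ← mul_sub, ← mul_add]
    congr 1
    rw [← sum_sub_distrib, ← sum_sub_distrib, ← sum_sub_distrib, ← sum_add_distrib]
    refine sum_congr rfl fun k _ => ?_
    have e1 : α * ((k : ℝ) + h) ^ (d + 1) + β = (α * (k : ℝ) ^ (d + 1) + β) + α * f d h k := by
      unfold f
      ring
    rw [e1, carry (α * (k : ℝ) ^ (d + 1) + β) (α * f d h k) b]
    have e2 : ⌊α * f d h k⌋ + 1 + b = ⌊α * f d h k⌋ + (1 + b) := by ring
    rw [e2]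
    ring
  have h1 : ∀ᵐ α : ℝ, ∀ h : ℕ, 1 ≤ h → 0 < α → ∀ (β : ℝ) (b : ℤ) (pr : Bool),
    Tendsto (fun N : ℕ => rho pr N * ∑ k ∈ Icc 1 N, I pr k *
      P (⌊α * ((k : ℝ) + h) ^ (d + 1) + β⌋ - ⌊α * (k : ℝ) ^ (d + 1) + β⌋ + b)) atTop (𝓝 (1 / (d : ℝ))) := by
    rw [ae_all_iff]
    intro h
    rcases Nat.lt_or_ge h 1 with hj | hj
    · exact Filter.Eventually.of_forall fun α hc => absurd hc (by omega)
    · filter_upwards [h0 h hj] with α hα _
      exact hα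
  filter_upwards [h1] with α hα hpos h hh
  exact hα h hh hpos

end Pool.Agent.W2helper62.CD
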