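import Mathlib

set_option autoImplicit false

namespace Pool.Agent.W2helper62.Cyc

section core

variable {G A ι : Type} [AddCommGroup A]

open Classical in
theorem sat (Q : AddSubgroup A) (F : Finset G) (c : G → ι) (t : G → A) (S : Finset G) (hS : S ⊆ F)
    (hsat : ∀ y ∈ S, ∀ y' ∈ F, c y' = c y → y' ∈ S)
    (h : ∀ y ∈ S, ∑ z ∈ F with c z = c y, t z ∈ Q) : ∑ y ∈ S, t y ∈ Q := by
  rw [← Finset.sum_fiberwise_of_maps_to (t := S.image c) (g := c)
    (fun y hy => Finset.mem_image_of_mem c hy)]
  refine Q.sum_mem fun D hD => ?_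
  obtain ⟨y, hy, rfl⟩ := Finset.mem_image.1 hD
  have h1 : S.filter (fun z => c z = c y) = F.filter (fun z => c z = c y) := by
    ext z
    simp only [Finset.mem_filter]
    exact ⟨fun hz => ⟨hS hz.1, hz.2⟩, fun hz => ⟨hsat y hy z hz.1 hz.2, hz.2⟩⟩
  rw [h1]
  exact h y hy

open Classical in
theorem fib [PartialOrder ι] (Q : AddSubgroup A) (F : Finset G) (c : G → ι) (t : G → A)
    (h : ∀ x ∈ F, ∑ y ∈ F with c y ≤ c x, t y ∈ Q) :
    ∀ k : ℕ, ∀ x ∈ F, (F.filter (fun y => c y ≤ c x)).card = k →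
      ∑ y ∈ F with c y = c x, t y ∈ Q := by
  intro k
  induction k using Nat.strong_induction_on with
  | _ k ih =>
    intro x hx hk
    have h1 := h x hx
    have h2 : ∑ y ∈ F with c y ≤ c x, t y =
        ∑ y ∈ F with c y = c x, t y + ∑ y ∈ F with c y < c x, t y := by
      rw [← Finset.sum_union]
      · refine Finset.sum_congr ?_ fun _ _ => rfl
        ext z
        simp only [Finset.mem_filter, Finset.mem_union, le_iff_eq_or_lt]
        tauto
      · rw [Finset.disjoint_left]
        intro z hz hz'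
        rw [Finset.mem_filter] at hz hz'
        exact absurd hz.2 (ne_of_lt hz'.2)
    have h3 : ∑ y ∈ F with c y < c x, t y ∈ Q := by
      refine sat Q F c t _ (Finset.filter_subset _ _) ?_ ?_
      · intro y hy y' hy' e
        simp only [Finset.mem_filter] at hy ⊢
        exact ⟨hy', e ▸ hy.2⟩
      · intro y hy
        rw [Finset.mem_filter] at hy
        refine ih _ ?_ y hy.1 rfl
        rw [← hk]
        refine Finset.card_lt_card ((Finset.ssubset_iff_of_subset ?_).2 ⟨x, ?_, ?_⟩)
        · intro z hz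
          rw [Finset.mem_filter] at hz ⊢
          exact ⟨hz.1, hz.2.trans hy.2.le⟩
        · rw [Finset.mem_filter]
          exact ⟨hx, le_refl _⟩
        · rw [Finset.mem_filter]
          exact fun hz => absurd (lt_of_le_of_lt hz.2 hy.2) (lt_irrefl _)
    have h4 := Q.sub_mem h1 h3
    rwa [h2, add_sub_cancel_right] at h4

open Classical in
theorem core [PartialOrder ι] (Q : AddSubgroup A) (F : Finset G) (c : G → ι) (t : G → A)
    (h : ∀ x ∈ F, ∑ y ∈ F with c y ≤ c x, t y ∈ Q) (D : ι) :
    ∑ y ∈ F with c y ≤ D, t y ∈ Q := by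
  refine sat Q F c t _ (Finset.filter_subset _ _) ?_ ?_
  · intro y hy y' hy' e
    simp only [Finset.mem_filter] at hy ⊢
    exact ⟨hy', e ▸ hy.2⟩
  · intro y hy
    rw [Finset.mem_filter] at hy
    exact fib Q F c t h _ y hy.1 rfl

end core

end Pool.Agent.W2helper62.Cyc
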