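import Mathlib

set_option autoImplicit false

namespace Pool.Agent.W2helper62.Cyc

open Module

variable {k : Type} [Field k] {W : Type} [Group W] {n : ℕ}

/-- the vectors which are fixed by the elements of degree zero of `H`, that is, by the inertia
subgroup of `H` -/
def inertiaInvariants (deg : W →* Multiplicative ℤ) (ρ : Representation k W (Fin n → k)) (H : Subgroup W) :
    Submodule k (Fin n → k) where
  carrier := {x | ∀ g ∈ H, deg g = 1 → ρ g x = x}
  add_mem' := by
    intro x y hx hy g hg h1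
    rw [map_add, hx g hg h1, hy g hg h1]
  zero_mem' := by
    intro g _ _
    rw [map_zero]
  smul_mem' := by
    intro c x hx g hg h1
    rw [map_smul, hx g hg h1]

section tr

variable (deg : W →* Multiplicative ℤ) (J : Subgroup W) [J.Normal] (hJ : J ≤ deg.ker)

/-- the degree on the quotient -/
def dg : W ⧸ J →* Multiplicative ℤ := QuotientGroup.lift J deg fun _ hx => hJ hx

theorem dg_mk (g : W) : dg deg J hJ (g : W ⧸ J) = deg g := rfl

open Classical in
theorem trace_sum (ρ : Representation k W (Fin n → k)) (H : Subgroup W) (hJH : J ≤ H)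
    (S0 S : Finset (W ⧸ J)) (hS0 : ∀ y, y ∈ S0 ↔ dg deg J hJ y = 1) {φ : W} (hφ : φ ∈ H)
    {i : ℕ} (hS : ∀ y, y ∈ S ↔ dg deg J hJ y = deg φ ^ i)
    {m : ℕ} (b : Basis (Fin m) k (inertiaInvariants deg ρ H)) (A : Matrix (Fin m) (Fin m) k)
    (hA : ∀ j, ρ φ (b j : Fin n → k) = ∑ i, A i j • (b i : Fin n → k)) :
    ∑ y ∈ S with y ∈ H.map (QuotientGroup.mk' J),
      LinearMap.trace k _ (ρ.quotientToInvariants J y) =
    ((S0.filter (fun y => y ∈ H.map (QuotientGroup.mk' J))).card : k) * (A ^ i).trace := by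
  set τ := ρ.quotientToInvariants J with hτ
  have hτ1 : ∀ (g : W) (u : Representation.invariants (ρ.comp J.subtype)),
      (τ (g : W ⧸ J) u : Fin n → k) = ρ g (u : Fin n → k) := fun g u => rfl
  set H' := H.map (QuotientGroup.mk' J) with hH'
  have hle : inertiaInvariants deg ρ H ≤ Representation.invariants (ρ.comp J.subtype) := by
    intro x hx
    rw [Representation.mem_invariants]
    rintro ⟨g, hg⟩
    exact hx g (hJH hg) (hJ hg)
  set E : Module.End k (Representation.invariants (ρ.comp J.subtype)) :=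
    ∑ y ∈ S0 with y ∈ H', τ y with hE
  -- the operator `E` maps into the invariants
  have hEmul : ∀ z ∈ H', dg deg J hJ z = 1 → τ z * E = E := by
    intro z hz hz1
    rw [hE, Finset.mul_sum]
    refine Finset.sum_nbij' (fun y => z * y) (fun y => z⁻¹ * y) ?_ ?_ ?_ ?_ ?_
    · intro y hy
      rw [Finset.mem_filter, hS0] at hy ⊢
      exact ⟨by rw [map_mul, hz1, hy.1, one_mul], H'.mul_mem hz hy.2⟩
    · intro y hy
      rw [Finset.mem_filter, hS0] at hy ⊢
      exact ⟨by rw [map_mul, map_inv, hz1, hy.1, inv_one, one_mul],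
        H'.mul_mem (H'.inv_mem hz) hy.2⟩
    · intro y _
      exact inv_mul_cancel_left z y
    · intro y _
      exact mul_inv_cancel_left z y
    · intro y _
      exact (map_mul τ z y).symm
  have hEin : ∀ u, (E u : Fin n → k) ∈ inertiaInvariants deg ρ H := by
    intro u g hg hg1
    have h1 := hEmul (g : W ⧸ J) ⟨g, hg, rfl⟩ (by rw [dg_mk, hg1])
    have h2 := congrArg (fun f => (f u : Fin n → k)) h1
    simpa only [Module.End.mul_apply, hτ1] using h2
  let π : Representation.invariants (ρ.comp J.subtype) →ₗ[k] inertiaInvariants deg ρ H :=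
    LinearMap.codRestrict (inertiaInvariants deg ρ H) ((Submodule.subtype _).comp E) hEin
  let ι : inertiaInvariants deg ρ H →ₗ[k] Representation.invariants (ρ.comp J.subtype) :=
    Submodule.inclusion hle
  have hιπ : ι.comp π = E := by
    ext1 u
    apply Subtype.ext
    rfl
  have hπι : π.comp ι = ((S0.filter (fun y => y ∈ H')).card : k) • LinearMap.id := by
    ext1 x
    apply Subtype.ext
    change ((E (ι x) : Representation.invariants (ρ.comp J.subtype)) : Fin n → k) =
      ((S0.filter (fun y => y ∈ H')).card : k) • (x : Fin n → k)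
    rw [hE, LinearMap.sum_apply, Submodule.coe_sum, Finset.sum_congr rfl (g := fun _ =>
      (x : Fin n → k)), Finset.sum_const, Nat.cast_smul_eq_nsmul]
    intro y hy
    rw [Finset.mem_filter, hS0] at hy
    obtain ⟨g, hg, rfl⟩ := hy.2
    exact x.2 g hg hy.1
  let a : Module.End k (inertiaInvariants deg ρ H) := Matrix.toLin b b A
  have ha : (τ (φ : W ⧸ J)).comp ι = ι.comp a := by
    refine b.ext fun j => ?_
    apply Subtype.ext
    change ρ φ (b j : Fin n → k) = ((a (b j) : inertiaInvariants deg ρ H) : Fin n → k)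
    rw [hA, Matrix.toLin_self, Submodule.coe_sum]
    rfl
  have hai : ∀ i : ℕ, (τ (φ : W ⧸ J) ^ i).comp ι = ι.comp (a ^ i) := by
    intro i
    induction i with
    | zero => rfl
    | succ i ih =>
      rw [pow_succ, pow_succ, Module.End.mul_eq_comp, Module.End.mul_eq_comp,
        LinearMap.comp_assoc, ha, ← LinearMap.comp_assoc, ih, LinearMap.comp_assoc]
  have h1 : ∑ y ∈ S with y ∈ H', LinearMap.trace k _ (τ y) =
      LinearMap.trace k _ (τ (φ : W ⧸ J) ^ i * E) := by
    rw [hE, Finset.mul_sum, map_sum]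
    symm
    refine Finset.sum_nbij' (fun y => (φ : W ⧸ J) ^ i * y) (fun y => ((φ : W ⧸ J) ^ i)⁻¹ * y)
      ?_ ?_ ?_ ?_ ?_
    · intro y hy
      rw [Finset.mem_filter, hS0] at hy
      rw [Finset.mem_filter, hS]
      exact ⟨by rw [map_mul, map_pow, hy.1, dg_mk, mul_one],
        H'.mul_mem (H'.pow_mem ⟨φ, hφ, rfl⟩ i) hy.2⟩
    · intro y hy
      rw [Finset.mem_filter, hS] at hy
      rw [Finset.mem_filter, hS0]
      exact ⟨by rw [map_mul, map_inv, map_pow, hy.1, dg_mk, inv_mul_cancel],
        H'.mul_mem (H'.inv_mem (H'.pow_mem ⟨φ, hφ, rfl⟩ i)) hy.2⟩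
    · intro y _
      exact inv_mul_cancel_left _ y
    · intro y _
      exact mul_inv_cancel_left _ y
    · intro y _
      rw [map_mul τ, map_pow τ]
  rw [h1, ← hιπ, Module.End.mul_eq_comp, ← LinearMap.comp_assoc, hai,
    LinearMap.comp_assoc, LinearMap.trace_comp_comm', LinearMap.comp_assoc, hπι]
  rw [LinearMap.comp_smul, LinearMap.comp_id, map_smul, smul_eq_mul]
  congr 1
  rw [LinearMap.trace_eq_matrix_trace k b]
  congr 1
  change LinearMap.toMatrixAlgEquiv b (a ^ i) = _
  rw [map_pow]
  congr 1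
  exact LinearMap.toMatrix_toLin b b A

end tr

end Pool.Agent.W2helper62.Cyc
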