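import Pool.Agent.R401.Tr4
import Pool.Agent.W2helper62.CycA
import Pool.Agent.W2helper62.CycB

set_option autoImplicit false

namespace Pool.Agent.W2helper62.Cyc

open Module Polynomial
open Pool.Agent.R401

section series

/-- the traces of the powers of `A`, given by `P = det (1 - A X)` -/
noncomputable def trs (P : ℚ[X]) (j : ℕ) : ℚ :=
  PowerSeries.coeff j (-((P : PowerSeries ℚ)⁻¹ * PowerSeries.derivative ℚ (P : PowerSeries ℚ)))

theorem trs_eq {L : Type} [Field L] [Algebra ℚ L] [CharZero L] {m : ℕ}
    (A : Matrix (Fin m) (Fin m) L) (P : ℚ[X]) (h : A.charpolyRev = P.map (algebraMap ℚ L)) (j : ℕ) :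
    (A ^ (j + 1)).trace = algebraMap ℚ L (trs P j) := by
  have h0 : P.coeff 0 = 1 := by
    have h1 := congrArg (fun q : L[X] => q.coeff 0) h
    simp only [Polynomial.coeff_map] at h1
    rw [coeff_zero_eq_eval_zero, Matrix.eval_charpolyRev] at h1
    exact (algebraMap ℚ L).injective (by rw [← h1, map_one])
  have hP : PowerSeries.constantCoeff (P : PowerSeries ℚ) ≠ 0 := by
    rw [← PowerSeries.coeff_zero_eq_constantCoeff_apply, Polynomial.coeff_coe, h0]
    exact one_ne_zero
  have h2 : PowerSeries.derivative L (A.charpolyRev : PowerSeries L) =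
      -((A.charpolyRev : PowerSeries L) * PowerSeries.mk fun j => (A ^ (j + 1)).trace) := by
    ext k
    rw [PowerSeries.coeff_derivative, map_neg, PowerSeries.coeff_mul, Polynomial.coeff_coe,
      Pool.Agent.TH658.Eq.newton]
    congr 1
    refine Finset.sum_congr rfl fun p hp => ?_
    rw [Polynomial.coeff_coe, PowerSeries.coeff_mk]
  have h3 : (A.charpolyRev : PowerSeries L) =
      PowerSeries.map (algebraMap ℚ L) (P : PowerSeries ℚ) := by
    rw [h, Polynomial.polynomial_map_coe]
  have h4 : PowerSeries.derivative L (PowerSeries.map (algebraMap ℚ L) (P : PowerSeries ℚ)) =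
      PowerSeries.map (algebraMap ℚ L) (PowerSeries.derivative ℚ (P : PowerSeries ℚ)) := by
    ext k
    rw [PowerSeries.coeff_derivative, PowerSeries.coeff_map, PowerSeries.coeff_map,
      PowerSeries.coeff_derivative, map_mul, map_add, map_natCast, map_one]
  have h5 : (PowerSeries.mk fun j => (A ^ (j + 1)).trace) =
      PowerSeries.map (algebraMap ℚ L)
        (-((P : PowerSeries ℚ)⁻¹ * PowerSeries.derivative ℚ (P : PowerSeries ℚ))) := by
    rw [map_neg, map_mul, ← h4, ← h3, h2, mul_neg, neg_neg, h3, ← mul_assoc, ← map_mul,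
      PowerSeries.inv_mul_cancel _ hP, map_one, one_mul]
  have h6 := congrArg (PowerSeries.coeff j) h5
  rwa [PowerSeries.coeff_mk, PowerSeries.coeff_map] at h6

end series

end Pool.Agent.W2helper62.Cyc
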