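import Pool.Agent.W2helper62.GP6

set_option autoImplicit false

/-!
# Prime values of `⌊α v(n)^d⌋ + b` for almost all `α`, against arbitrary weights, and primes `|n² + a|`

From the starting files: the weights of the primes (`Pool.Agent.N798.S2.wtP`), the bound for the Fourier transform of a
weight minus its density (`Pool.Agent.N887.HS.fb`), Plancherel (`Pool.Agent.TH794.QD.plancherel`), the kernel
`Pool.Agent.N798.HS.Ek`, products (`Pool.Agent.N999.HS.prd`), exceptional sets (`Pool.Agent.N364.T.bci`,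
`Pool.Agent.N262.T.cu`), moments of the divisor function (`Pool.Agent.TH935.LD.tau_pow_sum`).
-/

namespace Pool.Agent.Results.MP_391708_nt.GenericCompanions

open Finset MeasureTheory Filter Topology
open Pool.Agent.W2helper62.GP (Sm)

/-- an increasing sequence `v 1 < v 2 < …` of positive integers with `v n ≤ n (log n)^C` for all large `n` -/
def Slow (v : ℕ → ℕ) : Prop := (∀ m n, 1 ≤ m → m < n → v m < v n) ∧ 1 ≤ v 1 ∧
  ∃ C n₀ : ℕ, ∀ n, n₀ ≤ n → (v n : ℝ) ≤ n * (Real.log n) ^ C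

/-- the number `P_a(N)` of `n ≤ N` with `|n² + a|` prime -/
def P (a : ℤ) (N : ℕ) : ℕ := #((Icc 1 N).filter fun n : ℕ => ((n : ℤ) ^ 2 + a).natAbs.Prime)

open scoped Classical in
/-- the sum of `∏ log (α_j v_j(n)^{d_j})` over the `n ≤ N` with `|n² + a|` and all `|⌊α_j v_j(n)^{d_j}⌋ + b_j|` prime -/
noncomputable def T {k : ℕ} (v : Fin k → ℕ → ℕ) (d : Fin k → ℝ) (α : Fin k → ℝ) (b : Fin k → ℤ) (a : ℤ) (N : ℕ) : ℝ :=
  ∑ n ∈ (Icc 1 N).filter (fun n : ℕ => ((n : ℤ) ^ 2 + a).natAbs.Prime ∧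
    ∀ j, (⌊α j * (v j n : ℝ) ^ d j⌋ + b j).natAbs.Prime), ∏ j, Real.log (α j * (v j n : ℝ) ^ d j)

/-- the logarithmic integral from `2` to `N` -/
noncomputable def li (N : ℕ) : ℝ := ∫ t in (2 : ℝ)..(N : ℝ), 1 / Real.log t

lemma li_ge (N : ℕ) (hN : 4 ≤ N) : (N : ℝ) / (2 * Real.log N) ≤ li N := by
  have hNr : (4 : ℝ) ≤ N := by exact_mod_cast hN
  have hlog : 0 < Real.log N := Real.log_pos (by linarith)
  have h1 : ∫ _t in (2 : ℝ)..(N : ℝ), 1 / Real.log (N : ℝ) ≤ li N := by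
    refine intervalIntegral.integral_mono_on (by linarith) (by simp) ?_ fun t ht => ?_
    · refine ContinuousOn.intervalIntegrable fun t ht => ?_
      rw [Set.uIcc_of_le (by linarith)] at ht
      have ht0 : 0 < Real.log t := Real.log_pos (by linarith [ht.1])
      exact (continuousAt_const.div (Real.continuousAt_log (by linarith [ht.1])) ht0.ne').continuousWithinAt
    · have ht0 : 0 < Real.log t := Real.log_pos (by linarith [ht.1])
      exact one_div_le_one_div_of_le ht0 (Real.log_le_log (by linarith [ht.1]) ht.2)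
  rw [intervalIntegral.integral_const, smul_eq_mul] at h1
  refine le_trans ?_ h1
  rw [mul_one_div, div_le_div_iff₀ (by positivity) hlog]
  nlinarith

lemma lim_iff (x : ℝ) (A B : ℕ → ℝ) (h : ∃ C : ℝ, ∀ N : ℕ, 2 ≤ N → |A N - B N| ≤ C * N / (Real.log N) ^ 2) :
    Tendsto (fun N => A N / li N) atTop (𝓝 x) ↔ Tendsto (fun N => B N / li N) atTop (𝓝 x) := by
  obtain ⟨C, hC⟩ := h
  have hlim : Tendsto (fun N : ℕ => A N / li N - B N / li N) atTop (𝓝 0) := by
    have h1 : Tendsto (fun N : ℕ => 2 * |C| / Real.log (N : ℝ)) atTop (𝓝 0) :=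
      Tendsto.div_atTop tendsto_const_nhds (Real.tendsto_log_atTop.comp tendsto_natCast_atTop_atTop)
    refine squeeze_zero_norm' ?_ h1
    filter_upwards [eventually_ge_atTop 4] with N hN
    have hNr : (4 : ℝ) ≤ N := by exact_mod_cast hN
    have hlog : 0 < Real.log N := Real.log_pos (by linarith)
    have h2 := li_ge N hN
    have h3 : 0 < li N := lt_of_lt_of_le (by positivity) h2
    rw [← sub_div, norm_div, Real.norm_eq_abs, Real.norm_of_nonneg h3.le, div_le_div_iff₀ h3 hlog]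
    have h4 : |A N - B N| ≤ |C| * N / (Real.log N) ^ 2 := by
      refine (hC N (by omega)).trans ?_
      gcongr
      exact le_abs_self C
    calc |A N - B N| * Real.log N ≤ |C| * N / (Real.log N) ^ 2 * Real.log N := by gcongr
      _ = 2 * |C| * ((N : ℝ) / (2 * Real.log N)) := by field_simp
      _ ≤ 2 * |C| * li N := by gcongr
  constructor
  · intro hA
    have := hA.sub hlim
    simpa using this
  · intro hB
    have := hB.add hlim
    simpa using this

open scoped Classical in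
theorem result (k : ℕ) (v : Fin k → ℕ → ℕ) (hv : ∀ j, Slow (v j)) (d : Fin k → ℝ) (hd : ∀ j, 0 < d j)
    (c : ℕ → ℕ → ℂ) (hc : ∀ i n, ‖c i n‖ ≤ 1) :
    ∀ᵐ α : Fin k → ℝ, (∀ j, 0 < α j) → ∀ (b : Fin k → ℤ),
      (∀ i K : ℕ, ∃ C : ℝ, ∀ N : ℕ, 2 ≤ N →
        ‖∑ n ∈ Icc 1 N, c i n * ((if ∀ j, (⌊α j * (v j n : ℝ) ^ d j⌋ + b j).natAbs.Prime then 1 else 0) -
          ((1 / ∏ j, Real.log (α j * (v j n : ℝ) ^ d j) : ℝ) : ℂ))‖ ≤ C * N / (Real.log N) ^ K) ∧
      (∀ a : ℤ, (∀ K : ℕ, ∃ C : ℝ, ∀ N : ℕ, 2 ≤ N → |(P a N : ℝ) - T v d α b a N| ≤ C * N / (Real.log N) ^ K) ∧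
        ∀ x : ℝ, Tendsto (fun N => (P a N : ℝ) / li N) atTop (𝓝 x) ↔
          Tendsto (fun N => T v d α b a N / li N) atTop (𝓝 x)) := by
  have hc' : ∀ (a : ℤ) (n : ℕ), ‖(if ((n : ℤ) ^ 2 + a).natAbs.Prime then (1 : ℂ) else 0)‖ ≤ 1 := by
    intro a n
    split_ifs <;> simp
  filter_upwards [Pool.Agent.W2helper62.GP.primesAE v hv d hd c hc,
    Pool.Agent.W2helper62.GP.primesAE v hv d hd (fun (a : ℤ) (n : ℕ) => if ((n : ℤ) ^ 2 + a).natAbs.Prime then (1 : ℂ) else 0) hc']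
    with α h1 h2 hα b
  refine ⟨fun i K => ?_, fun a => ?_⟩
  · obtain ⟨C, hC⟩ := (h1 hα i b).1 K
    refine ⟨C, fun N hN => le_trans (le_of_eq ?_) (hC N hN)⟩
    congr 1
    refine Finset.sum_congr rfl fun n _ => ?_
    unfold Pool.Agent.W2helper62.GP.AP Pool.Agent.W2helper62.GP.Lg
    by_cases g : ∀ j, (⌊α j * (v j n : ℝ) ^ d j⌋ + b j).natAbs.Prime
    · rw [if_pos g, if_pos g]
    · rw [if_neg g, if_neg g]
  have h3 : ∀ K : ℕ, ∃ C : ℝ, ∀ N : ℕ, 2 ≤ N → |(P a N : ℝ) - T v d α b a N| ≤ C * N / (Real.log N) ^ K := by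
    intro K
    obtain ⟨C, hC⟩ := (h2 hα a b).2 K
    refine ⟨C, fun N hN => ?_⟩
    refine le_trans (le_of_eq ?_) (hC N hN)
    rw [abs_sub_comm, ← Real.norm_eq_abs, ← Complex.norm_real]
    congr 1
    unfold P T
    rw [Finset.card_filter, Finset.sum_filter]
    push_cast
    rw [← Finset.sum_sub_distrib]
    refine Finset.sum_congr rfl fun n _ => ?_
    unfold Pool.Agent.W2helper62.GP.AP Pool.Agent.W2helper62.GP.Lg
    by_cases g1 : ((n : ℤ) ^ 2 + a).natAbs.Prime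
    · by_cases g2 : ∀ j, (⌊α j * (v j n : ℝ) ^ d j⌋ + b j).natAbs.Prime
      · rw [if_pos ⟨g1, g2⟩, if_pos g1, if_pos g2, if_pos g1]
        push_cast
        ring
      · rw [if_neg (fun g => g2 g.2), if_pos g1, if_neg g2, if_pos g1]
        simp
    · rw [if_neg (fun g => g1 g.1), if_neg g1, if_neg g1]
      simp
  exact ⟨h3, fun x => lim_iff x _ _ (h3 2)⟩

end Pool.Agent.Results.MP_391708_nt.GenericCompanions
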