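import Pool.Agent.W2helper62.CM6

set_option autoImplicit false

/-!
# Sign patterns of the Möbius function at almost all real dilations, with arbitrary bounded weights

From the starting files: the bounds for twisted sums of the Möbius function (`Pool.Agent.Y957.VK.neg_mu`), of the
primes and of the integers (`Pool.Agent.N798.S2.wtP`, `Pool.Agent.N765.T.wo`), and the mean square method over
almost all multiples (`Pool.Agent.N798.HS`, `Pool.Agent.N999.HS.prd`, `Pool.Agent.N364.T.bci`,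
`Pool.Agent.N262.T.cu`).  From Mathlib: `ArithmeticFunction.moebius`, the Möbius function.
-/

namespace Pool.Agent.W2helper62.GenericDilations

open Finset MeasureTheory

/-- the Möbius function on the integers, with the value `0` at the integers `m ≤ 0` -/
def mu (m : ℤ) : ℤ := ArithmeticFunction.moebius m.toNat

/-- the frequency of the value `v` of the Möbius function -/
noncomputable def freq (v : ℤ) : ℝ :=
  if v = 0 then 1 - 6 / Real.pi ^ 2 else if v = 1 ∨ v = -1 then 3 / Real.pi ^ 2 else 0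

/-- an increasing sequence `u 1 < u 2 < …` of positive integers with `u n ≤ n (log n)^C` for all large `n` -/
def Slow (u : ℕ → ℕ) : Prop := (∀ m n, 1 ≤ m → m < n → u m < u n) ∧ 1 ≤ u 1 ∧
  ∃ C n₀ : ℕ, ∀ n, n₀ ≤ n → (u n : ℝ) ≤ n * (Real.log n) ^ C

lemma freq_eq (v : ℤ) : freq v = Pool.Agent.W2helper62.CM.fr v := by
  unfold freq Pool.Agent.W2helper62.CM.fr Pool.Agent.W2helper62.CM.kap
  split_ifs
  · rfl
  · ring
  · rfl

lemma slow_id : Slow (fun n => n) := by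
  refine ⟨fun m n _ h => h, le_rfl, 0, 0, fun n _ => ?_⟩
  simp

open scoped Classical in
lemma ind_prod {k : ℕ} (v : Fin k → ℤ) (x : Fin k → ℤ) :
    ∏ j, Pool.Agent.W2helper62.CM.ind (v j) (x j).toNat = if ∀ j, mu (x j) = v j then 1 else 0 := by
  unfold Pool.Agent.W2helper62.CM.ind mu
  rw [Finset.prod_ite_zero]
  simp

open scoped Classical in
lemma pr_eq {k : ℕ} (u : Fin k → ℕ → ℕ) (h : Fin k → ℤ) (δ : Fin k → ℕ) (α : Fin k → ℝ) (n : ℕ) :
    Pool.Agent.W2helper62.CM.pr u h δ α n = ∏ j, ((mu (⌊α j * u j n⌋ + h j) : ℤ) : ℂ) ^ δ j := rfl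

lemma mu_le (m : ℤ) : ‖((mu m : ℤ) : ℂ)‖ ≤ 1 := Pool.Agent.W2helper62.CM.mo_le m.toNat

/-- the index set of the products of undilated values -/
abbrev Idx : Type := (Σ r : ℕ, (Fin r → ℤ) × (Fin r → ℤ)) × ℕ × ℕ

open scoped Classical in
/-- the indicator function of a pattern of undilated values in a residue class -/
noncomputable def cp (i : Idx) (n : ℕ) : ℂ :=
  if n ≡ i.2.2 [MOD i.2.1] ∧ ∀ t, mu (n + i.1.2.1 t) = i.1.2.2 t then 1 else 0

/-- a second index set of products of undilated values -/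
abbrev Idy : Type := (Σ r : ℕ, (Fin r → ℤ) × (Fin r → ℕ)) × ℕ × ℕ

/-- a product of undilated values in a residue class -/
noncomputable def cq (i : Idy) (n : ℕ) : ℂ :=
  if n ≡ i.2.2 [MOD i.2.1] then ∏ t, ((mu (n + i.1.2.1 t) : ℤ) : ℂ) ^ i.1.2.2 t else 0

open scoped Classical in
theorem result (k : ℕ) :
    (∀ u : Fin k → ℕ → ℕ, (∀ j, Slow (u j)) → ∀ c : ℕ → ℕ → ℂ, (∀ i n, ‖c i n‖ ≤ 1) →
      ∀ᵐ α : Fin k → ℝ, (∀ j, 0 < α j) → ∀ (i : ℕ) (h : Fin k → ℤ) (K : ℕ),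
        (∀ v : Fin k → ℤ, ∃ C : ℝ, ∀ N : ℕ, 2 ≤ N →
          ‖∑ n ∈ Icc 1 N, c i n * ((if ∀ j, mu (⌊α j * u j n⌋ + h j) = v j then 1 else 0) -
            ∏ j, (freq (v j) : ℂ))‖ ≤ C * N / (Real.log N) ^ K) ∧
        (∀ δ : Fin k → ℕ, (∃ j, Odd (δ j)) → ∃ C : ℝ, ∀ N : ℕ, 2 ≤ N →
          ‖∑ n ∈ Icc 1 N, c i n * ∏ j, (mu (⌊α j * u j n⌋ + h j) : ℂ) ^ δ j‖ ≤
            C * N / (Real.log N) ^ K)) ∧
    (∀ᵐ α : Fin k → ℝ, (∀ j, 0 < α j) → ∀ (r : ℕ) (a : Fin r → ℤ) (q b : ℕ) (h : Fin k → ℤ) (K : ℕ),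
      (∀ (w : Fin r → ℤ) (v : Fin k → ℤ), ∃ C : ℝ, ∀ N : ℕ, 2 ≤ N →
        |(((Icc 1 N).filter fun n : ℕ => n ≡ b [MOD q] ∧ (∀ i, mu (n + a i) = w i) ∧
            ∀ j, mu (⌊α j * n⌋ + h j) = v j).card : ℝ) -
          (∏ j, freq (v j)) * ((Icc 1 N).filter fun n : ℕ => n ≡ b [MOD q] ∧
            ∀ i, mu (n + a i) = w i).card| ≤ C * N / (Real.log N) ^ K) ∧
      (∀ (ε : Fin r → ℕ) (δ : Fin k → ℕ), (∃ j, Odd (δ j)) → ∃ C : ℝ, ∀ N : ℕ, 2 ≤ N →
        |(((∑ n ∈ (Icc 1 N).filter (fun n : ℕ => n ≡ b [MOD q]),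
            (∏ i, mu (n + a i) ^ ε i) * ∏ j, mu (⌊α j * n⌋ + h j) ^ δ j : ℤ)) : ℝ)| ≤
          C * N / (Real.log N) ^ K)) := by
  refine ⟨fun u hu c hc => ?_, ?_⟩
  · filter_upwards [Pool.Agent.W2helper62.CM.patt u hu c hc, Pool.Agent.W2helper62.CM.corr u hu c hc] with α h1 h2 hα i h K
    refine ⟨fun v => ?_, fun δ hδ => ?_⟩
    · obtain ⟨C, hC⟩ := h1 hα i h v K
      refine ⟨C, fun N hN => ?_⟩
      refine le_trans (le_of_eq ?_) (hC N hN)
      congr 1
      refine Finset.sum_congr rfl fun n _ => ?_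
      congr 2
      · exact (ind_prod v fun j => ⌊α j * u j n⌋ + h j).symm
      · simp only [freq_eq]
    · obtain ⟨C, hC⟩ := h2 hα i h δ hδ K
      exact ⟨C, fun N hN => hC N hN⟩
  · have hcp : ∀ (i : Idx) (n : ℕ), ‖cp i n‖ ≤ 1 := by
      intro i n
      unfold cp
      split_ifs <;> simp
    have hcq : ∀ (i : Idy) (n : ℕ), ‖cq i n‖ ≤ 1 := by
      intro i n
      unfold cq
      split_ifs
      · rw [norm_prod]
        refine Finset.prod_le_one (fun _ _ => norm_nonneg _) fun t _ => ?_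
        rw [norm_pow]
        exact pow_le_one₀ (norm_nonneg _) (mu_le _)
      · simp
    filter_upwards [Pool.Agent.W2helper62.CM.patt (fun (_ : Fin k) (n : ℕ) => n) (fun _ => slow_id) cp hcp,
      Pool.Agent.W2helper62.CM.corr (fun (_ : Fin k) (n : ℕ) => n) (fun _ => slow_id) cq hcq] with α h1 h2 hα r a q b h K
    refine ⟨fun w v => ?_, fun ε δ hδ => ?_⟩
    · obtain ⟨C, hC⟩ := h1 hα (⟨r, (a, w)⟩, q, b) h v K
      refine ⟨C, fun N hN => ?_⟩
      refine le_trans (le_of_eq ?_) (hC N hN)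
      rw [← Real.norm_eq_abs, ← Complex.norm_real]
      congr 1
      push_cast
      rw [Finset.card_filter, Finset.card_filter]
      push_cast
      rw [Finset.mul_sum, ← Finset.sum_sub_distrib]
      refine Finset.sum_congr rfl fun n _ => ?_
      have e1 := ind_prod v fun j => ⌊α j * n⌋ + h j
      have e2 : ∏ j, Pool.Agent.W2helper62.CM.ind (v j) (Pool.Agent.N798.T.vl (h j) (α j * n)) = ∏ j, Pool.Agent.W2helper62.CM.ind (v j) (⌊α j * n⌋ + h j).toNat := rfl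
      rw [e2, e1]
      unfold cp
      simp only [freq_eq]
      by_cases g1 : n ≡ b [MOD q] ∧ ∀ i, mu (n + a i) = w i
      · by_cases g2 : ∀ j, mu (⌊α j * n⌋ + h j) = v j
        · rw [if_pos ⟨g1.1, g1.2, g2⟩, if_pos g1, if_pos g2]
          ring
        · rw [if_neg (fun g => g2 g.2.2), if_pos g1, if_neg g2]
          ring
      · rw [if_neg (fun g => g1 ⟨g.1, g.2.1⟩), if_neg g1]
        ring
    · obtain ⟨C, hC⟩ := h2 hα (⟨r, (a, ε)⟩, q, b) h δ hδ K
      refine ⟨C, fun N hN => ?_⟩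
      refine le_trans (le_of_eq ?_) (hC N hN)
      rw [← Real.norm_eq_abs, ← Complex.norm_real]
      congr 1
      push_cast
      rw [Finset.sum_filter]
      refine Finset.sum_congr rfl fun n _ => ?_
      rw [pr_eq]
      unfold cq
      simp only
      split_ifs <;> simp

end Pool.Agent.W2helper62.GenericDilations
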