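import Mathlib

set_option autoImplicit false

/-! Bounds for the coefficients of products of cyclotomic polynomials and a polynomial in `X ^ q`. -/

namespace Pool.Agent.W2helper62.Ht

open Polynomial Finset

/-- all coefficients of `f` are at most `A` in absolute value -/
def Bd (A : ℤ) (f : ℤ[X]) : Prop := ∀ i, |f.coeff i| ≤ A

lemma Bd.mono {A A' : ℤ} {f : ℤ[X]} (h : Bd A f) (hA : A ≤ A') : Bd A' f := fun i => (h i).trans hA

lemma Bd.nonneg {A : ℤ} {f : ℤ[X]} (h : Bd A f) : 0 ≤ A := (abs_nonneg _).trans (h 0)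

lemma bd_Xpow_mul {A : ℤ} {f : ℤ[X]} (h : Bd A f) (m : ℕ) : Bd A (X ^ m * f) := by
  intro i
  rw [coeff_X_pow_mul']
  split_ifs
  · exact h _
  · simpa using h.nonneg

lemma bd_Xpow_sub {A : ℤ} {f : ℤ[X]} (h : Bd A f) (m : ℕ) : Bd (2 * A) ((X ^ m - 1) * f) := by
  intro i
  rw [sub_mul, one_mul, coeff_sub]
  have h1 := bd_Xpow_mul h m i
  have h2 := h i
  have h3 := abs_sub ((X ^ m * f).coeff i) (f.coeff i)
  linarith

lemma bd_sum_mul {A : ℤ} {f : ℤ[X]} (h : Bd A f) (s : Finset ℕ) (a : ℕ → ℕ) :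
    Bd (s.card * A) ((∑ i ∈ s, X ^ a i) * f) := by
  intro j
  rw [sum_mul, finsetSum_coeff]
  refine (abs_sum_le_sum_abs _ _).trans ?_
  have h1 : ∀ i ∈ s, |(X ^ a i * f).coeff j| ≤ A := fun i _ => bd_Xpow_mul h (a i) j
  have h2 := sum_le_sum h1
  rw [sum_const, nsmul_eq_mul] at h2
  exact h2

/-- the coefficients of `g` as a function on the integers -/
def ext (g : ℤ[X]) (k : ℤ) : ℤ := if 0 ≤ k then g.coeff k.toNat else 0

lemma abs_ext {A : ℤ} {g : ℤ[X]} (h : Bd A g) (k : ℤ) : |ext g k| ≤ A := by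
  unfold ext
  split_ifs
  · exact h _
  · simpa using h.nonneg

/-- one term of the product -/
lemma coeff_Xpow_mul_expand {q : ℕ} (hq : 0 < q) (g : ℤ[X]) (a j : ℕ) :
    (X ^ a * expand ℤ q g).coeff j =
      if (q : ℤ) ∣ (j : ℤ) - a then ext g (((j : ℤ) - a) / q) else 0 := by
  rw [coeff_X_pow_mul', coeff_expand hq]
  by_cases haj : a ≤ j
  · rw [if_pos haj]
    have e : (j : ℤ) - a = ((j - a : ℕ) : ℤ) := by push_cast [haj]; ring
    rw [e]
    by_cases hd : q ∣ j - a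
    · rw [if_pos hd, if_pos (Int.natCast_dvd_natCast.2 hd)]
      unfold ext
      rw [← Int.natCast_div, if_pos (Int.natCast_nonneg _), Int.toNat_natCast]
    · rw [if_neg hd, if_neg (fun h => hd (Int.natCast_dvd_natCast.1 h))]
  · rw [if_neg haj]
    split_ifs with hd
    · unfold ext
      rw [if_neg]
      push Not
      have : (j : ℤ) - a < 0 := by push Not at haj; omega
      exact Int.ediv_neg_of_neg_of_pos this (by exact_mod_cast hq)
    · rfl

/-- the sum, if there is only one relevant term -/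
lemma coeff_sum_mul_expand {q : ℕ} (hq : 0 < q) (g : ℤ[X]) (s : Finset ℕ) (a : ℕ → ℕ) (j i₀ : ℕ)
    (h₀ : i₀ ∈ s) (h₁ : (q : ℤ) ∣ (j : ℤ) - a i₀)
    (h₂ : ∀ i ∈ s, (q : ℤ) ∣ (j : ℤ) - a i → i = i₀) :
    ((∑ i ∈ s, X ^ a i) * expand ℤ q g).coeff j = ext g (((j : ℤ) - a i₀) / q) := by
  rw [sum_mul, finsetSum_coeff, sum_eq_single i₀]
  · rw [coeff_Xpow_mul_expand hq, if_pos h₁]
  · intro i hi hne
    rw [coeff_Xpow_mul_expand hq, if_neg (fun h => hne (h₂ i hi h))]
  · exact fun h => absurd h₀ h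

lemma bd_expand {A : ℤ} {q : ℕ} (hq : 0 < q) {g : ℤ[X]} (h : Bd A g) : Bd A (expand ℤ q g) := by
  intro j
  rw [coeff_expand hq]
  split_ifs
  · exact h _
  · simpa using h.nonneg

lemma bd_sub_one_expand {A : ℤ} {q : ℕ} (hq : 2 ≤ q) {g : ℤ[X]} (h : Bd A g) :
    Bd A ((X - 1) * expand ℤ q g) := by
  intro j
  have e : (X - 1 : ℤ[X]) * expand ℤ q g = X ^ 1 * expand ℤ q g - X ^ 0 * expand ℤ q g := by ring
  rw [e, coeff_sub, coeff_Xpow_mul_expand (by omega), coeff_Xpow_mul_expand (by omega)]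
  by_cases h1 : (q : ℤ) ∣ (j : ℤ) - (1 : ℕ)
  · have h0 : ¬ (q : ℤ) ∣ (j : ℤ) - (0 : ℕ) := by
      intro h0
      have h2 := dvd_sub h0 h1
      have e2 : (j : ℤ) - (0 : ℕ) - ((j : ℤ) - (1 : ℕ)) = 1 := by push_cast; ring
      rw [e2] at h2
      have := Int.le_of_dvd one_pos h2
      omega
    rw [if_pos h1, if_neg h0, sub_zero]
    exact abs_ext h _
  · rw [if_neg h1, zero_sub, abs_neg]
    split_ifs
    · exact abs_ext h _
    · simpa using h.nonneg

/-- partial sums of the coefficients -/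
def S (g : ℤ[X]) (k : ℤ) : ℤ := ∑ l ∈ range (k + 1).toNat, g.coeff l

lemma S_neg (g : ℤ[X]) {k : ℤ} (hk : k < 0) : S g k = 0 := by
  unfold S
  have : (k + 1).toNat = 0 := by omega
  rw [this, range_zero, sum_empty]

lemma S_succ (g : ℤ[X]) (k : ℤ) : S g k = S g (k - 1) + ext g k := by
  unfold S ext
  by_cases hk : 0 ≤ k
  · rw [if_pos hk]
    have e1 : (k + 1).toNat = k.toNat + 1 := by omega
    have e2 : (k - 1 + 1).toNat = k.toNat := by congr 1; ring
    rw [e1, e2, sum_range_succ]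
  · rw [if_neg hk]
    have e1 : (k + 1).toNat = 0 := by omega
    have e2 : (k - 1 + 1).toNat = 0 := by omega
    rw [e1, e2]
    simp

lemma S_lip_aux {A : ℤ} {g : ℤ[X]} (h : Bd A g) (n : ℕ) (y : ℤ) : |S g (y + n) - S g y| ≤ A * n := by
  induction n with
  | zero => simp
  | succ n ih =>
    have e1 : S g (y + (n + 1 : ℕ)) = S g (y + n) + ext g (y + (n + 1 : ℕ)) := by
      rw [S_succ]
      congr 2
      push_cast
      ring
    rw [e1]
    have h1 := abs_ext h (y + (n + 1 : ℕ))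
    have h2 := abs_add_le (S g (y + n) - S g y) (ext g (y + (n + 1 : ℕ)))
    have e2 : S g (y + n) - S g y + ext g (y + (n + 1 : ℕ)) =
        S g (y + n) + ext g (y + (n + 1 : ℕ)) - S g y := by ring
    rw [e2] at h2
    push_cast at h1 h2 ih ⊢
    linarith

lemma S_lip {A : ℤ} {g : ℤ[X]} (h : Bd A g) (x y : ℤ) : |S g x - S g y| ≤ A * |x - y| := by
  rcases le_total y x with hxy | hxy
  · have h1 := S_lip_aux h (x - y).toNat y
    have e : y + ((x - y).toNat : ℤ) = x := by omega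
    rw [e] at h1
    have e2 : ((x - y).toNat : ℤ) = |x - y| := by rw [abs_of_nonneg (by omega)]; omega
    rwa [e2] at h1
  · have h1 := S_lip_aux h (y - x).toNat x
    have e : x + ((y - x).toNat : ℤ) = y := by omega
    rw [e] at h1
    have e2 : ((y - x).toNat : ℤ) = |x - y| := by rw [abs_of_nonpos (by omega)]; omega
    rw [e2] at h1
    rwa [abs_sub_comm]

end Pool.Agent.W2helper62.Ht
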