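import Pool.Agent.W2helper62.HtMain

set_option autoImplicit false

/-! The sixteen products of `Φ_1, Φ_p, Φ_q, Φ_{pq}` times `g(X ^ q)`. -/

namespace Pool.Agent.W2helper62.Ht

open Polynomial Finset

section

lemma cb {A : ℤ} {f g : ℤ[X]} (h : Bd A g) (e : f = g) : Bd A f := e ▸ h

variable {p q : ℕ}

lemma cyc_p (hp : p.Prime) : cyclotomic p ℤ = ∑ i ∈ range p, X ^ i := by
  haveI := Fact.mk hp
  exact cyclotomic_prime ℤ p

lemma one_mul_cyc (hp : p.Prime) : (X - 1) * cyclotomic p ℤ = X ^ p - 1 := by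
  rw [cyc_p hp, mul_comm]
  exact geom_sum_mul X p

lemma cyc_mul (hp : p.Prime) (hq : q.Prime) (hpq : p ≠ q) :
    cyclotomic q ℤ * cyclotomic (p * q) ℤ = ∑ i ∈ range q, X ^ (p * i) := by
  have h1 : ¬ p ∣ q := fun h => hpq ((Nat.prime_dvd_prime_iff_eq hp hq).1 h)
  have h2 := cyclotomic_expand_eq_cyclotomic_mul hp h1 ℤ
  rw [mul_comm q p, mul_comm] at h2
  rw [← h2, cyc_p hq, map_sum]
  refine sum_congr rfl fun i _ => ?_
  rw [map_pow, expand_X, ← pow_mul]

lemma cyc_mul' (hp : p.Prime) (hq : q.Prime) (hpq : p ≠ q) :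
    cyclotomic p ℤ * cyclotomic (p * q) ℤ = expand ℤ q (∑ i ∈ range p, X ^ i) := by
  have h1 : ¬ q ∣ p := fun h => hpq ((Nat.prime_dvd_prime_iff_eq hq hp).1 h).symm
  have h2 := cyclotomic_expand_eq_cyclotomic_mul hq h1 ℤ
  rw [mul_comm] at h2
  rw [← h2, cyc_p hp]

lemma hf_eq (hp : p.Prime) (hq : q.Prime) (hpq : p ≠ q) (g : ℤ[X]) :
    (X ^ q - 1) * (cyclotomic (p * q) ℤ * expand ℤ q g) =
      (X - 1) * ((∑ i ∈ range q, X ^ (p * i)) * expand ℤ q g) := by
  rw [← one_mul_cyc hq, ← cyc_mul hp hq hpq]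
  ring

lemma bd_geom (hp : 0 < p) {A : ℤ} {f : ℤ[X]} (h : Bd A f) :
    Bd (p * A) ((∑ i ∈ range p, X ^ i) * f) := by
  have := bd_sum_mul h (range p) (fun i => i)
  rwa [card_range] at this

lemma bd_geom_expand (hq : 2 ≤ q) {A : ℤ} {g : ℤ[X]} (h : Bd A g) :
    Bd A ((∑ i ∈ range q, X ^ i) * expand ℤ q g) := by
  intro j
  have hq0 : (0 : ℤ) < q := by exact_mod_cast (by omega : 0 < q)
  rw [coeff_sum_mul_expand (by omega) g (range q) (fun i => i) j (j % q)]
  · exact abs_ext h _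
  · rw [mem_range]; exact Nat.mod_lt _ (by omega)
  · push_cast; exact Int.dvd_self_sub_of_emod_eq rfl
  · intro i hi hdi
    rw [mem_range] at hi
    have h1 : (j : ℤ) % q = i % q := Int.emod_eq_emod_iff_emod_sub_eq_zero.2 (Int.emod_eq_zero_of_dvd hdi)
    have h2 : j % q = i % q := by exact_mod_cast h1
    rw [h2, Nat.mod_eq_of_lt hi]

lemma bd_T (hq : 2 ≤ q) (hpq : p.Coprime q) {A : ℤ} {g : ℤ[X]} (h : Bd A g) :
    Bd A ((∑ i ∈ range q, X ^ (p * i)) * expand ℤ q g) := by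
  obtain ⟨s, -, -, hs⟩ := exists_inv hq hpq
  intro j
  rw [coeff_T hq hpq hs]
  exact abs_ext h _

/-- all the sixteen products -/
theorem bd_all (hp : p.Prime) (hq : q.Prime) (hpq : p < q) {A : ℤ} {g : ℤ[X]} (h : Bd A g)
    (a₀ a₁ a₂ a₃ : Prop) [Decidable a₀] [Decidable a₁] [Decidable a₂] [Decidable a₃] :
    Bd (p * A) (((if a₀ then cyclotomic 1 ℤ else 1) * ((if a₁ then cyclotomic p ℤ else 1) *
      ((if a₂ then cyclotomic q ℤ else 1) * (if a₃ then cyclotomic (p * q) ℤ else 1)))) *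
      expand ℤ q g) := by
  have hne : p ≠ q := hpq.ne
  have hcop : p.Coprime q := (Nat.coprime_primes hp hq).2 hne
  have h2p := hp.two_le
  have h2q := hq.two_le
  have hA := h.nonneg
  have hpZ : (2 : ℤ) ≤ p := by exact_mod_cast h2p
  have l1 : A ≤ p * A := by nlinarith
  have l2 : 2 * A ≤ p * A := by nlinarith
  have hE : Bd A (expand ℤ q g) := bd_expand (by omega) h
  have hQ : Bd A (cyclotomic q ℤ * expand ℤ q g) := by rw [cyc_p hq]; exact bd_geom_expand h2q h
  have hT : Bd A (cyclotomic q ℤ * cyclotomic (p * q) ℤ * expand ℤ q g) := by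
    rw [cyc_mul hp hq hne]; exact bd_T h2q hcop h
  have hX : ∀ {A' : ℤ} {F : ℤ[X]}, Bd A' F → Bd (2 * A') ((X - 1) * F) := by
    intro A' F hF
    have := bd_Xpow_sub hF 1
    rwa [pow_one] at this
  have hXp : ∀ {F : ℤ[X]}, Bd A F → Bd (2 * A) ((X - 1) * (cyclotomic p ℤ * F)) := by
    intro F hF
    rw [← mul_assoc, one_mul_cyc hp]
    exact bd_Xpow_sub hF p
  have hP : ∀ {F : ℤ[X]}, Bd A F → Bd (p * A) (cyclotomic p ℤ * F) := by
    intro F hF
    rw [cyc_p hp]
    exact bd_geom hp.pos hF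
  have hPE : cyclotomic p ℤ * cyclotomic (p * q) ℤ * expand ℤ q g =
      expand ℤ q ((∑ i ∈ range p, X ^ i) * g) := by rw [cyc_mul' hp hq hne, map_mul]
  have hPg : Bd (p * A) ((∑ i ∈ range p, X ^ i) * g) := bd_geom hp.pos h
  have hR : Bd (p * A) (cyclotomic (p * q) ℤ * expand ℤ q g) :=
    bd_h h2p h2q hcop h (hf_eq hp hq hne g)
  have hR1 : Bd (p * A) ((X - 1) * (cyclotomic (p * q) ℤ * expand ℤ q g)) :=
    bd_sub_h h2p h2q hcop h (hf_eq hp hq hne g)
  rw [cyclotomic_one]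
  split_ifs
  · exact cb ((hXp hT).mono l2) (by ring)
  · exact cb ((hXp hQ).mono l2) (by ring)
  · have h3 := bd_sub_one_expand h2q hPg
    rw [← hPE] at h3
    exact cb h3 (by ring)
  · exact cb ((hXp hE).mono l2) (by ring)
  · exact cb ((hX hT).mono l2) (by ring)
  · exact cb ((hX hQ).mono l2) (by ring)
  · exact cb hR1 (by ring)
  · exact cb ((hX hE).mono l2) (by ring)
  · exact cb (hP hT) (by ring)
  · exact cb (hP hQ) (by ring)
  · have h3 := bd_expand (by omega : 0 < q) hPg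
    rw [← hPE] at h3
    exact cb h3 (by ring)
  · exact cb (hP hE) (by ring)
  · exact cb (hT.mono l1) (by ring)
  · exact cb (hQ.mono l1) (by ring)
  · exact cb hR (by ring)
  · exact cb (hE.mono l1) (by ring)

/-- the block of `Φ_p Φ_q g(X ^ q)` -/
theorem coeff_block (hp : p.Prime) (hq : q.Prime) (hpq : p < q) (g : ℤ[X]) (k : ℕ) :
    (cyclotomic p ℤ * (cyclotomic q ℤ * expand ℤ q g)).coeff (q * k + (q - 1)) = p * g.coeff k := by
  have h2q := hq.two_le
  have hQ : ∀ r < q, (cyclotomic q ℤ * expand ℤ q g).coeff (q * k + r) = g.coeff k := by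
    intro r hr
    rw [cyc_p hq, coeff_sum_mul_expand (by omega) g (range q) (fun i => i) (q * k + r) r]
    · unfold ext
      have e : (((q * k + r : ℕ) : ℤ) - r) = q * k := by push_cast; ring
      rw [e, Int.mul_ediv_cancel_left _ (by omega), if_pos (Int.natCast_nonneg _), Int.toNat_natCast]
    · rw [mem_range]; exact hr
    · push_cast
      exact ⟨k, by ring⟩
    · intro i hi hdi
      rw [mem_range] at hi
      have h1 : (q : ℤ) ∣ (r : ℤ) - i := by
        have h2 : (q : ℤ) ∣ (q * k : ℤ) := Dvd.intro _ rfl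
        have h3 := dvd_sub hdi h2
        have e : ((q * k + r : ℕ) : ℤ) - i - q * k = (r : ℤ) - i := by push_cast; ring
        rwa [e] at h3
      have h4 : (r : ℤ) - i = 0 := by
        apply Int.eq_zero_of_abs_lt_dvd h1
        rw [abs_lt]
        constructor <;> omega
      omega
  rw [cyc_p hp, sum_mul, finsetSum_coeff]
  have : ∀ i ∈ range p, (X ^ i * (cyclotomic q ℤ * expand ℤ q g)).coeff (q * k + (q - 1)) =
      g.coeff k := by
    intro i hi
    rw [mem_range] at hi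
    rw [coeff_X_pow_mul', if_pos (by omega)]
    have e : q * k + (q - 1) - i = q * k + (q - 1 - i) := by omega
    rw [e, hQ _ (by omega)]
  rw [sum_congr rfl this, sum_const, card_range, nsmul_eq_mul]

end

end Pool.Agent.W2helper62.Ht
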