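import Pool.Agent.W2helper62.HtBasic

set_option autoImplicit false

/-! The coefficients of `Φ_{pq}` times a polynomial in `X ^ q`. -/

namespace Pool.Agent.W2helper62.Ht

open Polynomial Finset

section steps

variable (p q s : ℤ)

/-- the index `i` with `p i ≡ j` modulo `q` -/
def ii (j : ℤ) : ℤ := (j * s) % q

/-- the quotient -/
def kk (j : ℤ) : ℤ := (j - p * ii q s j) / q

variable {p q s}

lemma ii_nonneg (hq : 0 < q) (j : ℤ) : 0 ≤ ii q s j := Int.emod_nonneg _ hq.ne'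

lemma ii_lt (hq : 0 < q) (j : ℤ) : ii q s j < q := Int.emod_lt_of_pos _ hq

lemma dvd_ii (hs : q ∣ p * s - 1) (j : ℤ) : q ∣ j - p * ii q s j := by
  have h1 : q ∣ j * s - ii q s j := Int.dvd_self_sub_of_emod_eq rfl
  have h2 : j - p * ii q s j = p * (j * s - ii q s j) - j * (p * s - 1) := by ring
  rw [h2]
  exact dvd_sub (Dvd.dvd.mul_left h1 p) (Dvd.dvd.mul_left hs j)

lemma mul_kk (hs : q ∣ p * s - 1) (j : ℤ) : q * kk p q s j = j - p * ii q s j :=
  Int.mul_ediv_cancel' (dvd_ii hs j)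

lemma ii_sub (j : ℤ) : ii q s (j - q) = ii q s j := by
  unfold ii
  have : (j - q) * s = j * s + q * (-s) := by ring
  rw [this, Int.add_mul_emod_self_left]

lemma kk_sub (hq : 0 < q) (hs : q ∣ p * s - 1) (j : ℤ) : kk p q s (j - q) = kk p q s j - 1 := by
  have h1 := mul_kk hs (j - q)
  have h2 := mul_kk hs j
  rw [ii_sub] at h1
  have h3 : q * (kk p q s (j - q) - (kk p q s j - 1)) = 0 := by
    rw [mul_sub, mul_sub, h1, h2]
    ring
  rcases mul_eq_zero.1 h3 with h | h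
  · omega
  · linarith

lemma kk_nonpos (hp : 0 ≤ p) (hq : 0 < q) {j : ℤ} (hs : q ∣ p * s - 1) (hj : j < q) :
    kk p q s j ≤ 0 := by
  have h1 := mul_kk hs j
  have h2 : 0 ≤ p * ii q s j := mul_nonneg hp (ii_nonneg hq j)
  by_contra hcon
  push Not at hcon
  have h3 : q * 1 ≤ q * kk p q s j := mul_le_mul_of_nonneg_left (by omega) hq.le
  linarith

lemma kk_neg (hp : 0 ≤ p) (hq : 0 < q) {j : ℤ} (hs : q ∣ p * s - 1) (hj : j < 0) :
    kk p q s j < 0 := by
  have h1 := mul_kk hs j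
  have h2 : 0 ≤ p * ii q s j := mul_nonneg hp (ii_nonneg hq j)
  by_contra hcon
  push Not at hcon
  have h3 : 0 ≤ q * kk p q s j := mul_nonneg hq.le hcon
  linarith

lemma ii_step (hq : 0 < q) (hs0 : 0 ≤ s) (hsq : s < q) (j : ℤ) :
    ii q s j - ii q s (j - 1) = s ∨ ii q s j - ii q s (j - 1) = s - q := by
  have h1 : q ∣ j * s - ii q s j := Int.dvd_self_sub_of_emod_eq rfl
  have h2 : q ∣ (j - 1) * s - ii q s (j - 1) := Int.dvd_self_sub_of_emod_eq rfl
  have h3 : q ∣ (ii q s j - ii q s (j - 1)) - s := by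
    have : (ii q s j - ii q s (j - 1)) - s =
        ((j - 1) * s - ii q s (j - 1)) - (j * s - ii q s j) := by ring
    rw [this]
    exact dvd_sub h2 h1
  obtain ⟨c, hc⟩ := h3
  have b1 := ii_nonneg (s := s) hq j
  have b2 := ii_lt (s := s) hq j
  have b3 := ii_nonneg (s := s) hq (j - 1)
  have b4 := ii_lt (s := s) hq (j - 1)
  have c1 : c < 1 := by
    by_contra hcon
    push Not at hcon
    have : q * 1 ≤ q * c := mul_le_mul_of_nonneg_left hcon hq.le
    linarith
  have c2 : -2 < c := by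
    by_contra hcon
    push Not at hcon
    have : q * c ≤ q * (-2) := mul_le_mul_of_nonneg_left hcon hq.le
    linarith
  have c3 : c = 0 ∨ c = -1 := by omega
  rcases c3 with rfl | rfl
  · left; linarith
  · right; linarith

/-- the two steps together have length at most `p` -/
lemma steps (hp : 2 ≤ p) (hq : 2 ≤ q) (hs0 : 0 ≤ s) (hsq : s < q) (hs : q ∣ p * s - 1) (j : ℤ) :
    |kk p q s j - kk p q s (j - 1)| + |kk p q s (j - 2) - kk p q s (j - 1)| ≤ p := by
  have hq0 : 0 < q := by omega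
  have hs1 : 1 ≤ s := by
    by_contra hcon
    have : s = 0 := by omega
    rw [this] at hs
    have h1 : q ∣ 1 := by
      have : p * 0 - 1 = -(1 : ℤ) := by ring
      rw [this] at hs
      exact (dvd_neg).1 hs
    have := Int.le_of_dvd one_pos h1
    omega
  obtain ⟨d1, hd1⟩ : ∃ d, d = kk p q s j - kk p q s (j - 1) := ⟨_, rfl⟩
  obtain ⟨d2, hd2⟩ : ∃ d, d = kk p q s (j - 1) - kk p q s (j - 2) := ⟨_, rfl⟩
  obtain ⟨e1, he1⟩ : ∃ e, e = ii q s j - ii q s (j - 1) := ⟨_, rfl⟩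
  obtain ⟨e2, he2⟩ : ∃ e, e = ii q s (j - 1) - ii q s (j - 2) := ⟨_, rfl⟩
  have m0 := mul_kk hs j
  have m1 := mul_kk hs (j - 1)
  have m2 := mul_kk hs (j - 2)
  have q1 : q * d1 = 1 - p * e1 := by rw [hd1, he1, mul_sub, m0, m1]; ring
  have q2 : q * d2 = 1 - p * e2 := by rw [hd2, he2, mul_sub, m1, m2]; ring
  have s1 := ii_step hq0 hs0 hsq j
  have s2 := ii_step hq0 hs0 hsq (j - 1)
  have e : j - 1 - 1 = j - 2 := by ring
  rw [e] at s2
  rw [← he1] at s1
  rw [← he2] at s2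
  have b1 := ii_nonneg (s := s) hq0 j
  have b2 := ii_lt (s := s) hq0 j
  have b3 := ii_nonneg (s := s) hq0 (j - 2)
  have b4 := ii_lt (s := s) hq0 (j - 2)
  have hsum : e1 + e2 = ii q s j - ii q s (j - 2) := by rw [he1, he2]; ring
  have hps : 2 ≤ p * s := by nlinarith
  have hpqs : 2 ≤ p * (q - s) := by nlinarith
  rw [abs_sub_comm (kk p q s (j - 2)), ← hd1, ← hd2]
  rcases s1 with s1 | s1 <;> rcases s2 with s2 | s2
  · -- both steps `s`
    have hd1n : d1 < 0 := by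
      by_contra hcon; push Not at hcon
      have : 0 ≤ q * d1 := mul_nonneg hq0.le hcon
      rw [q1, s1] at this; linarith
    have hd2n : d2 < 0 := by
      by_contra hcon; push Not at hcon
      have : 0 ≤ q * d2 := mul_nonneg hq0.le hcon
      rw [q2, s2] at this; linarith
    rw [abs_of_neg hd1n, abs_of_neg hd2n]
    by_contra hcon; push Not at hcon
    have h1 : q * p ≤ q * (-d1 + -d2) := mul_le_mul_of_nonneg_left hcon.le hq0.le
    have h2 : q * (-d1 + -d2) = 2 * (p * s) - 2 := by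
      rw [s1] at q1; rw [s2] at q2; linarith
    have h3 : 2 * s ≤ q - 1 := by rw [s1, s2] at hsum; linarith
    have h4 : p * (2 * s) ≤ p * (q - 1) := mul_le_mul_of_nonneg_left h3 (by omega)
    nlinarith
  · have hd1n : d1 < 0 := by
      by_contra hcon; push Not at hcon
      have : 0 ≤ q * d1 := mul_nonneg hq0.le hcon
      rw [q1, s1] at this; linarith
    have hd2n : 0 < d2 := by
      by_contra hcon; push Not at hcon
      have : q * d2 ≤ 0 := mul_nonpos_of_nonneg_of_nonpos hq0.le hcon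
      rw [q2, s2] at this; nlinarith
    rw [abs_of_neg hd1n, abs_of_pos hd2n]
    have h1 : q * (-d1 + d2) = q * p := by
      rw [s1] at q1; rw [s2] at q2; linarith
    have := mul_left_cancel₀ hq0.ne' h1
    linarith
  · have hd1n : 0 < d1 := by
      by_contra hcon; push Not at hcon
      have : q * d1 ≤ 0 := mul_nonpos_of_nonneg_of_nonpos hq0.le hcon
      rw [q1, s1] at this; nlinarith
    have hd2n : d2 < 0 := by
      by_contra hcon; push Not at hcon
      have : 0 ≤ q * d2 := mul_nonneg hq0.le hcon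
      rw [q2, s2] at this; linarith
    rw [abs_of_pos hd1n, abs_of_neg hd2n]
    have h1 : q * (d1 + -d2) = q * p := by
      rw [s1] at q1; rw [s2] at q2; linarith
    have := mul_left_cancel₀ hq0.ne' h1
    linarith
  · have hd1n : 0 < d1 := by
      by_contra hcon; push Not at hcon
      have : q * d1 ≤ 0 := mul_nonpos_of_nonneg_of_nonpos hq0.le hcon
      rw [q1, s1] at this; nlinarith
    have hd2n : 0 < d2 := by
      by_contra hcon; push Not at hcon
      have : q * d2 ≤ 0 := mul_nonpos_of_nonneg_of_nonpos hq0.le hcon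
      rw [q2, s2] at this; nlinarith
    rw [abs_of_pos hd1n, abs_of_pos hd2n]
    by_contra hcon; push Not at hcon
    have h1 : q * (p + 1) ≤ q * (d1 + d2) := mul_le_mul_of_nonneg_left (by omega) hq0.le
    have h2 : q * (d1 + d2) = 2 + p * (2 * (q - s)) := by
      rw [s1] at q1; rw [s2] at q2; linarith
    have h3 : 2 * (q - s) ≤ q - 1 := by rw [s1, s2] at hsum; linarith
    have h4 : p * (2 * (q - s)) ≤ p * (q - 1) := mul_le_mul_of_nonneg_left h3 (by omega)
    nlinarith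

end steps

/-- an inverse of `p` modulo `q` -/
lemma exists_inv {p q : ℕ} (hq : 2 ≤ q) (h : p.Coprime q) :
    ∃ s : ℤ, 0 ≤ s ∧ s < q ∧ (q : ℤ) ∣ p * s - 1 := by
  refine ⟨(Nat.gcdA p q) % q, Int.emod_nonneg _ (by omega), Int.emod_lt_of_pos _ (by omega), ?_⟩
  have h1 := Nat.gcd_eq_gcd_ab p q
  rw [h] at h1
  have h2 : (q : ℤ) ∣ Nat.gcdA p q - (Nat.gcdA p q) % q := Int.dvd_self_sub_of_emod_eq rfl
  have h3 : (p : ℤ) * (Nat.gcdA p q % q) - 1 =
      -(p * (Nat.gcdA p q - (Nat.gcdA p q) % q)) - q * Nat.gcdB p q := by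
    push_cast at h1
    linear_combination -h1
  rw [h3]
  exact dvd_sub ((dvd_neg).2 (Dvd.dvd.mul_left h2 _)) (Dvd.intro _ rfl)

/-- the coefficients of `T(X) g(X ^ q)`, `T = 1 + X ^ p + ... + X ^ (p (q - 1))` -/
lemma coeff_T {p q : ℕ} (hq : 2 ≤ q) (h : p.Coprime q) {s : ℤ}
    (hs : (q : ℤ) ∣ p * s - 1) (g : ℤ[X]) (j : ℕ) :
    ((∑ i ∈ range q, X ^ (p * i)) * expand ℤ q g).coeff j = ext g (kk p q s j) := by
  have hq0 : (0 : ℤ) < q := by exact_mod_cast (by omega : 0 < q)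
  have b1 := ii_nonneg (s := s) hq0 (j : ℤ)
  have b2 := ii_lt (s := s) hq0 (j : ℤ)
  obtain ⟨i₀, hi₀⟩ : ∃ i : ℕ, (i : ℤ) = ii q s j := ⟨(ii q s j).toNat, by omega⟩
  have hd := dvd_ii hs (j : ℤ)
  rw [← hi₀] at hd b2
  rw [coeff_sum_mul_expand (by omega) g (range q) (fun i => p * i) j i₀]
  · unfold kk
    rw [← hi₀]
    push_cast
    rfl
  · rw [mem_range]; exact_mod_cast b2
  · push_cast; exact hd
  · intro i hi hdi
    rw [mem_range] at hi
    push_cast at hdi
    have h1 := dvd_sub hd hdi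
    have h2 : (j : ℤ) - p * i₀ - (j - p * i) = p * ((i : ℤ) - i₀) := by ring
    rw [h2] at h1
    have h3 : (q : ℤ) ∣ (i : ℤ) - i₀ := by
      refine IsCoprime.dvd_of_dvd_mul_left ?_ h1
      exact (Nat.isCoprime_iff_coprime.2 h).symm
    have h4 : (i : ℤ) - i₀ = 0 := by
      apply Int.eq_zero_of_abs_lt_dvd h3
      rw [abs_lt]
      have : (0 : ℤ) ≤ i₀ := Int.natCast_nonneg _
      have : (i : ℤ) < q := by exact_mod_cast hi
      constructor <;> omega
    omega

/-- the coefficients of `Φ_{pq}(X) g(X ^ q)`, from the identity `(X ^ q - 1) h = (X - 1) T g(X ^ q)` -/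
lemma coeff_h {p q : ℕ} (hq : 2 ≤ q) (h : p.Coprime q) {s : ℤ}
    (hs : (q : ℤ) ∣ p * s - 1) (g f : ℤ[X])
    (hf : (X ^ q - 1) * f = (X - 1) * ((∑ i ∈ range q, X ^ (p * i)) * expand ℤ q g)) (j : ℕ) :
    f.coeff j = S g (kk p q s j) - S g (kk p q s ((j : ℤ) - 1)) := by
  have hq0 : (0 : ℤ) < q := by exact_mod_cast (by omega : 0 < q)
  have hp0 : (0 : ℤ) ≤ p := Int.natCast_nonneg _
  induction j using Nat.strong_induction_on with
  | _ j ih =>
  have h1 : ((X ^ q - 1) * f).coeff j =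
      ((X - 1) * ((∑ i ∈ range q, X ^ (p * i)) * expand ℤ q g)).coeff j := by rw [hf]
  have e1 : (X ^ q - 1) * f = X ^ q * f - f := by ring
  have e2 : (X - 1) * ((∑ i ∈ range q, X ^ (p * i)) * expand ℤ q g) =
      X ^ 1 * ((∑ i ∈ range q, X ^ (p * i)) * expand ℤ q g) -
        ((∑ i ∈ range q, X ^ (p * i)) * expand ℤ q g) := by ring
  rw [e1, e2, coeff_sub, coeff_sub, coeff_X_pow_mul', coeff_X_pow_mul'] at h1
  have h2 : (if 1 ≤ j then ((∑ i ∈ range q, X ^ (p * i)) * expand ℤ q g).coeff (j - 1) else 0) =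
      ext g (kk p q s ((j : ℤ) - 1)) := by
    split_ifs with hj
    · rw [coeff_T hq h hs]
      congr 2
      push_cast [hj]
      ring
    · have hj0 : j = 0 := by omega
      subst hj0
      have := kk_neg (s := s) hp0 hq0 (j := ((0 : ℕ) : ℤ) - 1) hs (by norm_num)
      unfold ext
      rw [if_neg (by omega)]
  rw [h2, coeff_T hq h hs] at h1
  by_cases hjq : q ≤ j
  · rw [if_pos hjq, ih (j - q) (by omega)] at h1
    have e3 : ((j - q : ℕ) : ℤ) = (j : ℤ) - q := by push_cast [hjq]; ring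
    have e4 : (j : ℤ) - q - 1 = ((j : ℤ) - 1) - q := by ring
    rw [e3, e4, kk_sub hq0 hs, kk_sub hq0 hs] at h1
    have s1 := S_succ g (kk p q s j)
    have s2 := S_succ g (kk p q s ((j : ℤ) - 1))
    linarith
  · rw [if_neg hjq] at h1
    push Not at hjq
    have s1 := S_succ g (kk p q s j)
    have s2 := S_succ g (kk p q s ((j : ℤ) - 1))
    have k1 : kk p q s j ≤ 0 := kk_nonpos hp0 hq0 hs (by exact_mod_cast hjq)
    have k2 : kk p q s ((j : ℤ) - 1) ≤ 0 := kk_nonpos hp0 hq0 hs (by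
      have : (j : ℤ) < q := by exact_mod_cast hjq
      omega)
    rw [S_neg g (by omega : kk p q s j - 1 < 0)] at s1
    rw [S_neg g (by omega : kk p q s ((j : ℤ) - 1) - 1 < 0)] at s2
    linarith

/-- `Φ_{pq}(X) g(X ^ q)` -/
lemma bd_h {A : ℤ} {p q : ℕ} (hp : 2 ≤ p) (hq : 2 ≤ q) (h : p.Coprime q) {g f : ℤ[X]} (hg : Bd A g)
    (hf : (X ^ q - 1) * f = (X - 1) * ((∑ i ∈ range q, X ^ (p * i)) * expand ℤ q g)) :
    Bd (p * A) f := by
  obtain ⟨s, hs0, hsq, hs⟩ := exists_inv hq h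
  intro j
  rw [coeff_h hq h hs g f hf]
  have h1 := S_lip hg (kk p q s j) (kk p q s ((j : ℤ) - 1))
  have h2 := steps (by exact_mod_cast hp) (by exact_mod_cast hq) hs0 hsq hs (j : ℤ)
  have h3 := abs_nonneg (kk p q s ((j : ℤ) - 2) - kk p q s ((j : ℤ) - 1))
  have h4 : A * |kk p q s j - kk p q s ((j : ℤ) - 1)| ≤ A * p :=
    mul_le_mul_of_nonneg_left (by linarith) hg.nonneg
  linarith

/-- `(X - 1) Φ_{pq}(X) g(X ^ q)` -/
lemma bd_sub_h {A : ℤ} {p q : ℕ} (hp : 2 ≤ p) (hq : 2 ≤ q) (h : p.Coprime q) {g f : ℤ[X]}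
    (hg : Bd A g)
    (hf : (X ^ q - 1) * f = (X - 1) * ((∑ i ∈ range q, X ^ (p * i)) * expand ℤ q g)) :
    Bd (p * A) ((X - 1) * f) := by
  obtain ⟨s, hs0, hsq, hs⟩ := exists_inv hq h
  have hq0 : (0 : ℤ) < q := by exact_mod_cast (by omega : 0 < q)
  have hp0 : (0 : ℤ) ≤ p := Int.natCast_nonneg _
  intro j
  have key : ((X - 1) * f).coeff j =
      (S g (kk p q s ((j : ℤ) - 1)) - S g (kk p q s ((j : ℤ) - 2))) -
        (S g (kk p q s j) - S g (kk p q s ((j : ℤ) - 1))) := by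
    have e1 : (X - 1) * f = X ^ 1 * f - f := by ring
    rw [e1, coeff_sub, coeff_X_pow_mul', coeff_h hq h hs g f hf j]
    split_ifs with hj
    · rw [coeff_h hq h hs g f hf]
      have e2 : ((j - 1 : ℕ) : ℤ) = (j : ℤ) - 1 := by push_cast [hj]; ring
      have e3 : (j : ℤ) - 1 - 1 = (j : ℤ) - 2 := by ring
      rw [e2, e3]
    · have hj0 : j = 0 := by omega
      subst hj0
      have k1 := kk_neg (s := s) hp0 hq0 (j := ((0 : ℕ) : ℤ) - 1) hs (by norm_num)
      have k2 := kk_neg (s := s) hp0 hq0 (j := ((0 : ℕ) : ℤ) - 2) hs (by norm_num)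
      rw [S_neg g k1, S_neg g k2]
      ring
  rw [key]
  have h1 := S_lip hg (kk p q s j) (kk p q s ((j : ℤ) - 1))
  have h1' := S_lip hg (kk p q s ((j : ℤ) - 2)) (kk p q s ((j : ℤ) - 1))
  have h2 := steps (by exact_mod_cast hp) (by exact_mod_cast hq) hs0 hsq hs (j : ℤ)
  have h4 : A * (|kk p q s j - kk p q s ((j : ℤ) - 1)| +
      |kk p q s ((j : ℤ) - 2) - kk p q s ((j : ℤ) - 1)|) ≤ A * p :=
    mul_le_mul_of_nonneg_left (by linarith) hg.nonneg
  have h5 := abs_sub (S g (kk p q s ((j : ℤ) - 1)) - S g (kk p q s ((j : ℤ) - 2)))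
    (S g (kk p q s j) - S g (kk p q s ((j : ℤ) - 1)))
  rw [abs_sub_comm (S g (kk p q s ((j : ℤ) - 1)))] at h5
  linarith

end Pool.Agent.W2helper62.Ht
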