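import Pool.Agent.W2helper62.MI4
import Pool.Agent.N798.H.All

set_option autoImplicit false

/-! Chains `c_0 = q`, `c_{j+1} = ⌊α_j c_j⌋ + b_j` with almost all multipliers: deterministic part, the passage from thin
sets of exceptions to all `n`. -/

namespace Pool.Agent.W2helper62.MC

open Finset MeasureTheory Filter Topology
open Pool.Agent.N798.HS (Sq Thin thin_mono)

/-- the chain -/
noncomputable def ch (α : ℕ → ℝ) (b : ℕ → ℤ) (q : ℤ) : ℕ → ℤ
  | 0 => q
  | j + 1 => ⌊α j * (ch α b q j : ℝ)⌋ + b j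

lemma ch_congr {α α' : ℕ → ℝ} {b b' : ℕ → ℤ} (q : ℤ) {m : ℕ} (h : ∀ j < m, α j = α' j ∧ b j = b' j) :
    ∀ j ≤ m, ch α b q j = ch α' b' q j := by
  intro j
  induction j with
  | zero => intro _; rfl
  | succ j ih =>
    intro hj
    have h1 := h j (by omega)
    unfold ch
    rw [ih (by omega), h1.1, h1.2]

/-- the chain does not decrease, for large `q` -/
lemma ch_ge (α : ℕ → ℝ) (b : ℕ → ℤ) : ∀ t : ℕ, (∀ j < t, 1 < α j) → ∃ q₀ : ℤ, 1 ≤ q₀ ∧ ∀ q : ℤ, q₀ ≤ q → ∀ j ≤ t, q ≤ ch α b q j := by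
  intro t
  induction t with
  | zero =>
    intro _
    exact ⟨1, le_rfl, fun q _ j hj => by
      have : j = 0 := by omega
      rw [this]
      exact le_rfl⟩
  | succ t ih =>
    intro hα
    obtain ⟨q₀, h0, h1⟩ := ih fun j hj => hα j (by omega)
    have hαt := hα t (by omega)
    obtain ⟨N, hN⟩ := exists_nat_ge ((1 + |(b t : ℝ)|) / (α t - 1))
    refine ⟨max q₀ N, le_max_of_le_left h0, fun q hq j hj => ?_⟩
    have hq0 : q₀ ≤ q := (le_max_left _ _).trans hq
    rcases Nat.lt_or_ge t j with hlt | hge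
    · have hj' : j = t + 1 := by omega
      rw [hj']
      have h2 := h1 q hq0 t le_rfl
      unfold ch
      have hqN : (N : ℝ) ≤ q := by exact_mod_cast (le_max_right q₀ (N : ℤ)).trans hq
      have h3 : (1 + |(b t : ℝ)|) ≤ (α t - 1) * q := by
        have := hN.trans hqN
        rw [div_le_iff₀ (by linarith)] at this
        linarith
      have h4 : (q : ℝ) ≤ ch α b q t := by exact_mod_cast h2
      have h5 : (α t - 1) * q ≤ (α t - 1) * (ch α b q t : ℝ) := mul_le_mul_of_nonneg_left h4 (by linarith)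
      have h6 : ((q - b t : ℤ) : ℝ) ≤ α t * (ch α b q t : ℝ) := by
        push_cast
        have := neg_abs_le (b t : ℝ)
        nlinarith
      have h7 := Int.le_floor.2 h6
      linarith
    · exact h1 q hq0 j hge

/-- the chain is strictly increasing in `q` -/
lemma ch_mono (α : ℕ → ℝ) (b : ℕ → ℤ) (t : ℕ) (hα : ∀ j < t, 1 < α j) {q q' : ℤ} (hqq : q < q') :
    ∀ j ≤ t, ch α b q j < ch α b q' j := by
  intro j
  induction j with
  | zero => intro _; exact hqq
  | succ j ih =>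
    intro hj
    have h1 := ih (by omega)
    have hαj := hα j (by omega)
    unfold ch
    have h2 : (ch α b q j : ℝ) + 1 ≤ ch α b q' j := by exact_mod_cast h1
    have h3 : α j * (ch α b q j : ℝ) + 1 ≤ α j * (ch α b q' j : ℝ) := by nlinarith
    have h4 := Int.floor_mono h3
    rw [Int.floor_add_one] at h4
    linarith

/-- upper bound for the chain -/
lemma ch_le (α : ℕ → ℝ) (b : ℕ → ℤ) : ∀ t : ℕ, (∀ j < t, 1 < α j) → ∃ C : ℝ, 1 ≤ C ∧ ∀ q : ℤ, 1 ≤ q → ∀ j ≤ t, (ch α b q j : ℝ) ≤ C * q := by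
  intro t
  induction t with
  | zero =>
    intro _
    exact ⟨1, le_rfl, fun q hq j hj => by
      have : j = 0 := by omega
      rw [this, one_mul]
      exact le_rfl⟩
  | succ t ih =>
    intro hα
    obtain ⟨C, h0, h1⟩ := ih fun j hj => hα j (by omega)
    have hαt := hα t (by omega)
    refine ⟨α t * C + |(b t : ℝ)|, ?_, fun q hq j hj => ?_⟩
    · have := abs_nonneg (b t : ℝ)
      nlinarith
    · have hqr : (1 : ℝ) ≤ q := by exact_mod_cast hq
      have hab := abs_nonneg (b t : ℝ)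
      rcases Nat.lt_or_ge t j with hlt | hge
      · have hj' : j = t + 1 := by omega
        rw [hj']
        have h2 := h1 q hq t le_rfl
        unfold ch
        push_cast
        have h3 := Int.floor_le (α t * (ch α b q t : ℝ))
        have h4 : α t * (ch α b q t : ℝ) ≤ α t * (C * q) := mul_le_mul_of_nonneg_left h2 (by linarith)
        have h5 : (b t : ℝ) ≤ |(b t : ℝ)| * q := by
          have := le_abs_self (b t : ℝ)
          nlinarith
        nlinarith
      · have h2 := h1 q hq j hge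
        have h3 : C * (q : ℝ) ≤ (α t * C + |(b t : ℝ)|) * q := by
          apply mul_le_mul_of_nonneg_right _ (by linarith)
          nlinarith
        linarith

/-- the sequence of the values of the chain, changed at the beginning -/
noncomputable def cseq (α : ℕ → ℝ) (b : ℕ → ℤ) (t : ℕ) (u : ℕ → ℕ) (i₀ : ℕ) (i : ℕ) : ℕ :=
  if i₀ ≤ i then (ch α b (u i) t).toNat else i

lemma le_u {u : ℕ → ℕ} (hu : Sq u) : ∀ i : ℕ, 1 ≤ i → i ≤ u i := by
  intro i hi
  induction i with
  | zero => omega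
  | succ i ih =>
    rcases Nat.eq_zero_or_pos i with h | h
    · rw [h]
      exact hu.2.1
    · have h1 := ih h
      have h2 := hu.1 i (i + 1) h (by omega)
      omega

lemma cseq_sq (α : ℕ → ℝ) (b : ℕ → ℤ) (t : ℕ) (hα : ∀ j < t, 1 < α j) {u : ℕ → ℕ} (hu : Sq u) {q₀ : ℤ} (hq0 : 1 ≤ q₀)
    (hq : ∀ q : ℤ, q₀ ≤ q → ∀ j ≤ t, q ≤ ch α b q j) (i₀ : ℕ) (hi : q₀ ≤ i₀) : Sq (cseq α b t u i₀) := by
  have hge : ∀ i, i₀ ≤ i → ((u i : ℕ) : ℤ) ≤ ch α b (u i) t := by
    intro i hi'
    have h1 := le_u hu i (by omega)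
    exact hq _ (by omega) t le_rfl
  refine ⟨?_, ?_, ?_⟩
  · intro m n hm hmn
    unfold cseq
    by_cases h1 : i₀ ≤ m
    · rw [if_pos h1, if_pos (by omega)]
      have h2 := ch_mono α b t hα (q := u m) (q' := u n) (by exact_mod_cast hu.1 m n hm hmn) t le_rfl
      have h3 := hge m h1
      have h4 := hge n (by omega)
      have h5 := le_u hu m hm
      omega
    · rw [if_neg h1]
      by_cases h2 : i₀ ≤ n
      · rw [if_pos h2]
        have h3 := hge n h2
        have h4 := le_u hu n (by omega)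
        omega
      · rw [if_neg h2]
        exact hmn
  · unfold cseq
    by_cases h1 : i₀ ≤ 1
    · rw [if_pos h1]
      have h3 := hge 1 h1
      have h4 := le_u hu 1 le_rfl
      omega
    · rw [if_neg h1]
  · obtain ⟨C, n0, h1⟩ := hu.2.2
    obtain ⟨D, hD1, hD⟩ := ch_le α b t hα
    have hlog : Tendsto (fun n : ℕ => Real.log (n : ℝ)) atTop atTop :=
      Real.tendsto_log_atTop.comp tendsto_natCast_atTop_atTop
    obtain ⟨n1, hn1⟩ := eventually_atTop.1 (hlog.eventually_ge_atTop D)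
    refine ⟨C + 1, max (max n0 n1) (max i₀ 1), fun n hn => ?_⟩
    have b0 : n0 ≤ n := by omega
    have b1 : n1 ≤ n := by omega
    have b2 : i₀ ≤ n := by omega
    have b3 : 1 ≤ n := by omega
    unfold cseq
    rw [if_pos b2]
    have h3 := hge n b2
    have h4 := le_u hu n b3
    have h5 := hD (u n) (by omega) t le_rfl
    have h6 : (((ch α b (u n) t).toNat : ℕ) : ℝ) = (ch α b (u n) t : ℝ) := by
      have : (((ch α b (u n) t).toNat : ℕ) : ℤ) = ch α b (u n) t := Int.toNat_of_nonneg (by omega)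
      exact_mod_cast this
    rw [h6]
    have h7 := hn1 n b1
    have h8 := h1 n b0
    have hl : 0 ≤ Real.log (n : ℝ) := by linarith
    calc (ch α b (u n) t : ℝ) ≤ D * ((u n : ℕ) : ℤ) := h5
      _ = D * (u n : ℝ) := by push_cast; ring
      _ ≤ Real.log n * (n * Real.log n ^ C) := mul_le_mul h7 h8 (Nat.cast_nonneg _) hl
      _ = _ := by rw [pow_succ]; ring

open Classical in
/-- if `A` is monotone and the asymptotic formula holds outside thin sets then it holds -/
lemma thin_all (A : ℕ → ℝ) (hA : Monotone A) (hA0 : ∀ n, 0 ≤ A n) (k : ℕ)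
    (h : ∀ ε : ℝ, 0 < ε → Thin fun n => ε < |A n * (Real.log n) ^ k / n - 1|) :
    Tendsto (fun n : ℕ => A n * (Real.log n) ^ k / n) atTop (𝓝 1) := by
  rw [Metric.tendsto_atTop]
  intro ε hε
  obtain ⟨δ, hδ⟩ : ∃ δ : ℝ, δ = min (ε / 8) (1 / 8) := ⟨_, rfl⟩
  have hδ0 : 0 < δ := by rw [hδ]; exact lt_min (by linarith) (by norm_num)
  have hδ1 : δ ≤ 1 / 8 := by rw [hδ]; exact min_le_right _ _
  have hδε : 8 * δ ≤ ε := by
    have : δ ≤ ε / 8 := by rw [hδ]; exact min_le_left _ _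
    linarith
  have h1 := h δ hδ0 0
  simp only [pow_zero, mul_one] at h1
  obtain ⟨n1, hn1⟩ := eventually_atTop.1 (h1.eventually_lt_const (show (0 : ℝ) < δ / 4 by linarith))
  have hlog : Tendsto (fun n : ℕ => Real.log (n : ℝ)) atTop atTop :=
    Real.tendsto_log_atTop.comp tendsto_natCast_atTop_atTop
  obtain ⟨n2, hn2⟩ := eventually_atTop.1 (hlog.eventually_ge_atTop 2)
  obtain ⟨n3, hn3⟩ := exists_nat_ge (4 / δ)
  refine ⟨2 * max (max n1 n2) (max n3 4), fun n hn => ?_⟩
  have hn3' : 4 / δ ≤ n := hn3.trans (by exact_mod_cast (by omega : n3 ≤ n))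
  rw [div_le_iff₀ hδ0] at hn3'
  have hn4 : (4 : ℝ) ≤ n := by exact_mod_cast (by omega : 4 ≤ n)
  have hn0 : (0 : ℝ) < n := by linarith
  obtain ⟨d, hd⟩ : ∃ d, d = ⌊δ * n⌋₊ := ⟨_, rfl⟩
  have hd1 : (d : ℝ) ≤ δ * n := by rw [hd]; exact Nat.floor_le (by positivity)
  have hd2 : δ * n - 1 < d := by rw [hd]; exact Nat.sub_one_lt_floor _
  have hdn : d ≤ n := by
    have : (d : ℝ) ≤ n := hd1.trans (by nlinarith)
    exact_mod_cast this
  -- a good number in every block of length `d` up to `n + d`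
  have hgood : ∀ a : ℕ, a ≤ n → ∃ m : ℕ, a < m ∧ m ≤ a + d ∧ |A m * (Real.log m) ^ k / m - 1| ≤ δ := by
    intro a ha
    by_contra hcon
    push Not at hcon
    have h2 := hn1 (n + d) (by omega)
    rw [div_lt_iff₀ (by exact_mod_cast (by omega : 0 < n + d))] at h2
    have h3 : Ioc a (a + d) ⊆ (Icc 1 (n + d)).filter (fun n => δ < |A n * (Real.log n) ^ k / n - 1|) := by
      intro m hm
      rw [mem_Ioc] at hm
      rw [mem_filter, mem_Icc]
      exact ⟨⟨by omega, by omega⟩, hcon m hm.1 hm.2⟩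
    have h4 := card_le_card h3
    rw [Nat.card_Ioc, Nat.add_sub_cancel_left] at h4
    have h5 : (d : ℝ) ≤ (#((Icc 1 (n + d)).filter (fun n => δ < |A n * (Real.log n) ^ k / n - 1|)) : ℝ) := by
      exact_mod_cast h4
    have h6 : ((n + d : ℕ) : ℝ) ≤ 2 * n := by
      push_cast
      have : (d : ℝ) ≤ n := by exact_mod_cast hdn
      linarith
    nlinarith
  obtain ⟨m1, hm1a, hm1b, hm1⟩ := hgood n le_rfl
  obtain ⟨m2, hm2a, hm2b, hm2⟩ := hgood (n - d) (Nat.sub_le _ _)
  have hm2c : m2 ≤ n := by omega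
  have hln : 2 ≤ Real.log n := hn2 n (by omega)
  have hlk : 0 < (Real.log n) ^ k := by positivity
  rw [Real.dist_eq]
  obtain ⟨R, hR⟩ : ∃ R, R = A n * (Real.log n) ^ k / n := ⟨_, rfl⟩
  rw [← hR]
  -- upper bound
  have up : R ≤ (1 + δ) * (1 + δ) := by
    have hm0 : (0 : ℝ) < m1 := by exact_mod_cast (by omega : 0 < m1)
    have hlm : Real.log n ≤ Real.log m1 := Real.log_le_log hn0 (by exact_mod_cast hm1a.le)
    have g1 : A m1 * (Real.log m1) ^ k / m1 ≤ 1 + δ := by linarith [(abs_le.1 hm1).2]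
    rw [div_le_iff₀ hm0] at g1
    have g2 : A n ≤ A m1 := hA hm1a.le
    have g3 : (m1 : ℝ) ≤ (1 + δ) * n := by
      have : (m1 : ℝ) ≤ n + d := by exact_mod_cast hm1b
      linarith
    rw [hR, div_le_iff₀ hn0]
    calc A n * (Real.log n) ^ k ≤ A m1 * (Real.log m1) ^ k :=
          mul_le_mul g2 (pow_le_pow_left₀ (by linarith) hlm k) hlk.le (hA0 _)
      _ ≤ (1 + δ) * m1 := g1
      _ ≤ (1 + δ) * ((1 + δ) * n) := mul_le_mul_of_nonneg_left g3 (by linarith)
      _ = _ := by ring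
  -- lower bound
  have lo : (1 - δ) * (1 - 2 * δ) ≤ R := by
    have hm0 : (0 : ℝ) < m2 := by exact_mod_cast (by omega : 0 < m2)
    have g3 : (1 - 2 * δ) * n ≤ m2 := by
      have : ((n - d : ℕ) : ℝ) ≤ m2 := by exact_mod_cast hm2a.le
      rw [Nat.cast_sub hdn] at this
      nlinarith
    have hm2n : n2 ≤ m2 := by
      have : (n2 : ℝ) ≤ m2 := by
        have e1 : (2 * n2 : ℝ) ≤ n := by exact_mod_cast (by omega : 2 * n2 ≤ n)
        nlinarith
      exact_mod_cast this
    have hlm2 := hn2 m2 hm2n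
    have hlm : Real.log m2 ≤ Real.log n := Real.log_le_log hm0 (by exact_mod_cast hm2c)
    have g1 : 1 - δ ≤ A m2 * (Real.log m2) ^ k / m2 := by linarith [(abs_le.1 hm2).1]
    rw [le_div_iff₀ hm0] at g1
    have g2 : A m2 ≤ A n := hA hm2c
    rw [hR, le_div_iff₀ hn0]
    calc (1 - δ) * (1 - 2 * δ) * n = (1 - δ) * ((1 - 2 * δ) * n) := by ring
      _ ≤ (1 - δ) * m2 := mul_le_mul_of_nonneg_left g3 (by linarith)
      _ ≤ A m2 * (Real.log m2) ^ k := g1
      _ ≤ A n * (Real.log n) ^ k := mul_le_mul g2 (pow_le_pow_left₀ (by linarith) hlm k) (by positivity) (hA0 _)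
  rw [abs_lt]
  constructor <;> nlinarith

end Pool.Agent.W2helper62.MC
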