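import Pool.Agent.W2helper62.MC1

set_option autoImplicit false

/-! Chains with almost all multipliers: the induction over the length. -/

namespace Pool.Agent.W2helper62.MC

open Finset MeasureTheory Filter Topology
open Pool.Agent.N798.HS (Sq Thin thin_mono)

lemma near_one {S Q δ : ℝ} (hδ0 : 0 < δ) (hδ1 : δ ≤ 1 / 4) (hS : |S - 1| ≤ δ) (hQ : |Q - 1| < δ) : |S * Q - 1| ≤ 4 * δ := by
  obtain ⟨s1, s2⟩ := abs_le.1 hS
  obtain ⟨q1, q2⟩ := abs_lt.1 hQ
  have hQ0 : 0 < Q := by linarith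
  have g1 : S * Q ≤ (1 + δ) * Q := mul_le_mul_of_nonneg_right (by linarith) hQ0.le
  have g2 : (1 - δ) * Q ≤ S * Q := mul_le_mul_of_nonneg_right (by linarith) hQ0.le
  have g3 : (1 + δ) * Q ≤ (1 + δ) * (1 + δ) := mul_le_mul_of_nonneg_left (by linarith) (by linarith)
  have g4 : (1 - δ) * (1 - δ) ≤ (1 - δ) * Q := mul_le_mul_of_nonneg_left (by linarith) (by linarith)
  have g5 : δ * δ ≤ 1 / 4 * δ := mul_le_mul_of_nonneg_right hδ1 hδ0.le
  rw [abs_le]
  constructor <;> linarith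

/-- the size of one term of the family -/
lemma one_term {w Lg n A δ ε : ℝ} (m : ℕ) (hn0 : 0 < n) (hL : 2 ≤ Lg) (hw : 0 ≤ w) (hδ0 : 0 < δ) (hδ1 : δ ≤ 1 / 4) (hδε : 4 * δ ≤ ε)
    (hQ : |w * Lg ^ m / n - 1| < δ) (hbad : ε < |A * Lg ^ (m + 1) / n - 1|) :
    n / Lg ^ (m + 1) ≤ w ∧ δ < |A / (w / Lg) - 1| := by
  have hL0 : 0 < Lg := by linarith
  obtain ⟨Q, hQe⟩ : ∃ Q : ℝ, Q = w * Lg ^ m / n := ⟨_, rfl⟩
  rw [← hQe] at hQ
  obtain ⟨q1, q2⟩ := abs_lt.1 hQ
  have hQ0 : 0 < Q := by linarith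
  have hw0 : 0 < w := by
    rcases hw.eq_or_lt with h | h
    · rw [← h, zero_mul, zero_div] at hQe
      linarith
    · exact h
  refine ⟨?_, ?_⟩
  · rw [div_le_iff₀ (by positivity)]
    have e3 : w * Lg ^ m = Q * n := by rw [hQe]; field_simp
    have e4 : w * Lg ^ (m + 1) = (Q * n) * Lg := by rw [← e3, pow_succ]; ring
    rw [e4]
    have e5 : 1 * n ≤ (Q * Lg) * n := mul_le_mul_of_nonneg_right (by nlinarith) hn0.le
    linarith
  · by_contra hcon
    push Not at hcon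
    have e4 : A * Lg ^ (m + 1) / n = (A / (w / Lg)) * Q := by
      rw [hQe, pow_succ]
      field_simp
    rw [e4] at hbad
    have := near_one hδ0 hδ1 hcon hQ
    linarith

open Classical in
/-- the number of the `1 ≤ i ≤ n` with the property `P` -/
noncomputable def cn (P : ℕ → Prop) (n : ℕ) : ℕ := #((Icc 1 n).filter P)

lemma cn_eq (P : ℕ → Prop) [DecidablePred P] (n : ℕ) : cn P n = #((Icc 1 n).filter P) := by
  unfold cn
  congr!

lemma cn_le {P Q : ℕ → Prop} (h : ∀ i, 1 ≤ i → P i → Q i) (n : ℕ) : cn P n ≤ cn Q n := by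
  classical
  unfold cn
  refine card_le_card fun i hi => ?_
  rw [mem_filter] at hi ⊢
  exact ⟨hi.1, h i (mem_Icc.1 hi.1).1 hi.2⟩

lemma cn_congr {P Q : ℕ → Prop} (h : ∀ i, 1 ≤ i → (P i ↔ Q i)) (n : ℕ) : cn P n = cn Q n :=
  le_antisymm (cn_le (fun i hi => (h i hi).1) n) (cn_le (fun i hi => (h i hi).2) n)

lemma cn_add {P Q : ℕ → Prop} (i₀ : ℕ) (h : ∀ i, 1 ≤ i → i₀ ≤ i → P i → Q i) (n : ℕ) : cn P n ≤ cn Q n + i₀ := by
  classical
  unfold cn
  have h1 : (Icc 1 n).filter P ⊆ (Icc 1 n).filter Q ∪ range i₀ := by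
    intro i hi
    rw [mem_filter] at hi
    rw [mem_union, mem_filter, mem_range]
    by_cases h' : i₀ ≤ i
    · exact Or.inl ⟨hi.1, h i (mem_Icc.1 hi.1).1 h' hi.2⟩
    · exact Or.inr (by omega)
  have h2 := (card_le_card h1).trans (card_union_le _ _)
  rw [card_range] at h2
  convert h2

lemma cn_mono (P : ℕ → Prop) {n n' : ℕ} (h : n ≤ n') : cn P n ≤ cn P n' := by
  classical
  unfold cn
  exact card_le_card (filter_subset_filter _ (Icc_subset_Icc le_rfl h))

lemma cn_abs {P Q : ℕ → Prop} (i₀ : ℕ) (h : ∀ i, 1 ≤ i → i₀ ≤ i → (P i ↔ Q i)) (n : ℕ) : |(cn P n : ℝ) - cn Q n| ≤ i₀ := by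
  have h1 : (cn P n : ℝ) ≤ cn Q n + i₀ := by exact_mod_cast cn_add i₀ (fun i hi hi' => (h i hi hi').1) n
  have h2 : (cn Q n : ℝ) ≤ cn P n + i₀ := by exact_mod_cast cn_add i₀ (fun i hi hi' => (h i hi hi').2) n
  rw [abs_le]
  constructor <;> linarith

/-- one step: an arbitrary set of indices whose counting function is known; thin sets -/
lemma base0 (u : ℕ → ℕ) (hu : Sq u) (P : ℕ → Prop) :
    ∀ᵐ a : ℝ, 0 < a → ∀ b : ℤ, ∀ ε : ℝ, 0 < ε → ∀ C : ℕ, Thin fun n =>
      (n : ℝ) / (Real.log n) ^ C ≤ cn P n ∧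
      ε < |(cn (fun i => P i ∧ (⌊a * (u i : ℝ)⌋ + b).toNat.Prime) n : ℝ) / (cn P n / Real.log n) - 1| := by
  classical
  have hlog : Tendsto (fun n : ℕ => Real.log (n : ℝ)) atTop atTop :=
    Real.tendsto_log_atTop.comp tendsto_natCast_atTop_atTop
  have hF : Pool.Agent.W2helper62.MI.Fam (k := 1) Unit 1 (fun _ => {()}) (fun n _ => (Icc 1 n).filter P)
      (fun _ _ _ j => j) := by
    refine ⟨?_, fun i n l _ => ⟨fun _ _ _ _ h => h, fun j hj => ?_⟩⟩
    · filter_upwards [hlog.eventually_ge_atTop 1] with n hn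
      simpa using hn
    · rw [mem_filter, mem_Icc] at hj
      exact hj.1
  have h1 := Pool.Agent.W2helper62.MI.famT Pool.Agent.N798.HS.sdP Pool.Agent.N999.HS.prd Pool.Agent.N280.HS.ex
    (k := 1) (fun _ => u) (fun _ => hu) hF
  have h2 := ((volume_preserving_funUnique (Fin 1) ℝ).symm _).quasiMeasurePreserving.ae h1
  filter_upwards [h2] with a ha hpos b ε hε C
  refine thin_mono (Eventually.of_forall fun n hn => ?_) ((ha (fun i => hpos) (fun _ => b)).2 ε hε C)
  have e1 : #((Icc 1 n).filter P) = cn P n := by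
    unfold cn
    convert rfl
  have e2 : Pool.Agent.W2helper62.MI.cnt (fun _ => u) (fun _ => b) ((MeasurableEquiv.funUnique (Fin 1) ℝ).symm a)
      ((Icc 1 n).filter P) (fun _ j => j) = cn (fun i => P i ∧ (⌊a * (u i : ℝ)⌋ + b).toNat.Prime) n := by
    rw [cn_eq]
    unfold Pool.Agent.W2helper62.MI.cnt
    congr 1
    ext i
    rw [mem_filter, mem_filter, mem_filter]
    exact ⟨fun h => ⟨h.1.1, h.1.2, h.2 0⟩, fun h => ⟨⟨h.1, h.2.1⟩, fun _ => h.2.2⟩⟩
  refine ⟨(), mem_singleton_self _, ?_, ?_⟩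
  · rw [e1]
    exact hn.1
  · rw [e1, e2, pow_one]
    exact hn.2

/-- one step: an arbitrary set of indices whose counting function is known -/
lemma base (u : ℕ → ℕ) (hu : Sq u) (P : ℕ → Prop) (m : ℕ)
    (hP : Tendsto (fun n : ℕ => (cn P n : ℝ) * (Real.log n) ^ m / n) atTop (𝓝 1)) :
    ∀ᵐ a : ℝ, 0 < a → ∀ b : ℤ, Tendsto (fun n : ℕ =>
      (cn (fun i => P i ∧ (⌊a * (u i : ℝ)⌋ + b).toNat.Prime) n : ℝ) * (Real.log n) ^ (m + 1) / n) atTop (𝓝 1) := by
  have hlog : Tendsto (fun n : ℕ => Real.log (n : ℝ)) atTop atTop :=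
    Real.tendsto_log_atTop.comp tendsto_natCast_atTop_atTop
  filter_upwards [base0 u hu P] with a ha hpos b
  have hb := ha hpos b
  clear ha
  refine thin_all (fun n => (cn (fun i => P i ∧ (⌊a * (u i : ℝ)⌋ + b).toNat.Prime) n : ℝ)) ?_ (fun n => Nat.cast_nonneg _)
    (m + 1) fun ε hε => ?_
  · intro n n' hn
    simp only
    exact_mod_cast cn_mono _ hn
  obtain ⟨δ, hδ⟩ : ∃ δ : ℝ, δ = min (ε / 4) (1 / 4) := ⟨_, rfl⟩
  have hδ0 : 0 < δ := by rw [hδ]; exact lt_min (by linarith) (by norm_num)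
  have hδ1 : δ ≤ 1 / 4 := by rw [hδ]; exact min_le_right _ _
  have hδε : 4 * δ ≤ ε := by
    have : δ ≤ ε / 4 := by rw [hδ]; exact min_le_left _ _
    linarith
  refine thin_mono ?_ (hb δ hδ0 (m + 1))
  obtain ⟨n1, hn1⟩ := Metric.tendsto_atTop.1 hP δ hδ0
  filter_upwards [eventually_ge_atTop (max n1 1), hlog.eventually_ge_atTop 2] with n hn hl hbad
  have hn1' := hn1 n ((le_max_left _ _).trans hn)
  rw [Real.dist_eq] at hn1'
  have hn0 : (0 : ℝ) < n := by exact_mod_cast lt_of_lt_of_le one_pos ((le_max_right n1 1).trans hn)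
  exact one_term m hn0 hl (Nat.cast_nonneg _) hδ0 hδ1 hδε hn1' hbad

/-- extension by zero -/
def ex {X : Type} [Zero X] {t : ℕ} (a : Fin t → X) : ℕ → X := fun j => if h : j < t then a ⟨j, h⟩ else 0

lemma ex_lt {X : Type} [Zero X] {t : ℕ} (a : Fin t → X) {j : ℕ} (h : j < t) : ex a j = a ⟨j, h⟩ := by
  unfold ex
  rw [dif_pos h]

/-- `c_1, …, c_m` are primes for the start `u i` -/
def Pr (m : ℕ) (α : ℕ → ℝ) (b : ℕ → ℤ) (u : ℕ → ℕ) (i : ℕ) : Prop := ∀ j < m, (ch α b (u i) (j + 1)).toNat.Prime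

lemma Pr_congr {α α' : ℕ → ℝ} {b b' : ℕ → ℤ} (u : ℕ → ℕ) {m : ℕ} (h : ∀ j < m, α j = α' j ∧ b j = b' j) (i : ℕ) :
    Pr m α b u i ↔ Pr m α' b' u i := by
  unfold Pr
  constructor
  · intro h1 j hj
    rw [← ch_congr (u i) h (j + 1) (by omega)]
    exact h1 j hj
  · intro h1 j hj
    rw [ch_congr (u i) h (j + 1) (by omega)]
    exact h1 j hj

/-- the asymptotic formula is not changed by finitely many terms -/
lemma shift_fin (A A' : ℕ → ℝ) (m : ℕ) (D : ℝ) (hD : ∀ n, |A n - A' n| ≤ D)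
    (h : Tendsto (fun n : ℕ => A n * (Real.log n) ^ m / n) atTop (𝓝 1)) :
    Tendsto (fun n : ℕ => A' n * (Real.log n) ^ m / n) atTop (𝓝 1) := by
  have e0 : Tendsto (fun x : ℝ => (Real.log x) ^ m / x) atTop (𝓝 0) := by
    have := (isLittleO_log_rpow_rpow_atTop (s := (1 : ℝ)) (m : ℝ) (by norm_num)).tendsto_div_nhds_zero
    refine this.congr fun x => ?_
    rw [Real.rpow_natCast, Real.rpow_one]
  have e1 := (e0.comp tendsto_natCast_atTop_atTop).const_mul D
  rw [mul_zero] at e1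
  have e2 : Tendsto (fun n : ℕ => A' n * (Real.log n) ^ m / n - A n * (Real.log n) ^ m / n) atTop (𝓝 0) := by
    refine squeeze_zero_norm' ?_ e1
    filter_upwards [eventually_ge_atTop 1] with n hn
    have hn0 : (0 : ℝ) < n := by exact_mod_cast (by omega : 0 < n)
    have hl : 0 ≤ Real.log (n : ℝ) := Real.log_natCast_nonneg n
    rw [Real.norm_eq_abs]
    simp only [Function.comp_apply]
    have e3 : A' n * (Real.log n) ^ m / n - A n * (Real.log n) ^ m / n = -((A n - A' n) * ((Real.log n) ^ m / n)) := by ring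
    rw [e3, abs_neg, abs_mul, abs_of_nonneg (by positivity : 0 ≤ (Real.log (n : ℝ)) ^ m / n)]
    exact mul_le_mul_of_nonneg_right (hD n) (by positivity)
  have e4 := e2.add h
  rw [zero_add] at e4
  refine e4.congr fun n => by ring

/-- one more step of the chain, for fixed multipliers of the earlier steps -/
lemma step (t : ℕ) (α : ℕ → ℝ) (hα : ∀ j < t, 1 < α j) (b : ℕ → ℤ) (u : ℕ → ℕ) (hu : Sq u)
    (h : Tendsto (fun n : ℕ => (cn (Pr t α b u) n : ℝ) * (Real.log n) ^ t / n) atTop (𝓝 1)) :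
    ∀ᵐ a : ℝ, 1 < a → ∀ d : ℤ, ∀ (α' : ℕ → ℝ) (b' : ℕ → ℤ), (∀ j < t, α' j = α j ∧ b' j = b j) → α' t = a → b' t = d →
      Tendsto (fun n : ℕ => (cn (Pr (t + 1) α' b' u) n : ℝ) * (Real.log n) ^ (t + 1) / n) atTop (𝓝 1) := by
  obtain ⟨q₀, hq0, hq⟩ := ch_ge α b t hα
  obtain ⟨i₀, hi₀⟩ : ∃ i₀ : ℕ, q₀ ≤ i₀ := ⟨q₀.toNat, by rw [Int.toNat_of_nonneg (by omega)]⟩
  have hsq := cseq_sq α b t hα hu hq0 hq i₀ hi₀
  have hP : Tendsto (fun n : ℕ => (cn (fun i => i₀ ≤ i ∧ Pr t α b u i) n : ℝ) * (Real.log n) ^ t / n) atTop (𝓝 1) :=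
    shift_fin (fun n => (cn (Pr t α b u) n : ℝ)) _ t i₀ (fun n => cn_abs i₀ (fun i _ hi' => ⟨fun h => ⟨hi', h⟩, fun h => h.2⟩) n) h
  filter_upwards [base _ hsq _ t hP] with a ha ha1 d α' b' hag hat hbt
  have h1 := ha (by linarith) d
  refine shift_fin _ (fun n => (cn (Pr (t + 1) α' b' u) n : ℝ)) (t + 1) i₀ (fun n => cn_abs i₀ (fun i hi1 hi => ?_) n) h1
  have hch : ∀ j ≤ t, ch α' b' (u i) j = ch α b (u i) j := ch_congr (u i) hag
  have h2 := le_u hu i hi1
  have h3 := hq (u i) (by omega) t le_rfl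
  have h4 : ((cseq α b t u i₀ i : ℕ) : ℝ) = (ch α b (u i) t : ℝ) := by
    unfold cseq
    rw [if_pos hi]
    have : (((ch α b (u i) t).toNat : ℕ) : ℤ) = ch α b (u i) t := Int.toNat_of_nonneg (by omega)
    exact_mod_cast this
  have h5 : ch α' b' (u i) (t + 1) = ⌊a * (cseq α b t u i₀ i : ℝ)⌋ + d := by
    rw [h4, ← hat, ← hbt, ← hch t le_rfl]
    rfl
  have h6 : Pr t α b u i ↔ Pr t α' b' u i := Pr_congr u (fun j hj => ⟨(hag j hj).1.symm, (hag j hj).2.symm⟩) i
  rw [h6, ← h5]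
  constructor
  · rintro ⟨⟨_, g1⟩, g2⟩ j hj
    rcases Nat.lt_or_ge j t with hlt | hge
    · exact g1 j hlt
    · have : j = t := by omega
      rw [this]
      exact g2
  · intro g
    exact ⟨⟨hi, fun j hj => g j (by omega)⟩, g t (by omega)⟩

/-- the good multipliers -/
def G (t : ℕ) (u : ℕ → ℕ) : Set (Fin t → ℝ) := {α | (∀ j, 1 < α j) → ∀ b : Fin t → ℤ, ∀ m ≤ t,
  Tendsto (fun n : ℕ => (cn (Pr m (ex α) (ex b) u) n : ℝ) * (Real.log n) ^ m / n) atTop (𝓝 1)}

lemma ch_meas {t : ℕ} (b : ℕ → ℤ) (q : ℤ) (j : ℕ) : Measurable fun α : Fin t → ℝ => ch (ex α) b q j := by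
  induction j with
  | zero => exact measurable_const
  | succ j ih =>
    unfold ch
    refine Measurable.add ?_ measurable_const
    refine Int.measurable_floor.comp (Measurable.mul ?_ ?_)
    · by_cases h : j < t
      · simp only [ex_lt _ h]
        exact measurable_pi_apply _
      · unfold ex
        simp only [dif_neg h]
        exact measurable_const
    · exact (measurable_of_countable (fun z : ℤ => (z : ℝ))).comp ih

lemma N_meas {t : ℕ} (m : ℕ) (b : ℕ → ℤ) (u : ℕ → ℕ) (n : ℕ) : Measurable fun α : Fin t → ℝ => cn (Pr m (ex α) b u) n := by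
  unfold cn
  simp only [card_filter]
  refine Finset.measurable_fun_sum _ fun i _ => ?_
  refine Measurable.ite ?_ measurable_const measurable_const
  unfold Pr
  rw [Set.ofPred_forall]
  refine MeasurableSet.iInter fun j => ?_
  rw [Set.ofPred_forall]
  refine MeasurableSet.iInter fun _ => ?_
  exact (ch_meas b (u i) (j + 1)) (MeasurableSet.of_discrete (s := {z : ℤ | z.toNat.Prime}))

lemma G_meas (t : ℕ) (u : ℕ → ℕ) : MeasurableSet (G t u) := by
  have e : G t u = {α : Fin t → ℝ | ∀ j, 1 < α j}ᶜ ∪ ⋂ b : Fin t → ℤ, ⋂ m : ℕ, ⋂ _ : m ≤ t,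
      {α : Fin t → ℝ | Tendsto (fun n : ℕ => (cn (Pr m (ex α) (ex b) u) n : ℝ) * (Real.log n) ^ m / n) atTop (𝓝 1)} := by
    ext α
    unfold G
    simp only [Set.mem_ofPred_eq, Set.mem_union, Set.mem_compl_iff, Set.mem_iInter]
    tauto
  rw [e]
  refine MeasurableSet.union (MeasurableSet.compl ?_) ?_
  · rw [Set.ofPred_forall]
    exact MeasurableSet.iInter fun j => measurableSet_lt measurable_const (measurable_pi_apply j)
  · refine MeasurableSet.iInter fun b => MeasurableSet.iInter fun m => MeasurableSet.iInter fun _ => ?_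
    refine measurableSet_tendsto (𝓝 1) fun n => ?_
    refine Measurable.div_const (Measurable.mul_const ?_ _) _
    exact (measurable_of_countable (fun z : ℕ => (z : ℝ))).comp (N_meas m (ex b) u n)

/-- **The chains with almost all multipliers.** -/
theorem chains (u : ℕ → ℕ) (hu : Sq u) : ∀ t : ℕ, ∀ᵐ α : Fin t → ℝ, α ∈ G t u := by
  intro t
  induction t with
  | zero =>
    refine Eventually.of_forall fun α _ b m hm => ?_
    have hm0 : m = 0 := by omega
    subst hm0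
    have e : ∀ n, cn (Pr 0 (ex α) (ex b) u) n = n := by
      intro n
      unfold cn Pr
      simp
    simp only [e, pow_zero, mul_one]
    refine tendsto_const_nhds.congr' ?_
    filter_upwards [eventually_ge_atTop 1] with n hn
    have : (n : ℝ) ≠ 0 := by exact_mod_cast (by omega : n ≠ 0)
    field_simp
  | succ t ih =>
    obtain ⟨ψ, hψ⟩ : ∃ ψ : (Fin t → ℝ) × ℝ → (Fin (t + 1) → ℝ), ∀ z, ψ z = Fin.snoc z.1 z.2 := ⟨_, fun _ => rfl⟩
    have hψ1 : ∀ z, ψ z (Fin.last t) = z.2 := fun z => by rw [hψ, Fin.snoc_last]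
    have hψ2 : ∀ z i, ψ z (Fin.castSucc i) = z.1 i := fun z i => by rw [hψ, Fin.snoc_castSucc]
    have hψm : Measurable ψ := by
      refine measurable_pi_iff.2 fun j => ?_
      refine Fin.lastCases ?_ (fun i => ?_) j
      · simp only [hψ1]
        exact measurable_snd
      · simp only [hψ2]
        exact (measurable_pi_apply i).comp measurable_fst
    have hprod : ∀ᵐ z ∂((volume : Measure (Fin t → ℝ)).prod (volume : Measure ℝ)), z ∈ ψ ⁻¹' (G (t + 1) u) := by
      rw [Measure.ae_prod_mem_iff_ae_ae_mem (hψm (G_meas (t + 1) u))]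
      filter_upwards [ih] with α hα
      by_cases h1 : ∀ j, 1 < α j
      · have h2 : ∀ b : Fin t → ℤ, ∀ᵐ a : ℝ, 1 < a → ∀ d : ℤ, ∀ (α' : ℕ → ℝ) (b' : ℕ → ℤ),
            (∀ j < t, α' j = ex α j ∧ b' j = ex b j) → α' t = a → b' t = d →
            Tendsto (fun n : ℕ => (cn (Pr (t + 1) α' b' u) n : ℝ) * (Real.log n) ^ (t + 1) / n) atTop (𝓝 1) := fun b =>
          step t (ex α) (fun j hj => by rw [ex_lt _ hj]; exact h1 _) (ex b) u hu (hα h1 b t le_rfl)
        filter_upwards [ae_all_iff.2 h2] with a ha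
        rw [Set.mem_preimage]
        intro hpos b m hm
        have ha1 : 1 < a := by
          have := hpos (Fin.last t)
          rwa [hψ1] at this
        have hex : ∀ j < t, ex (ψ (α, a)) j = ex α j ∧ ex b j = ex (Fin.init b : Fin t → ℤ) j := by
          intro j hj
          rw [ex_lt _ (by omega : j < t + 1), ex_lt _ hj, ex_lt _ (by omega : j < t + 1), ex_lt _ hj]
          exact ⟨hψ2 (α, a) ⟨j, hj⟩, rfl⟩
        rcases Nat.lt_or_ge m (t + 1) with hlt | hge
        · have h3 := hα h1 (Fin.init b) m (by omega)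
          refine h3.congr fun n => ?_
          rw [cn_congr (fun i _ => Pr_congr u (fun j hj => hex j (by omega)) i) n]
        · have hmt : m = t + 1 := by omega
          rw [hmt]
          refine ha (Fin.init b) ha1 (b (Fin.last t)) _ _ hex ?_ ?_
          · rw [ex_lt _ (by omega : t < t + 1)]
            exact hψ1 (α, a)
          · rw [ex_lt _ (by omega : t < t + 1)]
            rfl
      · refine Eventually.of_forall fun a => ?_
        rw [Set.mem_preimage]
        intro hpos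
        exfalso
        apply h1
        intro j
        have := hpos (Fin.castSucc j)
        rwa [hψ2] at this
    have hmp := (Measure.measurePreserving_swap (μ := (volume : Measure ℝ)) (ν := (volume : Measure (Fin t → ℝ)))).comp
      (volume_preserving_piFinSuccAbove (fun _ : Fin (t + 1) => ℝ) (Fin.last t))
    filter_upwards [hmp.quasiMeasurePreserving.ae hprod] with α hα
    rw [Set.mem_preimage] at hα
    have e : ψ ((Prod.swap ∘ (MeasurableEquiv.piFinSuccAbove (fun _ : Fin (t + 1) => ℝ) (Fin.last t))) α) = α := by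
      funext j
      refine Fin.lastCases ?_ (fun i => ?_) j
      · rw [hψ1]
        rfl
      · rw [hψ2]
        show α ((Fin.last t).succAbove i) = α (Fin.castSucc i)
        rw [Fin.succAbove_last]
    rw [e] at hα
    exact hα

end Pool.Agent.W2helper62.MC
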