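import Pool.Agent.W2helper62.MC2

set_option autoImplicit false

/-! Chains of exact length with almost all multipliers. -/

namespace Pool.Agent.W2helper62.MC

open Finset MeasureTheory Filter Topology
open Pool.Agent.N798.HS (Sq Thin thin_mono)

lemma cn_split (P Q : ℕ → Prop) (n : ℕ) : cn P n = cn (fun i => P i ∧ Q i) n + cn (fun i => P i ∧ ¬ Q i) n := by
  classical
  rw [cn_eq, cn_eq, cn_eq, ← card_union_of_disjoint]
  · congr 1
    ext i
    rw [mem_union, mem_filter, mem_filter, mem_filter]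
    tauto
  · rw [disjoint_left]
    intro i hi hi'
    rw [mem_filter] at hi hi'
    exact hi'.2.2 hi.2.2

/-- `c_1, …, c_k` are primes, `c_{k+1}` is composite -/
def Ex (k : ℕ) (α : ℕ → ℝ) (b : ℕ → ℤ) (u : ℕ → ℕ) (i : ℕ) : Prop :=
  Pr k α b u i ∧ 1 < ch α b (u i) (k + 1) ∧ ¬ (ch α b (u i) (k + 1)).toNat.Prime

lemma exact (k : ℕ) (α : ℕ → ℝ) (hα : ∀ j < k + 1, 1 < α j) (b : ℕ → ℤ) (u : ℕ → ℕ) (hu : Sq u)
    (h0 : Tendsto (fun n : ℕ => (cn (Pr k α b u) n : ℝ) * (Real.log n) ^ k / n) atTop (𝓝 1))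
    (h1 : Tendsto (fun n : ℕ => (cn (Pr (k + 1) α b u) n : ℝ) * (Real.log n) ^ (k + 1) / n) atTop (𝓝 1)) :
    Tendsto (fun n : ℕ => (cn (Ex k α b u) n : ℝ) * (Real.log n) ^ k / n) atTop (𝓝 1) := by
  obtain ⟨q₀, hq0, hq⟩ := ch_ge α b (k + 1) hα
  obtain ⟨i₀, hi₀, hi2⟩ : ∃ i₀ : ℕ, q₀ ≤ i₀ ∧ 2 ≤ i₀ :=
    ⟨q₀.toNat + 2, by push_cast; rw [Int.toNat_of_nonneg (by omega)]; omega, by omega⟩
  have hlog : Tendsto (fun n : ℕ => Real.log (n : ℝ)) atTop atTop :=
    Real.tendsto_log_atTop.comp tendsto_natCast_atTop_atTop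
  have h2 : Tendsto (fun n : ℕ => (cn (Pr (k + 1) α b u) n : ℝ) * (Real.log n) ^ k / n) atTop (𝓝 0) := by
    have h3 := h1.mul (tendsto_inv_atTop_zero.comp hlog)
    rw [mul_zero] at h3
    refine h3.congr' ?_
    filter_upwards [hlog.eventually_ge_atTop 1] with n hn
    have : Real.log (n : ℝ) ≠ 0 := by linarith
    simp only [Function.comp_apply]
    rw [pow_succ]
    field_simp
  have h3 : Tendsto (fun n : ℕ => ((cn (Pr k α b u) n : ℝ) - cn (Pr (k + 1) α b u) n) * (Real.log n) ^ k / n) atTop (𝓝 1) := by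
    have h4 := h0.sub h2
    rw [sub_zero] at h4
    refine h4.congr fun n => by ring
  refine shift_fin _ _ k i₀ (fun n => ?_) h3
  have e1 := cn_split (Pr k α b u) (fun i => (ch α b (u i) (k + 1)).toNat.Prime) n
  have e2 : cn (fun i => Pr k α b u i ∧ (ch α b (u i) (k + 1)).toNat.Prime) n = cn (Pr (k + 1) α b u) n := by
    refine cn_congr (fun i _ => ?_) n
    constructor
    · rintro ⟨g1, g2⟩ j hj
      rcases Nat.lt_or_ge j k with hlt | hge
      · exact g1 j hlt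
      · have : j = k := by omega
        rw [this]
        exact g2
    · intro g
      exact ⟨fun j hj => g j (by omega), g k (by omega)⟩
  have e3 : (cn (Pr k α b u) n : ℝ) - cn (Pr (k + 1) α b u) n =
      cn (fun i => Pr k α b u i ∧ ¬ (ch α b (u i) (k + 1)).toNat.Prime) n := by
    rw [e1, e2]
    push_cast
    ring
  rw [e3]
  refine cn_abs i₀ (fun i hi1 hi => ?_) n
  have g1 := le_u hu i hi1
  have g2 := hq (u i) (by omega) (k + 1) le_rfl
  unfold Ex
  constructor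
  · rintro ⟨f1, f2⟩
    exact ⟨f1, by omega, f2⟩
  · rintro ⟨f1, _, f2⟩
    exact ⟨f1, f2⟩

end Pool.Agent.W2helper62.MC
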