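import Pool.Agent.N798.H.Fin
import Pool.Agent.N136.HW.MW

set_option autoImplicit false

/-! Prime values of almost all multiples along arbitrary slow sequences, for a few arbitrary sets of indices and
arbitrary injections of the indices: the mean squares. -/

namespace Pool.Agent.W2helper62.MI

open Finset MeasureTheory Filter Topology
open scoped ENNReal
open Pool.Agent.N798.T
open Pool.Agent.N798.HS

/-- `a` maps `W` injectively into the integers between `1` and `n` -/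
def Emb (n : ℕ) (W : Finset ℕ) (a : ℕ → ℕ) : Prop := Set.InjOn a W ∧ ∀ j ∈ W, 1 ≤ a j ∧ a j ≤ n

lemma Emb.mono {n : ℕ} {W W' : Finset ℕ} {a : ℕ → ℕ} (h : Emb n W a) (hs : W' ⊆ W) : Emb n W' a :=
  ⟨h.1.mono (by exact_mod_cast hs), fun j hj => h.2 j (hs hj)⟩

lemma oneE (h : S_SD) (u : ℕ → ℕ) (hu : Sq u) (b : ℤ) (s : ℝ) (K : ℕ) :
    ∃ (D : ℝ) (N0 : ℕ), 0 ≤ D ∧ 2 ≤ N0 ∧ ∀ n : ℕ, N0 ≤ n → ∀ (V : Finset ℕ) (a : ℕ → ℕ), Emb n V a →
      (∀ j ∈ V, Nat.sqrt n < a j) → ∀ w : ℕ → ℂ, (∀ m, ‖w m‖ ≤ 1) →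
      ∫⁻ x in Set.Icc (0 : ℝ) 1, ‖∑ j ∈ V, w j * (Fp b s x (u (a j)) - Mp s x (u (a j)))‖ₑ ^ 2 ≤
        ENNReal.ofReal (D * n ^ 2 / (Real.log n) ^ K) := by
  classical
  obtain ⟨D, N0, hD, hN0, h1⟩ := h u hu b s K
  refine ⟨D, N0, hD, hN0, fun n hn V a ha hV w hw => ?_⟩
  obtain ⟨w', hw'⟩ : ∃ w' : ℕ → ℂ, w' = fun l => if l ∈ V.image a then w (Function.invFunOn a V l) else 0 := ⟨_, rfl⟩
  have hsub : V.image a ⊆ Ioc (Nat.sqrt n) n := by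
    intro l hl
    rw [mem_image] at hl
    obtain ⟨j, hj, rfl⟩ := hl
    rw [mem_Ioc]
    exact ⟨hV j hj, (ha.2 j hj).2⟩
  refine le_trans (le_of_eq ?_) (h1 n hn w' fun m => ?_)
  · refine lintegral_congr fun x => ?_
    congr 2
    rw [← Finset.sum_subset hsub]
    · rw [Finset.sum_image (fun x hx y hy hxy => ha.1 hx hy hxy)]
      refine Finset.sum_congr rfl fun j hj => ?_
      have e1 : w' (a j) = w j := by
        rw [hw']
        simp only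
        rw [if_pos (mem_image_of_mem a hj), ha.1.leftInvOn_invFunOn (mem_coe.2 hj)]
      rw [e1]
    · intro l _ hl
      rw [hw']
      simp only [if_neg hl, zero_mul]
  · rw [hw']
    simp only
    split_ifs
    · exact hw _
    · rw [norm_zero]; exact zero_le_one

/-- the deviation, in the coordinates of the cube -/
noncomputable def Gd {k : ℕ} (u : Fin k → ℕ → ℕ) (b : Fin k → ℤ) (s : ℕ → ℝ) (ω : Fin k → ℝ)
    (V : Finset ℕ) (a : Fin k → ℕ → ℕ) : ℂ :=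
  ∑ j ∈ V, (∏ i, Fp (b i) (s i) (ω i) (u i (a i j)) - ∏ i : Fin k, Mp (s i) (ω i) (u i (a i j)))

lemma Gd_meas {k : ℕ} (u : Fin k → ℕ → ℕ) (b : Fin k → ℤ) (s : ℕ → ℝ) (V : Finset ℕ) (a : Fin k → ℕ → ℕ) :
    Measurable fun ω => Gd u b s ω V a := by
  unfold Gd
  refine Finset.measurable_fun_sum _ fun j _ => Measurable.sub ?_ ?_
  · exact Finset.measurable_fun_prod _ fun i _ => (Fp_meas _ _ _).comp (measurable_pi_apply i)
  · exact Finset.measurable_fun_prod _ fun i _ => (Mp_meas _ _).comp (measurable_pi_apply i)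

lemma meanSqE (hsd : S_SD) (hprd : S_PRD) {k : ℕ} (u : Fin k → ℕ → ℕ) (hu : ∀ i, Sq (u i))
    (b : Fin k → ℤ) (s : ℕ → ℝ) : ∀ K : ℕ, ∃ (D : ℝ) (N0 : ℕ), 0 ≤ D ∧ 2 ≤ N0 ∧ ∀ n : ℕ, N0 ≤ n →
      ∀ (V : Finset ℕ) (a : Fin k → ℕ → ℕ), (∀ i, Emb n V (a i)) → (∀ i, ∀ j ∈ V, Nat.sqrt n < a i j) →
      ∫⁻ ω, ‖Gd u b s ω V a‖ₑ ^ 2 ∂(mu k) ≤ ENNReal.ofReal (D * n ^ 2 / (Real.log n) ^ K) := by
  intro K
  choose D N0 hD hN0 h1 using fun i : Fin k => oneE hsd (u i) (hu i) (b i) (s i) K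
  choose n1 hn1 using fun i : Fin k => Mp_le (hu i) (s i)
  have hDt : 0 ≤ ∑ i, D i := Finset.sum_nonneg fun i _ => hD i
  refine ⟨(k : ℝ) ^ 2 * ∑ i, D i, 2 + ∑ i, (N0 i + n1 i), by positivity, by omega, fun n hn V a ha hV => ?_⟩
  have hNi : ∀ i, N0 i + n1 i ≤ n := fun i =>
    (Finset.single_le_sum (f := fun i => N0 i + n1 i) (fun _ _ => Nat.zero_le _) (Finset.mem_univ i)).trans (by omega)
  have hn2 : 2 ≤ n := by omega
  have hlog : 0 ≤ Real.log n := Real.log_nonneg (by exact_mod_cast (by omega : 1 ≤ n))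
  have h2 := hprd k V (fun i x j => Fp (b i) (s i) x (u i (a i j)))
    (fun i x j => Mp (s i) x (u i (a i j))) (fun i j => Fp_meas _ _ _) (fun i j => Mp_meas _ _)
    (fun i x _ j _ => Fp_le _ _ _ _) (fun i x hx j hj => hn1 i n ((Nat.le_add_left _ _).trans (hNi i)) _
      (hV i j hj) x hx) (ENNReal.ofReal ((∑ i, D i) * n ^ 2 / (Real.log n) ^ K)) (by
    intro i w hw
    refine (h1 i n ((Nat.le_add_right _ _).trans (hNi i)) V (a i) (ha i) (hV i) w hw).trans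
      (ENNReal.ofReal_le_ofReal ?_)
    refine div_le_div_of_nonneg_right (mul_le_mul_of_nonneg_right ?_ (by positivity)) (by positivity)
    exact Finset.single_le_sum (fun i _ => hD i) (Finset.mem_univ i))
  refine h2.trans (le_of_eq ?_)
  rw [show ((k : ℝ≥0∞)) ^ 2 = ENNReal.ofReal ((k : ℝ) ^ 2) by
    rw [ENNReal.ofReal_pow (Nat.cast_nonneg _), ENNReal.ofReal_natCast], ← ENNReal.ofReal_mul (by positivity)]
  congr 1
  ring

/-- a family of index sets with index maps: for every `n` at most `(log n)^B` sets `W n l`, `l ∈ Λ n`, mapped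
injectively to `[1, n]` by the `a i n l` -/
structure Fam (ι : Type) {k : ℕ} (B : ℕ) (Λ : ℕ → Finset ι) (W : ℕ → ι → Finset ℕ)
    (a : Fin k → ℕ → ι → ℕ → ℕ) : Prop where
  few : ∀ᶠ n : ℕ in atTop, (#(Λ n) : ℝ) ≤ (Real.log n) ^ B
  emb : ∀ i n, ∀ l ∈ Λ n, Emb n (W n l) (a i n l)

open Classical in
/-- the indices in `W` for which all arguments are larger than `√n` -/
noncomputable def V {k : ℕ} (n : ℕ) (W : Finset ℕ) (a : Fin k → ℕ → ℕ) : Finset ℕ :=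
  W.filter fun j => ∀ i, Nat.sqrt n < a i j

lemma V_sub {k : ℕ} (n : ℕ) (W : Finset ℕ) (a : Fin k → ℕ → ℕ) : V n W a ⊆ W := by
  unfold V
  exact filter_subset _ _

lemma V_gt {k : ℕ} {n : ℕ} {W : Finset ℕ} {a : Fin k → ℕ → ℕ} {j : ℕ} (hj : j ∈ V n W a) (i : Fin k) :
    Nat.sqrt n < a i j := by
  unfold V at hj
  exact (mem_filter.1 hj).2 i

lemma V_card {k : ℕ} {n : ℕ} {W : Finset ℕ} {a : Fin k → ℕ → ℕ} (ha : ∀ i, Emb n W (a i)) :
    #(W \ V n W a) ≤ k * Nat.sqrt n := by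
  classical
  have h1 : W \ V n W a ⊆ (univ : Finset (Fin k)).biUnion fun i => W.filter fun j => a i j ≤ Nat.sqrt n := by
    intro j hj
    rw [Finset.mem_sdiff] at hj
    unfold V at hj
    rw [mem_filter] at hj
    have h2 : ¬ ∀ i, Nat.sqrt n < a i j := fun h => hj.2 ⟨hj.1, h⟩
    push Not at h2
    obtain ⟨i, hi⟩ := h2
    exact mem_biUnion.2 ⟨i, mem_univ i, mem_filter.2 ⟨hj.1, hi⟩⟩
  refine (card_le_card h1).trans (card_biUnion_le.trans ?_)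
  have h3 : ∀ i ∈ (univ : Finset (Fin k)), #(W.filter fun j => a i j ≤ Nat.sqrt n) ≤ Nat.sqrt n := by
    intro i _
    have h4 : #((W.filter fun j => a i j ≤ Nat.sqrt n).image (a i)) = #(W.filter fun j => a i j ≤ Nat.sqrt n) := by
      refine card_image_of_injOn ((ha i).1.mono ?_)
      intro j hj
      exact mem_coe.2 (mem_filter.1 (mem_coe.1 hj)).1
    rw [← h4]
    have h5 : (W.filter fun j => a i j ≤ Nat.sqrt n).image (a i) ⊆ Icc 1 (Nat.sqrt n) := by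
      intro l hl
      rw [mem_image] at hl
      obtain ⟨j, hj, rfl⟩ := hl
      rw [mem_filter] at hj
      rw [mem_Icc]
      exact ⟨((ha i).2 j hj.1).1, hj.2⟩
    refine (card_le_card h5).trans ?_
    rw [Nat.card_Icc]
    omega
  refine (sum_le_sum h3).trans ?_
  rw [sum_const, card_univ, Fintype.card_fin, smul_eq_mul]

/-- the deviation in terms of `α` -/
noncomputable def Ge {k : ℕ} (u : Fin k → ℕ → ℕ) (b : Fin k → ℤ) (α : Fin k → ℝ) (V : Finset ℕ)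
    (a : Fin k → ℕ → ℕ) : ℂ :=
  ∑ j ∈ V, ((∏ i, if (⌊α i * (u i (a i j) : ℝ)⌋ + b i).toNat.Prime then (1 : ℂ) else 0) -
    ∏ i, ((1 / Real.log (α i * u i (a i j)) : ℝ) : ℂ))

lemma sq_sum_enorm {ι : Type} (Λ : Finset ι) (g : ι → ℂ) :
    ‖((∑ l ∈ Λ, ‖g l‖ : ℝ) : ℂ)‖ₑ ^ 2 ≤ (#Λ : ℝ≥0∞) * ∑ l ∈ Λ, ‖g l‖ₑ ^ 2 := by
  have h0 : 0 ≤ ∑ l ∈ Λ, ‖g l‖ := sum_nonneg fun _ _ => norm_nonneg _
  have e1 : ‖((∑ l ∈ Λ, ‖g l‖ : ℝ) : ℂ)‖ₑ = ENNReal.ofReal (∑ l ∈ Λ, ‖g l‖) := by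
    rw [← ofReal_norm, Complex.norm_real, Real.norm_eq_abs, abs_of_nonneg h0]
  have e2 : ∀ l, ‖g l‖ₑ ^ 2 = ENNReal.ofReal (‖g l‖ ^ 2) := by
    intro l
    rw [← ofReal_norm, ENNReal.ofReal_pow (norm_nonneg _)]
  have e3 : (#Λ : ℝ≥0∞) = ENNReal.ofReal (#Λ : ℝ) := by rw [ENNReal.ofReal_natCast]
  rw [e1, ← ENNReal.ofReal_pow h0, e3]
  simp_rw [e2]
  rw [← ENNReal.ofReal_sum_of_nonneg (fun _ _ => by positivity), ← ENNReal.ofReal_mul (Nat.cast_nonneg _)]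
  exact ENNReal.ofReal_le_ofReal sq_sum_le_card_mul_sum_sq

lemma meanSqF (hsd : S_SD) (hprd : S_PRD) {k : ℕ} (u : Fin k → ℕ → ℕ) (hu : ∀ i, Sq (u i))
    {ι : Type} {B : ℕ} {Λ : ℕ → Finset ι} {W : ℕ → ι → Finset ℕ} {a : Fin k → ℕ → ι → ℕ → ℕ} (hF : Fam ι B Λ W a)
    (b : Fin k → ℤ) (s : ℕ → ℝ) : ∀ K : ℕ, ∃ (D : ℝ) (N0 : ℕ), 0 ≤ D ∧ 2 ≤ N0 ∧ ∀ n : ℕ, N0 ≤ n →
      ∫⁻ ω, ‖((∑ l ∈ Λ n, ‖Gd u b s ω (V n (W n l) fun i => a i n l) fun i => a i n l‖ : ℝ) : ℂ)‖ₑ ^ 2 ∂(mu k) ≤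
        ENNReal.ofReal (D * n ^ 2 / (Real.log n) ^ K) := by
  intro K
  obtain ⟨D, N0, hD, hN0, h1⟩ := meanSqE hsd hprd u hu b s (K + 2 * B)
  obtain ⟨n1, hn1⟩ := eventually_atTop.1 hF.few
  have hlt : Tendsto (fun n : ℕ => Real.log (n : ℝ)) atTop atTop :=
    Real.tendsto_log_atTop.comp tendsto_natCast_atTop_atTop
  obtain ⟨n2, hn2⟩ := eventually_atTop.1 (hlt.eventually_ge_atTop 1)
  refine ⟨D, max N0 (max n1 n2), hD, le_trans hN0 (le_max_left _ _), fun n hn => ?_⟩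
  have b0 : N0 ≤ n := le_trans (le_max_left _ _) hn
  have b1 : n1 ≤ n := le_trans (le_trans (le_max_left _ _) (le_max_right _ _)) hn
  have b2 : n2 ≤ n := le_trans (le_trans (le_max_right _ _) (le_max_right _ _)) hn
  have hΛ := hn1 n b1
  have hL := hn2 n b2
  have hL0 : 0 < Real.log n := by linarith
  calc ∫⁻ ω, ‖((∑ l ∈ Λ n, ‖Gd u b s ω (V n (W n l) fun i => a i n l) fun i => a i n l‖ : ℝ) : ℂ)‖ₑ ^ 2 ∂(mu k)
      ≤ ∫⁻ ω, (#(Λ n) : ℝ≥0∞) * ∑ l ∈ Λ n, ‖Gd u b s ω (V n (W n l) fun i => a i n l) fun i => a i n l‖ₑ ^ 2 ∂(mu k) :=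
        lintegral_mono fun ω => sq_sum_enorm _ _
    _ = (#(Λ n) : ℝ≥0∞) * ∑ l ∈ Λ n, ∫⁻ ω, ‖Gd u b s ω (V n (W n l) fun i => a i n l) fun i => a i n l‖ₑ ^ 2 ∂(mu k) := by
        rw [lintegral_const_mul _ (Finset.measurable_fun_sum _ fun l _ => (Gd_meas _ _ _ _ _).enorm.pow_const 2),
          lintegral_finsetSum _ fun l _ => (Gd_meas _ _ _ _ _).enorm.pow_const 2]
    _ ≤ (#(Λ n) : ℝ≥0∞) * ∑ l ∈ Λ n, ENNReal.ofReal (D * n ^ 2 / (Real.log n) ^ (K + 2 * B)) := by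
        refine mul_le_mul_right (sum_le_sum fun l hl => ?_) _
        refine h1 n b0 _ _ (fun i => (hF.emb i n l hl).mono (V_sub _ _ _)) fun i j hj => V_gt hj i
    _ = ENNReal.ofReal ((#(Λ n) : ℝ) * ((#(Λ n) : ℝ) * (D * n ^ 2 / (Real.log n) ^ (K + 2 * B)))) := by
        rw [sum_const, nsmul_eq_mul, ENNReal.ofReal_mul (Nat.cast_nonneg _), ENNReal.ofReal_mul (Nat.cast_nonneg _),
          ENNReal.ofReal_natCast]
    _ ≤ _ := by
        refine ENNReal.ofReal_le_ofReal ?_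
        have h3 : 0 ≤ D * (n : ℝ) ^ 2 / (Real.log n) ^ (K + 2 * B) := by positivity
        calc (#(Λ n) : ℝ) * ((#(Λ n) : ℝ) * (D * n ^ 2 / (Real.log n) ^ (K + 2 * B)))
            ≤ (Real.log n) ^ B * ((Real.log n) ^ B * (D * n ^ 2 / (Real.log n) ^ (K + 2 * B))) := by
              gcongr
          _ = _ := by
              rw [pow_add, two_mul, pow_add]
              field_simp

lemma ae_Ge (hsd : S_SD) (hprd : S_PRD) (hex : S_EX) {k : ℕ} (u : Fin k → ℕ → ℕ) (hu : ∀ i, Sq (u i))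
    {ι : Type} {B : ℕ} {Λ : ℕ → Finset ι} {W : ℕ → ι → Finset ℕ} {a : Fin k → ℕ → ι → ℕ → ℕ} (hF : Fam ι B Λ W a)
    (b : Fin k → ℤ) :
    ∀ᵐ α ∂((volume : Measure (Fin k → ℝ)).restrict {α | ∀ i, 0 < α i}), ∀ L : ℕ,
      Thin fun n => (n : ℝ) / (Real.log n) ^ L < ∑ l ∈ Λ n, ‖Ge u b α (V n (W n l) fun i => a i n l) fun i => a i n l‖ := by
  classical
  refine Pool.Agent.N262.T.cu k _ fun s => ?_
  have h1 := hex (Fin k → ℝ) (mu k)
    (fun ω n => ((∑ l ∈ Λ n, ‖Gd u b s ω (V n (W n l) fun i => a i n l) fun i => a i n l‖ : ℝ) : ℂ))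
    (fun n => Complex.measurable_ofReal.comp (Finset.measurable_fun_sum _ fun l _ => (Gd_meas _ _ _ _ _).norm))
    (meanSqF hsd hprd u hu hF b s)
  filter_upwards [h1, mu_ae k] with ω hω hω1 L K
  have h2 := hω L K
  have e1 : ∀ i : Fin k, al s k ω i = Real.exp (s i + ω i) := by
    intro i
    unfold al
    rw [dif_pos i.2, clamp_id (hω1 i)]
  have e2 : ∀ V a, Ge u b (fun j : Fin k => al s k ω j) V a = Gd u b s ω V a := by
    intro V a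
    unfold Ge Gd Fp Mp vl
    simp only [e1]
  have e3 : ∀ n, ‖((∑ l ∈ Λ n, ‖Gd u b s ω (V n (W n l) fun i => a i n l) fun i => a i n l‖ : ℝ) : ℂ)‖ =
      ∑ l ∈ Λ n, ‖Gd u b s ω (V n (W n l) fun i => a i n l) fun i => a i n l‖ := by
    intro n
    rw [Complex.norm_real, Real.norm_eq_abs, abs_of_nonneg (sum_nonneg fun _ _ => norm_nonneg _)]
  simp only [e3] at h2
  simp only [e2]
  exact h2

end Pool.Agent.W2helper62.MI
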