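import Pool.Agent.W2helper62.MI1

set_option autoImplicit false

/-! The main term and the theorem for families of index sets. -/

namespace Pool.Agent.W2helper62.MI

open Finset MeasureTheory Filter Topology
open scoped ENNReal
open Pool.Agent.N798.T
open Pool.Agent.N798.HS
open Pool.Agent.N531.HS (partA)
open Pool.Agent.N136.HW (partB' log_pow_le card_le_real)

/-- the number of the `j ∈ W` for which all `⌊α_i u_i(a_i(j))⌋ + b_i` are primes -/
noncomputable def cnt {k : ℕ} (u : Fin k → ℕ → ℕ) (b : Fin k → ℤ) (α : Fin k → ℝ) (W : Finset ℕ)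
    (a : Fin k → ℕ → ℕ) : ℕ :=
  #(W.filter fun j : ℕ => ∀ i, (⌊α i * (u i (a i j) : ℝ)⌋ + b i).toNat.Prime)

/-- the main term -/
noncomputable def mainE {k : ℕ} (u : Fin k → ℕ → ℕ) (α : Fin k → ℝ) (V : Finset ℕ) (a : Fin k → ℕ → ℕ) : ℝ :=
  ∑ j ∈ V, ∏ i, 1 / Real.log (α i * u i (a i j))

lemma cnt_diff {k : ℕ} (u : Fin k → ℕ → ℕ) (b : Fin k → ℤ) (α : Fin k → ℝ) {n : ℕ} {W : Finset ℕ}
    {a : Fin k → ℕ → ℕ} (ha : ∀ i, Emb n W (a i)) :
    |(cnt u b α W a : ℝ) - mainE u α (V n W a) a| ≤ ‖Ge u b α (V n W a) a‖ + k * Nat.sqrt n := by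
  classical
  have e1 : Ge u b α (V n W a) a = ((#((V n W a).filter fun j : ℕ =>
      ∀ i, (⌊α i * (u i (a i j) : ℝ)⌋ + b i).toNat.Prime) - mainE u α (V n W a) a : ℝ) : ℂ) := by
    unfold Ge mainE
    rw [Finset.sum_sub_distrib, ← Finset.sum_boole]
    push_cast
    congr 1
    refine Finset.sum_congr rfl fun j _ => ?_
    by_cases h : ∀ i, (⌊α i * (u i (a i j) : ℝ)⌋ + b i).toNat.Prime
    · rw [if_pos h, Finset.prod_eq_one fun i _ => if_pos (h i)]
      simp
    · rw [if_neg h]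
      push Not at h
      obtain ⟨i, hi⟩ := h
      exact Finset.prod_eq_zero (Finset.mem_univ i) (if_neg hi)
  rw [e1, Complex.norm_real, Real.norm_eq_abs]
  obtain ⟨A, hA⟩ : ∃ A, A = (V n W a).filter fun j : ℕ => ∀ i, (⌊α i * (u i (a i j) : ℝ)⌋ + b i).toNat.Prime := ⟨_, rfl⟩
  obtain ⟨S, hS⟩ : ∃ S, S = W.filter fun j : ℕ => ∀ i, (⌊α i * (u i (a i j) : ℝ)⌋ + b i).toNat.Prime := ⟨_, rfl⟩
  rw [← hA]
  have hAB : A ⊆ S := by
    intro j hj
    rw [hA, mem_filter] at hj
    rw [hS, mem_filter]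
    exact ⟨V_sub _ _ _ hj.1, hj.2⟩
  have h1 : #S ≤ #A + k * Nat.sqrt n := by
    have h2 : S ⊆ A ∪ (W \ V n W a) := by
      intro j hj
      rw [hS, mem_filter] at hj
      rw [mem_union, hA, mem_filter, Finset.mem_sdiff]
      by_cases h4 : j ∈ V n W a
      · exact Or.inl ⟨h4, hj.2⟩
      · exact Or.inr ⟨hj.1, h4⟩
    refine (Finset.card_le_card h2).trans ((Finset.card_union_le _ _).trans ?_)
    exact add_le_add le_rfl (V_card ha)
  have h2 : (#A : ℝ) ≤ #S := by exact_mod_cast Finset.card_le_card hAB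
  have h3 : (#S : ℝ) ≤ #A + k * Nat.sqrt n := by exact_mod_cast h1
  have h4 : (cnt u b α W a : ℝ) = #S := by
    rw [hS]
    rfl
  rw [h4]
  have e2 : (#S : ℝ) - mainE u α (V n W a) a = (#A - mainE u α (V n W a) a) + (#S - #A) := by ring
  rw [e2]
  refine (abs_add_le _ _).trans (add_le_add le_rfl ?_)
  rw [abs_of_nonneg (by linarith)]
  linarith

/-- the number of the `j` with `a j ≤ x` -/
lemma card_low {n : ℕ} {W : Finset ℕ} {a : ℕ → ℕ} (ha : Emb n W a) {x : ℝ} (hx0 : 0 ≤ x) :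
    (#(W.filter fun j => (a j : ℝ) ≤ x) : ℝ) ≤ x := by
  have h4 : #((W.filter fun j => (a j : ℝ) ≤ x).image a) = #(W.filter fun j => (a j : ℝ) ≤ x) := by
    refine card_image_of_injOn (ha.1.mono ?_)
    intro j hj
    exact mem_coe.2 (mem_filter.1 (mem_coe.1 hj)).1
  rw [← h4]
  apply card_le_real _ _ _ hx0
  · intro l hl
    rw [mem_image] at hl
    obtain ⟨j, hj, rfl⟩ := hl
    exact (ha.2 j (mem_filter.1 hj).1).1
  · intro l hl
    rw [mem_image] at hl
    obtain ⟨j, hj, rfl⟩ := hl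
    exact (mem_filter.1 hj).2

theorem mainT (k : ℕ) (u : Fin k → ℕ → ℕ) (hu : ∀ i, Sq (u i)) (α : Fin k → ℝ) (hα : ∀ i, 0 < α i)
    (ε : ℝ) (hε : 0 < ε) (C : ℕ) : ∃ n0 : ℕ, ∀ n : ℕ, n0 ≤ n → ∀ (W : Finset ℕ) (a : Fin k → ℕ → ℕ),
    (∀ i, Emb n W (a i)) → (n : ℝ) / (Real.log n) ^ C ≤ #W →
    |mainE u α (V n W a) a / (#W / (Real.log n) ^ k) - 1| ≤ ε := by
  classical
  -- continuity of the product
  obtain ⟨δ, hδ0, hδ⟩ : ∃ δ : ℝ, 0 < δ ∧ ∀ r : Fin k → ℝ, (∀ i, |r i - 1| < δ) →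
      |∏ i, r i - 1| < ε / 8 := by
    have hc : Continuous fun r : Fin k → ℝ => ∏ i, r i :=
      continuous_finsetProd _ fun i _ => continuous_apply i
    have h1 := Metric.continuous_iff.mp hc (fun _ => 1) (ε / 8) (by positivity)
    obtain ⟨δ, hδ, h⟩ := h1
    refine ⟨δ, hδ, fun r hr => ?_⟩
    have h2 := h r ((dist_pi_lt_iff hδ).mpr fun i => by
      rw [Real.dist_eq]
      exact hr i)
    rw [Real.dist_eq, prod_const_one] at h2
    exact h2
  have hA : ∀ᶠ n : ℕ in atTop, ∀ i, ∀ l : ℕ, Nat.sqrt n < l →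
      Real.log n / 3 ≤ Real.log (α i * u i l) :=
    eventually_all.mpr fun i => partA (hu i) (hα i)
  have hB : ∀ᶠ n : ℕ in atTop, ∀ i, ∀ l : ℕ, (n : ℝ) / Real.log n ^ (C + 1) ≤ l → l ≤ n →
      |Real.log n / Real.log (α i * u i l) - 1| < δ :=
    eventually_all.mpr fun i => partB' (C + 1) (hu i) (hα i) hδ0
  have hlt := Real.tendsto_log_atTop.comp (tendsto_natCast_atTop_atTop (R := ℝ))
  have h3k : (0 : ℝ) < 3 ^ k := by positivity
  have h3k1 : (1 : ℝ) ≤ 3 ^ k := one_le_pow₀ (by norm_num)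
  have hk0 : (0 : ℝ) ≤ k := Nat.cast_nonneg _
  have hall : ∀ᶠ n : ℕ in atTop, ∀ (W : Finset ℕ) (a : Fin k → ℕ → ℕ), (∀ i, Emb n W (a i)) →
      (n : ℝ) / (Real.log n) ^ C ≤ #W →
      |mainE u α (V n W a) a / (#W / (Real.log n) ^ k) - 1| ≤ ε := by
    filter_upwards [hA, hB, hlt.eventually_ge_atTop 1, hlt.eventually_ge_atTop (8 * (k + 1) * 3 ^ k / ε),
      eventually_ge_atTop 1, log_pow_le (2 * (C + 1)) one_pos] with n hA hB hL1 hL2 hn1 hL3 W a ha hW
    have hL1' : (1 : ℝ) ≤ Real.log n := hL1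
    have hL2' : 8 * (k + 1) * 3 ^ k / ε ≤ Real.log n := hL2
    have hL0 : (0 : ℝ) < Real.log n := by linarith
    have hn0 : (0 : ℝ) < n := by exact_mod_cast hn1
    obtain ⟨w, hw⟩ : ∃ w : ℝ, w = (#W : ℝ) := ⟨_, rfl⟩
    rw [← hw] at hW ⊢
    have hw0 : 0 < w := lt_of_lt_of_le (by positivity) hW
    obtain ⟨x, hx⟩ : ∃ x : ℝ, x = (n : ℝ) / Real.log n ^ (C + 1) := ⟨_, rfl⟩
    have hx0 : 0 ≤ x := by rw [hx]; positivity
    have hxw : x * Real.log n ≤ w := by
      refine le_trans (le_of_eq ?_) hW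
      rw [hx, pow_succ]
      field_simp
    have hxε : (k + 1) * 3 ^ k * x ≤ ε / 8 * w := by
      have h1 : 8 * (k + 1) * 3 ^ k ≤ Real.log n * ε := (div_le_iff₀ hε).mp hL2'
      have h2 : x * (8 * (k + 1) * 3 ^ k) ≤ x * (Real.log n * ε) := mul_le_mul_of_nonneg_left h1 hx0
      have h3 : x * Real.log n * ε ≤ w * ε := mul_le_mul_of_nonneg_right hxw hε.le
      have h4 : x * (Real.log n * ε) = x * Real.log n * ε := by ring
      linarith
    have hsx : (Nat.sqrt n : ℝ) ≤ x := by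
      rw [hx, le_div_iff₀ (by positivity)]
      have h1 : ((Nat.sqrt n : ℝ)) * (Nat.sqrt n : ℝ) ≤ n := by exact_mod_cast Nat.sqrt_le n
      have h2 : (Real.log n ^ (C + 1)) * (Real.log n ^ (C + 1)) ≤ n := by
        rw [one_mul] at hL3
        rw [← pow_add, ← two_mul]
        exact hL3
      have h3 : ((Nat.sqrt n : ℝ) * Real.log n ^ (C + 1)) ^ 2 ≤ (n : ℝ) ^ 2 := by
        calc ((Nat.sqrt n : ℝ) * Real.log n ^ (C + 1)) ^ 2 =
            ((Nat.sqrt n : ℝ) * (Nat.sqrt n : ℝ)) *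
              ((Real.log n ^ (C + 1)) * (Real.log n ^ (C + 1))) := by ring
          _ ≤ (n : ℝ) * n := mul_le_mul h1 h2 (by positivity) hn0.le
          _ = (n : ℝ) ^ 2 := by ring
      exact (pow_le_pow_iff_left₀ (by positivity) hn0.le two_ne_zero).1 h3
    have hkx : k * x ≤ ε / 8 * w := by
      have h1 : (k : ℝ) * x ≤ (k + 1) * 3 ^ k * x := by
        apply mul_le_mul_of_nonneg_right _ hx0
        nlinarith
      linarith
    have hkx3 : k * x * 3 ^ k ≤ ε / 8 * w := by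
      have h1 : (k : ℝ) * x * 3 ^ k ≤ (k + 1) * 3 ^ k * x := by
        have : (k : ℝ) * x * 3 ^ k = k * (3 ^ k * x) := by ring
        have h2 : 0 ≤ 3 ^ k * x := by positivity
        nlinarith
      linarith
    -- the normalised product
    obtain ⟨g, hg⟩ : ∃ g : ℕ → ℝ, g = fun j => ∏ i, Real.log n / Real.log (α i * u i (a i j)) := ⟨_, rfl⟩
    obtain ⟨W', hW'⟩ : ∃ W' : Finset ℕ, W' = V n W a := ⟨_, rfl⟩
    rw [← hW']
    have hsum : mainE u α W' a * (Real.log n) ^ k = ∑ j ∈ W', g j := by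
      unfold mainE
      rw [sum_mul]
      refine sum_congr rfl fun j _ => ?_
      rw [hg]
      have e1 : (Real.log n) ^ k = ∏ _i : Fin k, Real.log n := by
        rw [prod_const, card_univ, Fintype.card_fin]
      rw [e1, ← prod_mul_distrib]
      exact prod_congr rfl fun i _ => by rw [one_div, mul_comm, ← div_eq_mul_inv]
    have hmem : ∀ j ∈ W', j ∈ W ∧ (∀ i, Nat.sqrt n < a i j) ∧ (∀ i, a i j ≤ n) := by
      intro j hj
      rw [hW'] at hj
      have h1 := V_sub _ _ _ hj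
      exact ⟨h1, fun i => V_gt hj i, fun i => ((ha i).2 j h1).2⟩
    have hg1 : ∀ j ∈ W', |g j - 1| ≤ 3 ^ k := by
      intro j hj
      have f0 : ∀ i, 0 ≤ Real.log n / Real.log (α i * u i (a i j)) := fun i => by
        have := hA i (a i j) ((hmem j hj).2.1 i)
        exact div_nonneg hL0.le (by linarith)
      have f1 : ∀ i, Real.log n / Real.log (α i * u i (a i j)) ≤ 3 := fun i => by
        have := hA i (a i j) ((hmem j hj).2.1 i)
        rw [div_le_iff₀ (by linarith)]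
        linarith
      have g0 : 0 ≤ g j := by rw [hg]; exact prod_nonneg fun i _ => f0 i
      have g1 : g j ≤ 3 ^ k := by
        have h5 : g j ≤ ∏ _i : Fin k, (3 : ℝ) := by
          rw [hg]
          exact prod_le_prod (fun i _ => f0 i) fun i _ => f1 i
        rwa [prod_const, card_univ, Fintype.card_fin] at h5
      rw [abs_le]
      constructor <;> linarith
    have hg2 : ∀ j ∈ W', (∀ i, ¬ ((a i j : ℝ) ≤ x)) → |g j - 1| ≤ ε / 8 := by
      intro j hj h1
      rw [hg]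
      refine (hδ _ fun i => hB i (a i j) ?_ ((hmem j hj).2.2 i)).le
      rw [← hx]
      exact (not_le.1 (h1 i)).le
    have hterm : ∀ j ∈ W', |g j - 1| ≤ ε / 8 + ∑ i, if (a i j : ℝ) ≤ x then (3 : ℝ) ^ k else 0 := by
      intro j hj
      have hs0 : ∀ i ∈ (univ : Finset (Fin k)), 0 ≤ (if (a i j : ℝ) ≤ x then (3 : ℝ) ^ k else 0) := by
        intro i _
        split_ifs
        · positivity
        · exact le_rfl
      by_cases hjE : ∃ i, (a i j : ℝ) ≤ x
      · obtain ⟨i, hi⟩ := hjE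
        have h1 := hg1 j hj
        have h2 := single_le_sum hs0 (mem_univ i)
        rw [if_pos hi] at h2
        linarith
      · push Not at hjE
        have h1 := hg2 j hj fun i => not_le.2 (hjE i)
        have h2 := sum_nonneg hs0
        linarith
    have hW'W : (W'.card : ℝ) ≤ w := by
      rw [hw, hW']
      exact_mod_cast card_le_card (V_sub _ _ _)
    have hS1 : |∑ j ∈ W', g j - W'.card| ≤ ε / 8 * w + k * x * 3 ^ k := by
      have e1 : ∑ j ∈ W', g j - W'.card = ∑ j ∈ W', (g j - 1) := by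
        rw [sum_sub_distrib, sum_const, nsmul_eq_mul, mul_one]
      rw [e1]
      refine (abs_sum_le_sum_abs _ _).trans ((sum_le_sum hterm).trans ?_)
      rw [sum_add_distrib, sum_const, nsmul_eq_mul, sum_comm]
      have h2 : ∀ i ∈ (univ : Finset (Fin k)), ∑ j ∈ W', (if (a i j : ℝ) ≤ x then (3 : ℝ) ^ k else 0) ≤ x * 3 ^ k := by
        intro i _
        rw [← sum_filter, sum_const, nsmul_eq_mul]
        apply mul_le_mul_of_nonneg_right _ h3k.le
        exact card_low ((ha i).mono (by rw [hW']; exact V_sub _ _ _)) hx0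
      have h3 : (W'.card : ℝ) * (ε / 8) ≤ w * (ε / 8) :=
        mul_le_mul_of_nonneg_right hW'W (by positivity)
      have h4 := sum_le_sum h2
      rw [sum_const, card_univ, Fintype.card_fin, nsmul_eq_mul] at h4
      have h5 : (k : ℝ) * (x * 3 ^ k) = k * x * 3 ^ k := by ring
      linarith
    have hS2 : w - W'.card ≤ k * x := by
      have h1 : ((#(W \ W') : ℕ) : ℝ) ≤ k * x := by
        have h2 := V_card (k := k) ha
        rw [← hW'] at h2
        have h3 : ((#(W \ W') : ℕ) : ℝ) ≤ k * Nat.sqrt n := by exact_mod_cast h2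
        exact h3.trans (mul_le_mul_of_nonneg_left hsx hk0)
      have h2 : #(W \ W') + #W' = #W := card_sdiff_add_card_eq_card (by rw [hW']; exact V_sub _ _ _)
      have h3 : ((#(W \ W') : ℕ) : ℝ) + W'.card = w := by
        rw [hw]
        exact_mod_cast h2
      linarith
    have hfin : |∑ j ∈ W', g j - w| ≤ ε * w := by
      have e1 : ∑ j ∈ W', g j - w = (∑ j ∈ W', g j - W'.card) + (W'.card - w) := by ring
      have hkx0 : 0 ≤ (k : ℝ) * x := by positivity
      have e2 : |(W'.card : ℝ) - w| ≤ k * x := by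
        rw [abs_le]
        constructor <;> linarith
      have e3 : 0 ≤ ε * w := by positivity
      rw [e1]
      refine (abs_add_le _ _).trans ?_
      linarith
    have e2 : mainE u α W' a / (w / (Real.log n) ^ k) - 1 = (∑ j ∈ W', g j - w) / w := by
      rw [← hsum]
      field_simp
    rw [e2, abs_div, abs_of_pos hw0, div_le_iff₀ hw0]
    exact hfin
  obtain ⟨N, hN⟩ := eventually_atTop.mp hall
  exact ⟨N, fun n hn => hN n hn⟩

/-- **The theorem for families of index sets.** -/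
theorem famT (hsd : S_SD) (hprd : S_PRD) (hex : S_EX) {k : ℕ} (u : Fin k → ℕ → ℕ) (hu : ∀ i, Sq (u i))
    {ι : Type} {B : ℕ} {Λ : ℕ → Finset ι} {W : ℕ → ι → Finset ℕ} {a : Fin k → ℕ → ι → ℕ → ℕ}
    (hF : Fam ι B Λ W a) :
    ∀ᵐ α : Fin k → ℝ, (∀ i, 0 < α i) → ∀ b : Fin k → ℤ,
      (∀ L : ℕ, Thin fun n => (n : ℝ) / (Real.log n) ^ L <
        ∑ l ∈ Λ n, |(cnt u b α (W n l) (fun i => a i n l) : ℝ) - mainE u α (V n (W n l) fun i => a i n l) fun i => a i n l|) ∧
      ∀ ε : ℝ, 0 < ε → ∀ C : ℕ, Thin fun n => ∃ l ∈ Λ n, (n : ℝ) / (Real.log n) ^ C ≤ #(W n l) ∧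
        ε < |(cnt u b α (W n l) (fun i => a i n l) : ℝ) / (#(W n l) / (Real.log n) ^ k) - 1| := by
  have hm : MeasurableSet {α : Fin k → ℝ | ∀ i, 0 < α i} := by
    rw [Set.ofPred_forall]
    exact MeasurableSet.iInter fun i => measurableSet_lt measurable_const (measurable_pi_apply i)
  have h1 := ae_all_iff.2 fun b : Fin k → ℤ => ae_Ge hsd hprd hex u hu hF b
  rw [ae_restrict_iff' hm] at h1
  filter_upwards [h1] with α hα hpos b
  have h2 := hα hpos b
  have hlog : Tendsto (fun n : ℕ => Real.log (n : ℝ)) atTop atTop :=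
    Real.tendsto_log_atTop.comp tendsto_natCast_atTop_atTop
  have hk0 : (0 : ℝ) ≤ k := Nat.cast_nonneg _
  have hA : ∀ L : ℕ, Thin fun n => (n : ℝ) / (Real.log n) ^ L <
      ∑ l ∈ Λ n, |(cnt u b α (W n l) (fun i => a i n l) : ℝ) - mainE u α (V n (W n l) fun i => a i n l) fun i => a i n l| := by
    intro L
    refine thin_mono ?_ (h2 (L + 1))
    have h3 : Tendsto (fun n : ℕ => (k : ℝ) * (Real.sqrt n * (Real.log n) ^ (L + 1 + B) / n)) atTop (𝓝 0) := by
      have e0 : Tendsto (fun x : ℝ => (Real.log x) ^ (L + 1 + B) / x ^ (1 / 2 : ℝ)) atTop (𝓝 0) := by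
        have := (isLittleO_log_rpow_rpow_atTop (s := (1 / 2 : ℝ)) ((L + 1 + B : ℕ) : ℝ)
          (by norm_num)).tendsto_div_nhds_zero
        refine this.congr fun x => ?_
        rw [Real.rpow_natCast]
      have e1 := (e0.comp tendsto_natCast_atTop_atTop).const_mul (k : ℝ)
      rw [mul_zero] at e1
      refine e1.congr' ?_
      filter_upwards [eventually_gt_atTop 0] with n hn
      have hn' : (0:ℝ) < n := by exact_mod_cast hn
      simp only [Function.comp_apply]
      rw [← Real.sqrt_eq_rpow]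
      have : (n : ℝ) = √n * √n := (Real.mul_self_sqrt hn'.le).symm
      have hs : 0 < √(n:ℝ) := Real.sqrt_pos.2 hn'
      field_simp
      rw [Real.sq_sqrt hn'.le]
    filter_upwards [h3.eventually_le_const (show (0:ℝ) < 1 by norm_num), hlog.eventually_ge_atTop 2,
      eventually_gt_atTop 0, hF.few] with n hn1 hn2 hn3 hn5 hn4
    have hn' : (0:ℝ) < n := by exact_mod_cast hn3
    have hl : 0 < Real.log (n:ℝ) := by linarith
    have h5 : ∑ l ∈ Λ n, |(cnt u b α (W n l) (fun i => a i n l) : ℝ) - mainE u α (V n (W n l) fun i => a i n l) fun i => a i n l| ≤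
        ∑ l ∈ Λ n, ‖Ge u b α (V n (W n l) fun i => a i n l) fun i => a i n l‖ + #(Λ n) * (k * Nat.sqrt n) := by
      rw [← nsmul_eq_mul, ← sum_const, ← sum_add_distrib]
      exact sum_le_sum fun l hl => cnt_diff u b α fun i => hF.emb i n l hl
    have h6 : (Nat.sqrt n : ℝ) ≤ √(n:ℝ) := Real.nat_sqrt_le_real_sqrt
    have h7 : (#(Λ n) : ℝ) * (k * Nat.sqrt n) ≤ n / (Real.log n) ^ (L + 1) := by
      rw [le_div_iff₀ (by positivity)]
      have g1 : (k : ℝ) * (Real.sqrt n * (Real.log n) ^ (L + 1 + B) / n) * n ≤ 1 * n :=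
        mul_le_mul_of_nonneg_right hn1 hn'.le
      have e : (k : ℝ) * (Real.sqrt n * (Real.log n) ^ (L + 1 + B) / n) * n = k * Real.sqrt n * (Real.log n) ^ (L + 1 + B) := by
        field_simp
      have g2 : (#(Λ n) : ℝ) * (k * Nat.sqrt n) ≤ (Real.log n) ^ B * (k * √(n:ℝ)) := by
        gcongr
      calc (#(Λ n) : ℝ) * (k * Nat.sqrt n) * (Real.log n) ^ (L + 1) ≤
            (Real.log n) ^ B * (k * √(n:ℝ)) * (Real.log n) ^ (L + 1) :=
            mul_le_mul_of_nonneg_right g2 (by positivity)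
        _ = k * Real.sqrt n * (Real.log n) ^ (L + 1 + B) := by rw [pow_add _ (L + 1) B]; ring
        _ ≤ n := by linarith
    have h8 : 2 * (n / (Real.log n) ^ (L + 1)) ≤ (n:ℝ) / (Real.log n) ^ L := by
      rw [pow_succ, ← div_div, mul_div_assoc', div_le_iff₀ hl]
      have : 0 ≤ (n:ℝ) / (Real.log n) ^ L := by positivity
      nlinarith
    linarith
  refine ⟨hA, fun ε hε C => ?_⟩
  refine thin_mono ?_ (hA (k + C + 1))
  obtain ⟨n0, h3⟩ := mainT k u hu α hpos (ε / 2) (by positivity) C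
  filter_upwards [eventually_ge_atTop n0, hlog.eventually_ge_atTop (4 / ε), hlog.eventually_ge_atTop 1,
    eventually_gt_atTop 0] with n hn1 hn2 hn3 hn4 hn5
  obtain ⟨l, hlΛ, hn6, hn7⟩ := hn5
  by_contra h6
  push Not at h6
  have h6' : |(cnt u b α (W n l) (fun i => a i n l) : ℝ) - mainE u α (V n (W n l) fun i => a i n l) fun i => a i n l| ≤
      n / (Real.log n) ^ (k + C + 1) :=
    le_trans (single_le_sum (f := fun l => |(cnt u b α (W n l) (fun i => a i n l) : ℝ) -
      mainE u α (V n (W n l) fun i => a i n l) fun i => a i n l|) (fun _ _ => abs_nonneg _) hlΛ) h6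
  have h9 := h3 n hn1 (W n l) (fun i => a i n l) (fun i => hF.emb i n l hlΛ) hn6
  have hn' : (0:ℝ) < n := by exact_mod_cast hn4
  have hl : 0 < Real.log (n:ℝ) := by linarith
  have hWp : (0:ℝ) < #(W n l) := lt_of_lt_of_le (by positivity) hn6
  obtain ⟨m, hm⟩ : ∃ m, m = mainE u α (V n (W n l) fun i => a i n l) fun i => a i n l := ⟨_, rfl⟩
  obtain ⟨c, hc⟩ : ∃ c : ℝ, c = (cnt u b α (W n l) (fun i => a i n l) : ℝ) := ⟨_, rfl⟩
  rw [← hm] at h6' h9
  rw [← hc] at h6' hn7
  have e1 : c / (#(W n l) / (Real.log n) ^ k) - 1 =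
      (c - m) * ((Real.log n) ^ k / #(W n l)) + (m / (#(W n l) / (Real.log n) ^ k) - 1) := by
    field_simp
    ring
  rw [e1] at hn7
  have h7 : |(c - m) * ((Real.log n) ^ k / #(W n l))| ≤ ε / 4 := by
    rw [abs_mul, abs_of_nonneg (by positivity : 0 ≤ (Real.log (n:ℝ)) ^ k / #(W n l))]
    calc _ ≤ n / (Real.log n) ^ (k + C + 1) * ((Real.log n) ^ k / #(W n l)) :=
          mul_le_mul_of_nonneg_right h6' (by positivity)
      _ = n / (Real.log n) ^ C / #(W n l) * (1 / Real.log n) := by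
          rw [pow_succ, pow_add]
          field_simp
      _ ≤ 1 * (1 / Real.log n) := by
          refine mul_le_mul_of_nonneg_right ?_ (by positivity)
          rw [div_le_one hWp]
          exact hn6
      _ ≤ ε / 4 := by
          rw [one_mul, div_le_iff₀ hl]
          rw [div_le_iff₀ hε] at hn2
          linarith
  have h8 := abs_add_le ((c - m) * ((Real.log n) ^ k / #(W n l))) (m / (#(W n l) / (Real.log n) ^ k) - 1)
  linarith

end Pool.Agent.W2helper62.MI
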