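import Pool.Agent.W2helper62.MI2

set_option autoImplicit false

/-! All progressions of indices at once. -/

namespace Pool.Agent.W2helper62.MI

open Finset MeasureTheory Filter Topology
open scoped ENNReal
open Pool.Agent.N798.T
open Pool.Agent.N798.HS

/-- the integers `0 < j < n` in the class `l.2.2` modulo `l.2.1` and in the `l.1`-th of `J` intervals -/
def cell (n J : ℕ) (l : ℕ × ℕ × ℕ) : Finset ℕ :=
  (Ioo 0 n).filter fun j => j % l.2.1 = l.2.2 ∧ l.1 * n / J < j ∧ j ≤ (l.1 + 1) * n / J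

lemma cell_disj (n J q r : ℕ) (I : Finset ℕ) :
    (I : Set ℕ).PairwiseDisjoint fun i => cell n J (i, q, r) := by
  have key : ∀ i i' : ℕ, i < i' → Disjoint (cell n J (i, q, r)) (cell n J (i', q, r)) := by
    intro i i' h
    rw [Finset.disjoint_left]
    intro j hj hj'
    unfold cell at hj hj'
    rw [mem_filter] at hj hj'
    have h1 := hj.2.2.2
    have h2 := hj'.2.2.1
    simp only at h1 h2
    have h3 : (i + 1) * n / J ≤ i' * n / J := Nat.div_le_div_right (Nat.mul_le_mul_right n h)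
    omega
  intro i _ i' _ hne
  rcases Nat.lt_or_gt_of_ne hne with h | h
  · exact key i i' h
  · exact (key i' i h).symm

lemma div_step (n J i : ℕ) (hJ : 1 ≤ J) : (i + 1) * n / J ≤ i * n / J + n / J + 1 := by
  have h1 : (i + 1) * n = i * n + n := by ring
  rw [h1]
  have h2 := Nat.div_add_mod (i * n) J
  have h3 := Nat.div_add_mod n J
  have h4 : i * n % J < J := Nat.mod_lt _ hJ
  have h5 : n % J < J := Nat.mod_lt _ hJ
  apply Nat.le_of_lt_succ
  rw [Nat.div_lt_iff_lt_mul hJ]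
  have h6 : (i * n / J + n / J + 1).succ * J = J * (i * n / J) + J * (n / J) + J + J := by
    rw [Nat.succ_eq_add_one]
    ring
  rw [h6]
  omega

/-- a progression is, up to few elements, a union of cells -/
lemma split (n J c q T : ℕ) (hJ : 1 ≤ J) (hc : 1 ≤ c) (hq : 1 ≤ q) (hT : 1 ≤ T) (hn : c + q * (T - 1) < n) :
    ∃ I ⊆ range J, (I.biUnion fun i => cell n J (i, q, c % q)) ⊆ (range T).image (fun t => c + q * t) ∧
      #(((range T).image fun t => c + q * t) \ (I.biUnion fun i => cell n J (i, q, c % q))) ≤ 2 * (n / J + 3) := by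
  obtain ⟨d, hd⟩ : ∃ d, d = c + q * (T - 1) := ⟨_, rfl⟩
  refine ⟨(range J).filter fun i => c ≤ i * n / J + 1 ∧ (i + 1) * n / J ≤ d, filter_subset _ _, ?_, ?_⟩
  · intro j hj
    rw [mem_biUnion] at hj
    obtain ⟨i, hi, hj⟩ := hj
    rw [mem_filter] at hi
    unfold cell at hj
    rw [mem_filter] at hj
    obtain ⟨_, h1, h2, h3⟩ := hj
    simp only at h1 h2 h3
    have h4 : c ≤ j := by omega
    have h5 : j ≤ d := by omega
    have h6 : q ∣ j - c := (Nat.modEq_iff_dvd' h4).1 h1.symm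
    obtain ⟨t, ht⟩ := h6
    rw [mem_image]
    refine ⟨t, ?_, by omega⟩
    rw [mem_range]
    have h7 : q * t ≤ q * (T - 1) := by omega
    have h8 := Nat.le_of_mul_le_mul_left h7 hq
    omega
  · have hsub : (((range T).image fun t => c + q * t) \ (((range J).filter fun i => c ≤ i * n / J + 1 ∧
        (i + 1) * n / J ≤ d).biUnion fun i => cell n J (i, q, c % q))) ⊆
        Icc c (c + (n / J + 1)) ∪ Icc (d - (n / J + 1)) d := by
      intro j hj
      rw [Finset.mem_sdiff, mem_image] at hj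
      obtain ⟨⟨t, ht, htj⟩, hj2⟩ := hj
      rw [mem_range] at ht
      have h1 : q * t ≤ q * (T - 1) := Nat.mul_le_mul_left q (by omega)
      have hcj : c ≤ j := by omega
      have hjd : j ≤ d := by omega
      have hex : ∃ i, j ≤ (i + 1) * n / J := ⟨J - 1, by
        rw [Nat.sub_add_cancel hJ, Nat.mul_div_cancel_left _ (by omega)]
        omega⟩
      obtain ⟨i, hi⟩ : ∃ i, i = Nat.find hex := ⟨_, rfl⟩
      have hi1 : j ≤ (i + 1) * n / J := by
        rw [hi]
        exact Nat.find_spec hex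
      have hi2 : i ≤ J - 1 := by
        rw [hi]
        apply Nat.find_min'
        rw [Nat.sub_add_cancel hJ, Nat.mul_div_cancel_left _ (by omega)]
        omega
      have hi3 : i * n / J < j := by
        rcases Nat.eq_zero_or_pos i with h0 | h0
        · rw [h0, Nat.zero_mul, Nat.zero_div]
          omega
        · have h2 : i - 1 < Nat.find hex := by omega
          have h3 := Nat.find_min hex h2
          rw [Nat.sub_add_cancel h0] at h3
          omega
      have hst := div_step n J i hJ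
      rw [mem_union, mem_Icc, mem_Icc]
      by_cases h2 : c ≤ i * n / J + 1
      · by_cases h3 : (i + 1) * n / J ≤ d
        · exfalso
          apply hj2
          rw [mem_biUnion]
          refine ⟨i, mem_filter.2 ⟨mem_range.2 (by omega), h2, h3⟩, ?_⟩
          unfold cell
          rw [mem_filter, mem_Ioo]
          refine ⟨by omega, ?_, hi3, hi1⟩
          simp only
          rw [← htj, Nat.add_mul_mod_self_left]
        · exact Or.inr ⟨by omega, hjd⟩
      · exact Or.inl ⟨hcj, by omega⟩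
    refine (card_le_card hsub).trans ((card_union_le _ _).trans ?_)
    rw [Nat.card_Icc, Nat.card_Icc]
    omega

/-- the number of the terms `j` of the progression `c, c + q, …` with `T` terms for which all the numbers
`⌊α_i u_i(j)⌋ + b_i`, with `n - j` for `j` on the right side, are primes -/
noncomputable def pcnt {k : ℕ} (u : Fin k → ℕ → ℕ) (σ : Fin k → Bool) (b : Fin k → ℤ) (α : Fin k → ℝ)
    (n c q T : ℕ) : ℕ :=
  #((range T).filter fun t : ℕ => ∀ i, (⌊α i * (u i (arg (σ i) n (c + q * t)) : ℝ)⌋ + b i).toNat.Prime)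

lemma arg_emb (n : ℕ) (σ : Bool) (W : Finset ℕ) (hW : W ⊆ Ioo 0 n) : Emb n W (arg σ n) := by
  constructor
  · intro x hx y hy hxy
    have h1 := mem_Ioo.1 (hW (mem_coe.1 hx))
    have h2 := mem_Ioo.1 (hW (mem_coe.1 hy))
    unfold arg at hxy
    split_ifs at hxy
    · omega
    · exact hxy
  · intro j hj
    have h1 := mem_Ioo.1 (hW hj)
    unfold arg
    split_ifs <;> omega

lemma cnt_add {k : ℕ} (u : Fin k → ℕ → ℕ) (b : Fin k → ℤ) (α : Fin k → ℝ) (S P : Finset ℕ) (hP : P ⊆ S)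
    (a : Fin k → ℕ → ℕ) : cnt u b α P a ≤ cnt u b α S a ∧ cnt u b α S a ≤ cnt u b α P a + #(S \ P) := by
  classical
  unfold cnt
  constructor
  · exact card_le_card (filter_subset_filter _ hP)
  · have h : (S.filter fun j : ℕ => ∀ i, (⌊α i * (u i (a i j) : ℝ)⌋ + b i).toNat.Prime) ⊆
        (P.filter fun j : ℕ => ∀ i, (⌊α i * (u i (a i j) : ℝ)⌋ + b i).toNat.Prime) ∪ (S \ P) := by
      intro j hj
      rw [mem_filter] at hj
      rw [mem_union, mem_filter, Finset.mem_sdiff]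
      by_cases h1 : j ∈ P
      · exact Or.inl ⟨h1, hj.2⟩
      · exact Or.inr ⟨hj.1, h1⟩
    exact (card_le_card h).trans (card_union_le _ _)

lemma cnt_biUnion {k : ℕ} (u : Fin k → ℕ → ℕ) (b : Fin k → ℤ) (α : Fin k → ℝ) (I : Finset ℕ) (f : ℕ → Finset ℕ)
    (hf : (I : Set ℕ).PairwiseDisjoint f) (a : Fin k → ℕ → ℕ) :
    cnt u b α (I.biUnion f) a = ∑ i ∈ I, cnt u b α (f i) a := by
  classical
  unfold cnt
  rw [filter_biUnion, card_biUnion]
  intro i hi i' hi' hne
  exact disjoint_filter_filter (hf hi hi' hne)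

lemma main_biUnion {k : ℕ} (u : Fin k → ℕ → ℕ) (α : Fin k → ℝ) (n : ℕ) (I : Finset ℕ) (f : ℕ → Finset ℕ)
    (hf : (I : Set ℕ).PairwiseDisjoint f) (a : Fin k → ℕ → ℕ) :
    mainE u α (V n (I.biUnion f) a) a = ∑ i ∈ I, mainE u α (V n (f i) a) a := by
  classical
  unfold mainE V
  rw [filter_biUnion, sum_biUnion]
  intro i hi i' hi' hne
  exact disjoint_filter_filter (hf hi hi' hne)

/-- the family of the cells -/
lemma cells_fam {k : ℕ} (σ : Fin k → Bool) (A C : ℕ) : Fam (k := k) (ℕ × ℕ × ℕ) (A + 2 * C + 1)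
    (fun n => range ⌈(Real.log n) ^ A⌉₊ ×ˢ (range (⌈(Real.log n) ^ C⌉₊ + 1) ×ˢ range (⌈(Real.log n) ^ C⌉₊ + 1)))
    (fun n l => cell n ⌈(Real.log n) ^ A⌉₊ l) (fun i n _ => arg (σ i) n) := by
  constructor
  · have hlt : Tendsto (fun n : ℕ => Real.log (n : ℝ)) atTop atTop :=
      Real.tendsto_log_atTop.comp tendsto_natCast_atTop_atTop
    filter_upwards [hlt.eventually_ge_atTop 18] with n hn
    have hL1 : 1 ≤ Real.log n := by linarith
    rw [card_product, card_product, card_range, card_range]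
    have h1 : ∀ D : ℕ, ((⌈(Real.log n) ^ D⌉₊ : ℕ) : ℝ) ≤ (Real.log n) ^ D + 1 := fun D =>
      (Nat.ceil_lt_add_one (by positivity)).le
    have h2 : ∀ D : ℕ, (1 : ℝ) ≤ (Real.log n) ^ D := fun D => one_le_pow₀ hL1
    push_cast
    have h3 := h1 A
    have h4 := h1 C
    have h5 := h2 A
    have h6 := h2 C
    calc ((⌈(Real.log n) ^ A⌉₊ : ℕ) : ℝ) * ((((⌈(Real.log n) ^ C⌉₊ : ℕ) : ℝ) + 1) * (((⌈(Real.log n) ^ C⌉₊ : ℕ) : ℝ) + 1))
        ≤ (2 * (Real.log n) ^ A) * ((3 * (Real.log n) ^ C) * (3 * (Real.log n) ^ C)) := by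
          gcongr <;> linarith
      _ = 18 * (Real.log n) ^ (A + 2 * C) := by ring
      _ ≤ Real.log n * (Real.log n) ^ (A + 2 * C) := mul_le_mul_of_nonneg_right hn (by positivity)
      _ = _ := by rw [pow_succ]; ring
  · intro i n l _
    exact arg_emb n (σ i) _ (by unfold cell; exact filter_subset _ _)

theorem progT (hsd : S_SD) (hprd : S_PRD) (hex : S_EX) {k : ℕ} (u : Fin k → ℕ → ℕ) (hu : ∀ i, Sq (u i))
    (σ : Fin k → Bool) :
    ∀ᵐ α : Fin k → ℝ, (∀ i, 0 < α i) → ∀ b : Fin k → ℤ, ∀ ε : ℝ, 0 < ε → ∀ C : ℕ,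
      Thin fun n => ∃ c q T : ℕ, 1 ≤ c ∧ 1 ≤ q ∧ 1 ≤ T ∧ c + q * (T - 1) < n ∧ (n : ℝ) / (Real.log n) ^ C ≤ T ∧
        ε < |(pcnt u σ b α n c q T : ℝ) / (T / (Real.log n) ^ k) - 1| := by
  classical
  have h0 := ae_all_iff.2 fun C : ℕ => famT hsd hprd hex u hu (cells_fam σ (k + C + 1) (C + 1))
  filter_upwards [h0] with α hα hpos b ε hε C
  obtain ⟨h1, -⟩ := hα C hpos b
  refine thin_mono ?_ (h1 (k + C + 1))
  have hlt : Tendsto (fun n : ℕ => Real.log (n : ℝ)) atTop atTop :=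
    Real.tendsto_log_atTop.comp tendsto_natCast_atTop_atTop
  obtain ⟨n0, h3⟩ := mainT k u hu α hpos (ε / 8) (by positivity) (C + 1)
  filter_upwards [eventually_ge_atTop n0, hlt.eventually_ge_atTop (128 / ε), hlt.eventually_ge_atTop 128,
    eventually_gt_atTop 0, Pool.Agent.N136.HW.log_pow_le (k + C + 1) (show (0 : ℝ) < 6 by norm_num)]
    with n hn1 hn2 hn3 hn4 hn6 hn5
  obtain ⟨c, q, T, hc, hq, hT, hcn, hTn, hdev⟩ := hn5
  by_contra h6
  push Not at h6
  have hn' : (0:ℝ) < n := by exact_mod_cast hn4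
  have hl : 0 < Real.log (n:ℝ) := by linarith
  have hl1 : 1 ≤ Real.log (n:ℝ) := by linarith
  obtain ⟨L, hL⟩ : ∃ L : ℝ, L = Real.log n := ⟨_, rfl⟩
  rw [← hL] at hn2 hn3 hn6 hl hl1 h6 hTn hdev
  obtain ⟨J, hJ⟩ : ∃ J, J = ⌈L ^ (k + C + 1)⌉₊ := ⟨_, rfl⟩
  obtain ⟨Q, hQ⟩ : ∃ Q, Q = ⌈L ^ (C + 1)⌉₊ := ⟨_, rfl⟩
  have hJr : L ^ (k + C + 1) ≤ J := by rw [hJ]; exact Nat.le_ceil _
  have hQr : L ^ (C + 1) ≤ Q := by rw [hQ]; exact Nat.le_ceil _
  have hJ1 : 1 ≤ J := by
    have : (1 : ℝ) ≤ J := (one_le_pow₀ hl1).trans hJr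
    exact_mod_cast this
  obtain ⟨I, hI, hP1, hP2⟩ := split n J c q T hJ1 hc hq hT hcn
  obtain ⟨P, hP⟩ : ∃ P, P = I.biUnion fun i => cell n J (i, q, c % q) := ⟨_, rfl⟩
  obtain ⟨S, hS⟩ : ∃ S, S = (range T).image fun t => c + q * t := ⟨_, rfl⟩
  rw [← hP, ← hS] at hP1 hP2
  have hinj : Set.InjOn (fun t => c + q * t) (range T : Finset ℕ) := by
    intro x _ y _ hxy
    have h7 : q * x = q * y := by simpa using hxy
    exact Nat.eq_of_mul_eq_mul_left hq h7
  have hScard : #S = T := by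
    rw [hS, card_image_of_injOn hinj, card_range]
  have hSn : S ⊆ Ioo 0 n := by
    intro j hj
    rw [hS, mem_image] at hj
    obtain ⟨t, ht, rfl⟩ := hj
    rw [mem_range] at ht
    have h7 : q * t ≤ q * (T - 1) := Nat.mul_le_mul_left q (by omega)
    rw [mem_Ioo]
    omega
  -- `q ≤ Q`
  have hTr : (0 : ℝ) < T := by exact_mod_cast hT
  have hLC : 0 < L ^ C := by positivity
  have hT2 : 2 ≤ T := by
    have h7 : (2 : ℝ) ≤ T := by
      refine le_trans ?_ hTn
      rw [le_div_iff₀ hLC]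
      have h8 : 6 * L ^ C ≤ 6 * L ^ (k + C + 1) := by
        apply mul_le_mul_of_nonneg_left _ (by norm_num)
        exact pow_le_pow_right₀ hl1 (by omega)
      linarith
    exact_mod_cast h7
  have hqQ : q ≤ Q := by
    have h7 : (q : ℝ) * T ≤ 2 * n := by
      have h8 : q * T ≤ 2 * (q * (T - 1)) := by
        have : T ≤ 2 * (T - 1) := by omega
        calc q * T ≤ q * (2 * (T - 1)) := Nat.mul_le_mul_left q this
          _ = _ := by ring
      have h9 : q * T ≤ 2 * n := by omega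
      exact_mod_cast h9
    have h8 : (n : ℝ) ≤ T * L ^ C := by rwa [div_le_iff₀ hLC] at hTn
    have h9 : (q : ℝ) * T ≤ 2 * L ^ C * T := by linarith
    have h10 : (q : ℝ) ≤ 2 * L ^ C := le_of_mul_le_mul_right h9 hTr
    have h11 : 2 * L ^ C ≤ L ^ (C + 1) := by
      rw [pow_succ, mul_comm]
      exact mul_le_mul_of_nonneg_left (by linarith) hLC.le
    have h12 : (q : ℝ) ≤ Q := by linarith
    exact_mod_cast h12
  -- the counts
  have hpc : pcnt u σ b α n c q T = cnt u b α S fun i => arg (σ i) n := by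
    unfold pcnt cnt
    rw [hS, filter_image, card_image_of_injOn]
    intro x hx y hy hxy
    exact hinj (mem_coe.2 (mem_filter.1 (mem_coe.1 hx)).1) (mem_coe.2 (mem_filter.1 (mem_coe.1 hy)).1) hxy
  obtain ⟨hc1, hc2⟩ := cnt_add u b α S P hP1 fun i => arg (σ i) n
  have hdis := cell_disj n J q (c % q) I
  have hcb := cnt_biUnion u b α I (fun i => cell n J (i, q, c % q)) hdis fun i => arg (σ i) n
  have hmb := main_biUnion u α n I (fun i => cell n J (i, q, c % q)) hdis fun i => arg (σ i) n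
  rw [← hP] at hcb hmb
  have hsum : |(cnt u b α P (fun i => arg (σ i) n) : ℝ) - mainE u α (V n P fun i => arg (σ i) n) fun i => arg (σ i) n| ≤
      n / L ^ (k + C + 1) := by
    refine le_trans ?_ h6
    rw [hcb, hmb]
    push_cast
    rw [← sum_sub_distrib]
    refine (abs_sum_le_sum_abs _ _).trans ?_
    have e1 : ∑ i ∈ I, |(cnt u b α (cell n J (i, q, c % q)) (fun i => arg (σ i) n) : ℝ) -
        mainE u α (V n (cell n J (i, q, c % q)) fun i => arg (σ i) n) fun i => arg (σ i) n| =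
        ∑ l ∈ I.image (fun i => (i, q, c % q)), |(cnt u b α (cell n J l) (fun i => arg (σ i) n) : ℝ) -
        mainE u α (V n (cell n J l) fun i => arg (σ i) n) fun i => arg (σ i) n| := by
      rw [sum_image]
      intro x _ y _ hxy
      simpa using hxy
    rw [e1, ← hJ]
    refine sum_le_sum_of_subset_of_nonneg (f := fun l : ℕ × ℕ × ℕ => |(cnt u b α (cell n J l) (fun i => arg (σ i) n) : ℝ) -
      mainE u α (V n (cell n J l) fun i => arg (σ i) n) fun i => arg (σ i) n|) ?_ fun l _ _ => abs_nonneg _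
    intro l hl
    rw [mem_image] at hl
    obtain ⟨i, hi, rfl⟩ := hl
    rw [mem_product, mem_product, mem_range, mem_range, mem_range]
    refine ⟨mem_range.1 (hI hi), ?_, ?_⟩
    · simp only
      rw [← hQ]
      omega
    · simp only
      rw [← hQ]
      have : c % q < q := Nat.mod_lt _ hq
      omega
  have hn6' : 6 * L ^ (k + C + 1) ≤ n := hn6
  have hLk : 0 < L ^ k := by positivity
  -- few elements outside of `P`
  have hout : ((#(S \ P) : ℕ) : ℝ) ≤ 3 * (n / L ^ (k + C + 1)) := by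
    have h7 : ((#(S \ P) : ℕ) : ℝ) ≤ 2 * (((n / J : ℕ) : ℝ) + 3) := by exact_mod_cast hP2
    have h8 : ((n / J : ℕ) : ℝ) ≤ n / L ^ (k + C + 1) :=
      Nat.cast_div_le.trans (div_le_div_of_nonneg_left hn'.le (by positivity) hJr)
    have h9 : 6 ≤ n / L ^ (k + C + 1) := by
      rw [le_div_iff₀ (by positivity)]
      exact hn6'
    linarith
  have hTL : n / L ^ (k + C + 1) ≤ T / L ^ k / L := by
    have h8 : (n : ℝ) ≤ T * L ^ C := by rwa [div_le_iff₀ hLC] at hTn
    rw [div_div, div_le_div_iff₀ (by positivity) (by positivity)]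
    calc (n : ℝ) * (L ^ k * L) ≤ T * L ^ C * (L ^ k * L) := mul_le_mul_of_nonneg_right h8 (by positivity)
      _ = _ := by rw [pow_add, pow_add, pow_one]; ring
  have hTk : 0 < (T : ℝ) / L ^ k := by positivity
  have hTL2 : T / L ^ k / L ≤ ε / 128 * (T / L ^ k) := by
    rw [div_le_iff₀ hl]
    have h8 : 128 ≤ L * ε := by rwa [div_le_iff₀ hε] at hn2
    have h9 : (T : ℝ) / L ^ k * 128 ≤ T / L ^ k * (L * ε) := mul_le_mul_of_nonneg_left h8 hTk.le
    linarith
  have hTL3 : T / L ^ k / L ≤ 1 / 128 * (T / L ^ k) := by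
    rw [div_le_iff₀ hl]
    have h9 : (T : ℝ) / L ^ k * 128 ≤ T / L ^ k * L := mul_le_mul_of_nonneg_left hn3 hTk.le
    linarith
  have hPS : #(S \ P) + #P = #S := card_sdiff_add_card_eq_card hP1
  have hPr : (T : ℝ) - 3 * (n / L ^ (k + C + 1)) ≤ #P := by
    have h7 : ((#(S \ P) : ℕ) : ℝ) + #P = T := by
      rw [← hScard]
      exact_mod_cast hPS
    linarith
  have hPT : (#P : ℝ) ≤ T := by
    rw [← hScard]
    exact_mod_cast card_le_card hP1
  have hTk1 : (T : ℝ) / L ^ k ≤ T := div_le_self hTr.le (one_le_pow₀ hl1)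
  have hPlarge : (n : ℝ) / (Real.log n) ^ (C + 1) ≤ #P := by
    rw [← hL]
    have h7 : (n : ℝ) / L ^ (C + 1) ≤ T / L := by
      rw [pow_succ, ← div_div]
      exact div_le_div_of_nonneg_right hTn hl.le
    have h8 : (T : ℝ) / L ≤ T / 2 := div_le_div_of_nonneg_left hTr.le (by norm_num) (by linarith)
    linarith
  have hm := h3 n hn1 P (fun i => arg (σ i) n) (fun i => arg_emb n (σ i) P (hP1.trans hSn)) hPlarge
  rw [← hL] at hm
  obtain ⟨m, hmm⟩ : ∃ m, m = mainE u α (V n P fun i => arg (σ i) n) fun i => arg (σ i) n := ⟨_, rfl⟩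
  obtain ⟨x, hx⟩ : ∃ x : ℝ, x = (cnt u b α P (fun i => arg (σ i) n) : ℝ) := ⟨_, rfl⟩
  obtain ⟨z, hz⟩ : ∃ z : ℝ, z = (pcnt u σ b α n c q T : ℝ) := ⟨_, rfl⟩
  rw [← hmm] at hm hsum
  rw [← hx] at hsum
  rw [← hz] at hdev
  have hzx1 : x ≤ z := by
    rw [hx, hz, hpc]
    exact_mod_cast hc1
  have hzx2 : z ≤ x + 3 * (n / L ^ (k + C + 1)) := by
    have h7 : z ≤ x + ((#(S \ P) : ℕ) : ℝ) := by
      rw [hx, hz, hpc]
      exact_mod_cast hc2
    linarith
  have hP0 : (0 : ℝ) < #P := by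
    have : 0 < (n : ℝ) / (Real.log n) ^ (C + 1) := by
      rw [← hL]
      positivity
    linarith
  have hmP : |m - #P / L ^ k| ≤ ε / 8 * (T / L ^ k) := by
    have h7 : 0 < (#P : ℝ) / L ^ k := by positivity
    have h8 : m / (#P / L ^ k) - 1 = (m - #P / L ^ k) / (#P / L ^ k) := by
      field_simp
    rw [h8, abs_div, abs_of_pos h7, div_le_iff₀ h7] at hm
    refine hm.trans ?_
    apply mul_le_mul_of_nonneg_left _ (by positivity)
    exact div_le_div_of_nonneg_right hPT hLk.le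
  have hPTk : |(#P : ℝ) / L ^ k - T / L ^ k| ≤ 3 * (n / L ^ (k + C + 1)) := by
    rw [← sub_div, abs_div, abs_of_pos hLk]
    refine (div_le_self (abs_nonneg _) (one_le_pow₀ hl1)).trans ?_
    rw [abs_le]
    constructor <;> linarith
  have hsum' := abs_le.1 hsum
  have hmP' := abs_le.1 hmP
  have hPTk' := abs_le.1 hPTk
  have hfin : |z - T / L ^ k| ≤ ε * (T / L ^ k) := by
    rw [abs_le]
    constructor <;> nlinarith
  have e1 : z / (T / L ^ k) - 1 = (z - T / L ^ k) / (T / L ^ k) := by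
    field_simp
  rw [e1, abs_div, abs_of_pos hTk, lt_div_iff₀ hTk] at hdev
  linarith

end Pool.Agent.W2helper62.MI
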