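import Pool.Agent.W2helper62.MI3
import Pool.Agent.N75.HS.NP

set_option autoImplicit false

/-! The primes and the primes with prime index are slow sequences. -/

namespace Pool.Agent.W2helper62.MI

open Pool.Agent.N798.HS

/-- `j ↦ p_j` -/
theorem sq_p : Sq fun j => Nat.nth Nat.Prime (j - 1) := Pool.Agent.N75.HS.np

/-- `j ↦ p_{p_j}` -/
theorem sq_pp : Sq fun j => Nat.nth Nat.Prime (Nat.nth Nat.Prime (j - 1) - 1) :=
  Pool.Agent.N75.HS.cp (fun j => Nat.nth Nat.Prime (j - 1)) (fun j => Nat.nth Nat.Prime (j - 1)) sq_p sq_p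

end Pool.Agent.W2helper62.MI
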