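import Pool.Agent.W2helper62.TI

set_option autoImplicit false

/-! Lemmas for the applications of the law for tuples of random multiples. -/

namespace Pool.Agent.W2helper62.TJ

open Finset
open Pool.Agent.H373R2.T7 (pz mem_pz Vz Vz_pos Vz_le_one ev_L')
open Pool.Agent.N625.PT

open Classical in
/-- Markov's inequality for the number of the bad parameters -/
lemma markov {α β : Type} (P : Finset α) (Z : Finset β) (w : α → ℝ) (hw : ∀ v, 0 ≤ w v) (Bd : β → α → Prop) (δ ε : ℝ)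
    (hε : 0 < ε) (hδ : 0 ≤ δ) (h : ∀ z ∈ Z, ∑ v ∈ P, (if Bd z v then w v else 0) ≤ δ * ε) :
    ∑ v ∈ P, (if ((Z.filter (fun z => Bd z v)).card : ℝ) ≤ ε * Z.card then 0 else w v) ≤ δ := by
  obtain ⟨cnt, hcnt⟩ : ∃ cnt : α → ℝ, ∀ v, cnt v = ((Z.filter (fun z => Bd z v)).card : ℝ) := ⟨_, fun _ => rfl⟩
  have hcnt0 : ∀ v, 0 ≤ cnt v := fun v => by rw [hcnt]; exact Nat.cast_nonneg _
  simp_rw [← hcnt]
  rcases Z.eq_empty_or_nonempty with hZ | hZ
  · have h0 : ∀ v, cnt v = 0 := fun v => by rw [hcnt, hZ]; simp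
    have h1 : ∑ v ∈ P, (if cnt v ≤ ε * Z.card then 0 else w v) = 0 := by
      apply sum_eq_zero
      intro v _
      rw [if_pos (by rw [h0, hZ]; simp)]
    rw [h1]
    exact hδ
  · have hZ0 : (0 : ℝ) < Z.card := by exact_mod_cast card_pos.2 hZ
    have hexp : ∑ v ∈ P, w v * cnt v ≤ Z.card * (δ * ε) := by
      have e1 : ∀ v, w v * cnt v = ∑ z ∈ Z, (if Bd z v then w v else 0) := by
        intro v
        rw [hcnt, card_eq_sum_ones, Nat.cast_sum, sum_filter, mul_sum]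
        apply sum_congr rfl
        intro z _
        split_ifs <;> simp
      simp_rw [e1]
      rw [sum_comm]
      refine (sum_le_sum h).trans (le_of_eq ?_)
      rw [sum_const, nsmul_eq_mul]
    have h6 : (∑ v ∈ P, (if cnt v ≤ ε * Z.card then 0 else w v)) * (ε * Z.card) ≤ δ * (ε * Z.card) := by
      calc (∑ v ∈ P, (if cnt v ≤ ε * Z.card then 0 else w v)) * (ε * Z.card) ≤ ∑ v ∈ P, w v * cnt v := by
            rw [sum_mul]
            apply sum_le_sum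
            intro v _
            have hpv := hw v
            split_ifs with hv
            · rw [zero_mul]
              exact mul_nonneg hpv (hcnt0 v)
            · exact mul_le_mul_of_nonneg_left (not_le.1 hv).le hpv
        _ ≤ Z.card * (δ * ε) := hexp
        _ = _ := by ring
    exact le_of_mul_le_mul_right h6 (by positivity)

/-- the numbers below the square root of a random multiple are few -/
lemma sqrt_few (b K₁ J B F : ℕ) (hb : 2 ≤ b) (ε : ℝ) (hε : 0 < ε) (r : ℕ) (κ : Fin r → ℤ) : ∃ k₀ : ℕ, ∀ k : ℕ, k₀ ≤ k →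
    ∀ y : ℕ, (y : ℝ) ≤ K₁ * Real.log k → ∀ c : Fin r → ℤ, (∀ j, |c j| ≤ B * (b : ℤ) ^ k) → ∀ h : Fin r → ℕ, (∀ j, h j ≤ k ^ J) →
    ∀ v : Fin r → ℕ, (∀ j, v j ∈ range (b ^ k)) → ∀ t : ℕ, ∀ S : Finset ℕ,
      ((S.filter (fun p : ℕ => 1 ≤ p ∧ ∃ j : Fin r, (j : ℕ) < t ∧ (p : ℝ) ≤ √(Nm y (h j) (c j) (κ j) (v j) : ℝ))).card : ℝ) *
        (k : ℝ) ^ F ≤ ε * (b : ℝ) ^ k := by
  obtain ⟨Kp, hKp⟩ : ∃ Kp : ℕ, ∀ j, |κ j| ≤ Kp := by
    refine ⟨∑ j, (κ j).natAbs, fun j => ?_⟩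
    have : (κ j).natAbs ≤ ∑ j, (κ j).natAbs := single_le_sum (f := fun j => (κ j).natAbs) (fun _ _ => Nat.zero_le _) (mem_univ j)
    rw [← Int.natCast_natAbs]
    exact_mod_cast this
  obtain ⟨k1, h1⟩ := pow_le_pow_digits b hb (2 * K₁ + J + 1 + 2 * (F + 2))
  obtain ⟨k2, h2⟩ := exists_nat_ge (1 / ε)
  refine ⟨max (max k1 k2) (max (B + Kp + 3) r), fun k hk y hy c hc h hh v hv t S => ?_⟩
  have h3 := h1 k (by omega)
  have hk3 : 3 ≤ k := by omega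
  have hkr : (3 : ℝ) ≤ k := by exact_mod_cast hk3
  have hk0 : (0 : ℝ) < k := by linarith
  have hkε : 1 / ε ≤ k := h2.trans (by exact_mod_cast (by omega : k2 ≤ k))
  have hN : ∀ j, (Nm y (h j) (c j) (κ j) (v j) : ℝ) ≤ (k : ℝ) ^ (2 * K₁ + J + 1) * (b : ℝ) ^ k := by
    intro j
    have g1 := mult_small K₁ J k y (h j) hk3 hy (hh j)
    have g2 : Nm y (h j) (c j) (κ j) (v j) ≤ (k : ℤ) ^ (2 * K₁ + J + 1) * (b : ℤ) ^ k := by
      unfold Nm
      have hbk : (0 : ℤ) ≤ (b : ℤ) ^ k := by positivity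
      have e1 : c j + κ j * (v j : ℕ) ≤ (B + Kp : ℤ) * (b : ℤ) ^ k := by
        have f1 := hc j
        have f2 := hKp j
        have f3 : ((v j : ℕ) : ℤ) ≤ (b : ℤ) ^ k := by exact_mod_cast (mem_range.1 (hv j)).le
        have f4 : κ j * (v j : ℕ) ≤ Kp * (b : ℤ) ^ k := by
          calc κ j * (v j : ℕ) ≤ |κ j| * (v j : ℕ) := mul_le_mul_of_nonneg_right (le_abs_self _) (by positivity)
            _ ≤ Kp * (b : ℤ) ^ k := mul_le_mul f2 f3 (by positivity) (by positivity)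
        have f5 := le_abs_self (c j)
        linarith
      have e2 : (B + Kp : ℤ) ≤ k := by exact_mod_cast (by omega : B + Kp ≤ k)
      calc ((primorial y * h j : ℕ) : ℤ) * (c j + κ j * (v j : ℕ)) ≤ ((primorial y * h j : ℕ) : ℤ) * (k * (b : ℤ) ^ k) := by
            apply mul_le_mul_of_nonneg_left _ (by positivity)
            exact e1.trans (mul_le_mul_of_nonneg_right e2 hbk)
        _ ≤ (k : ℤ) ^ (2 * K₁ + J) * (k * (b : ℤ) ^ k) := by
            apply mul_le_mul_of_nonneg_right _ (by positivity)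
            exact_mod_cast g1
        _ = _ := by ring
    exact_mod_cast g2
  obtain ⟨Rt, hRt⟩ : ∃ Rt : ℝ, Rt = (b : ℝ) ^ k / (k : ℝ) ^ (F + 2) := ⟨_, rfl⟩
  have hRt0 : 0 ≤ Rt := by rw [hRt]; positivity
  have hs : ∀ j, √(Nm y (h j) (c j) (κ j) (v j) : ℝ) ≤ Rt := by
    intro j
    apply Real.sqrt_le_iff.2 ⟨hRt0, ?_⟩
    refine (hN j).trans ?_
    rw [hRt, div_pow, le_div_iff₀ (by positivity)]
    have g1 : (k : ℝ) ^ (2 * K₁ + J + 1 + 2 * (F + 2)) ≤ (b : ℝ) ^ k := by exact_mod_cast h3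
    calc (k : ℝ) ^ (2 * K₁ + J + 1) * (b : ℝ) ^ k * ((k : ℝ) ^ (F + 2)) ^ 2 = (k : ℝ) ^ (2 * K₁ + J + 1 + 2 * (F + 2)) * (b : ℝ) ^ k := by
          rw [pow_add]; ring
      _ ≤ (b : ℝ) ^ k * (b : ℝ) ^ k := mul_le_mul_of_nonneg_right g1 (by positivity)
      _ = _ := by ring
  have hcard : ((S.filter (fun p : ℕ => 1 ≤ p ∧ ∃ j : Fin r, (j : ℕ) < t ∧ (p : ℝ) ≤ √(Nm y (h j) (c j) (κ j) (v j) : ℝ))).card : ℝ) ≤ Rt := by
    have e1 : S.filter (fun p : ℕ => 1 ≤ p ∧ ∃ j : Fin r, (j : ℕ) < t ∧ (p : ℝ) ≤ √(Nm y (h j) (c j) (κ j) (v j) : ℝ)) ⊆ Icc 1 ⌊Rt⌋₊ := by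
      intro p hp
      rw [mem_filter] at hp
      obtain ⟨_, hp1, j, _, hpj⟩ := hp
      rw [mem_Icc]
      exact ⟨hp1, Nat.le_floor (hpj.trans (hs j))⟩
    have e2 := card_le_card e1
    rw [Nat.card_Icc, Nat.add_sub_cancel] at e2
    calc ((S.filter (fun p : ℕ => 1 ≤ p ∧ ∃ j : Fin r, (j : ℕ) < t ∧ (p : ℝ) ≤ √(Nm y (h j) (c j) (κ j) (v j) : ℝ))).card : ℝ) ≤ (⌊Rt⌋₊ : ℝ) := by exact_mod_cast e2
      _ ≤ Rt := Nat.floor_le hRt0
  calc _ ≤ Rt * (k : ℝ) ^ F := mul_le_mul_of_nonneg_right hcard (by positivity)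
    _ = (b : ℝ) ^ k / (k : ℝ) ^ 2 := by
        rw [hRt, pow_add]
        field_simp
    _ ≤ ε * (b : ℝ) ^ k := by
        rw [div_le_iff₀ (by positivity)]
        have g1 : 1 ≤ ε * (k : ℝ) ^ 2 := by
          rw [div_le_iff₀ hε] at hkε
          nlinarith
        have g2 : (0 : ℝ) ≤ (b : ℝ) ^ k := by positivity
        nlinarith

end Pool.Agent.W2helper62.TJ
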